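import Pool.Agent.Lib.MP_30b5ba_nt.P.Param

/-! Almost all integers have a typical factorisation. -/

namespace Pool.Agent.Lib.MP_30b5ba_nt.P

open Finset Filter Topology MeasureTheory
open scoped Classical

namespace Typ

theorem markov (U : Finset ℕ) (f : ℕ → ℝ) (hf : ∀ u, 0 ≤ f u) {l B : ℝ} (hl : 0 < l)
    {V : Finset ℕ} (hV : ∀ u ∈ V, u ∈ U ∧ l ≤ f u) (hB : ∑ u ∈ U, f u ≤ B * l) :
    (#V : ℝ) ≤ B := by
  refine le_of_mul_le_mul_right (le_trans ?_ hB) hl
  calc (#V : ℝ) * l = ∑ _u ∈ V, l := by rw [sum_const, nsmul_eq_mul]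
    _ ≤ ∑ u ∈ V, f u := sum_le_sum fun u hu => (hV u hu).2
    _ ≤ _ := sum_le_sum_of_subset_of_nonneg (fun u hu => (hV u hu).1) fun u _ _ => hf u

theorem card_dvd (X d : ℕ) : ∑ u ∈ Icc 1 X, (if d ∣ u then (1 : ℝ) else 0) = (X / d : ℕ) := by
  rw [sum_boole, ← Nat.Ioc_filter_dvd_card_eq_div]
  rfl

theorem card_dvd_le (X d : ℕ) : ∑ u ∈ Icc 1 X, (if d ∣ u then (1 : ℝ) else 0) ≤ X / d := by
  rw [card_dvd]
  exact Nat.cast_div_le

theorem card_dvd_ge (X : ℕ) {d : ℕ} (hd : 0 < d) :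
    X / d - 1 ≤ ∑ u ∈ Icc 1 X, (if d ∣ u then (1 : ℝ) else 0) := by
  rw [card_dvd, sub_le_iff_le_add, div_le_iff₀ (by positivity)]
  have h := Nat.lt_div_mul_add (a := X) hd
  have h2 : (X : ℝ) < (X / d : ℕ) * d + d := by exact_mod_cast h
  linarith

/-- the inequality of Turan and Kubilius -/
theorem tk (X : ℕ) (P : Finset ℕ) (hP : ∀ p ∈ P, p.Prime) (hX : #P ≤ X) :
    ∑ u ∈ Icc 1 X, ((#{p ∈ P | p ∣ u} : ℝ) - ∑ p ∈ P, 1 / (p : ℝ)) ^ 2 ≤
      3 * X * ∑ p ∈ P, 1 / (p : ℝ) := by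
  set H := ∑ p ∈ P, 1 / (p : ℝ) with hH
  have hH0 : 0 ≤ H := sum_nonneg fun p _ => by positivity
  have e : ∀ u : ℕ, (#{p ∈ P | p ∣ u} : ℝ) = ∑ p ∈ P, if p ∣ u then (1 : ℝ) else 0 :=
    fun u => by rw [sum_boole]
  have h1 : X * H - X ≤ ∑ u ∈ Icc 1 X, (#{p ∈ P | p ∣ u} : ℝ) := by
    simp_rw [e]
    rw [sum_comm]
    refine le_trans ?_ (sum_le_sum fun p hp => card_dvd_ge X (hP p hp).pos)
    rw [sum_sub_distrib, hH, mul_sum, sum_const, nsmul_eq_mul, mul_one]
    have : (#P : ℝ) ≤ X := by exact_mod_cast hX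
    simp only [mul_one_div]
    linarith
  have h2 : ∑ u ∈ Icc 1 X, (#{p ∈ P | p ∣ u} : ℝ) ^ 2 ≤ X * H + X * H ^ 2 := by
    simp_rw [e, sq, sum_mul_sum]
    rw [sum_comm]
    have h3 : ∀ p ∈ P, ∑ u ∈ Icc 1 X, ∑ q ∈ P,
        (if p ∣ u then (1 : ℝ) else 0) * (if q ∣ u then (1 : ℝ) else 0) ≤
        X * (1 / p) + X * (1 / p * H) := fun p hp => by
      rw [sum_comm]
      have h4 : ∀ q ∈ P, ∑ u ∈ Icc 1 X,
          (if p ∣ u then (1 : ℝ) else 0) * (if q ∣ u then (1 : ℝ) else 0) ≤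
          (if p = q then X * (1 / p : ℝ) else 0) + X * (1 / p * (1 / q)) := fun q hq => by
        by_cases hpq : p = q
        · subst hpq
          rw [if_pos rfl]
          refine le_trans ?_ (le_add_of_nonneg_right (by positivity))
          rw [mul_one_div]
          refine le_trans (sum_le_sum fun u _ => ?_) (card_dvd_le X p)
          split_ifs <;> simp
        · rw [if_neg hpq, zero_add]
          have h5 := card_dvd_le X (p * q)
          rw [Nat.cast_mul] at h5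
          refine le_trans (sum_le_sum fun u _ => ?_) (h5.trans_eq (by ring))
          by_cases h6 : p ∣ u <;> by_cases h7 : q ∣ u
          · rw [if_pos h6, if_pos h7, if_pos (Nat.Coprime.mul_dvd_of_dvd_of_dvd
              ((Nat.coprime_primes (hP p hp) (hP q hq)).2 hpq) h6 h7), mul_one]
          all_goals
            simp only [h6, h7, if_false, mul_zero, zero_mul]
            split_ifs <;> simp
      refine le_trans (sum_le_sum h4) ?_
      rw [sum_add_distrib, sum_ite_eq, if_pos hp, ← mul_sum, ← mul_sum]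
    refine le_trans (sum_le_sum h3) ?_
    rw [sum_add_distrib, ← mul_sum, ← mul_sum, ← sum_mul]
  simp_rw [sub_sq]
  rw [sum_add_distrib, sum_sub_distrib, ← sum_mul, ← mul_sum, sum_const, Nat.card_Icc,
    Nat.add_sub_cancel, nsmul_eq_mul]
  nlinarith [mul_le_mul_of_nonneg_right h1 hH0]

theorem dev (X : ℕ) (P : Finset ℕ) (hP : ∀ p ∈ P, p.Prime) (hX : #P ≤ X) {l η : ℝ} (hl : 0 < l)
    (hη : 3 * ∑ p ∈ P, 1 / (p : ℝ) ≤ η * l ^ 2) :
    (#{u ∈ Icc 1 X | l ≤ |(#{p ∈ P | p ∣ u} : ℝ) - ∑ p ∈ P, 1 / (p : ℝ)|} : ℝ) ≤ η * X := by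
  refine markov (Icc 1 X) (fun u => ((#{p ∈ P | p ∣ u} : ℝ) - ∑ p ∈ P, 1 / (p : ℝ)) ^ 2)
    (fun _ => sq_nonneg _) (l := l ^ 2) (by positivity) (fun u hu => ?_) ?_
  · obtain ⟨h1, h2⟩ := mem_filter.1 hu
    refine ⟨h1, ?_⟩
    rw [← sq_abs (_ - _)]
    gcongr
  · refine (tk X P hP hX).trans ?_
    have : (0 : ℝ) ≤ X := by positivity
    nlinarith [mul_le_mul_of_nonneg_left hη this]

theorem sum_fact (X : ℕ) {p : ℕ} (hp : p.Prime) :
    ∑ u ∈ Icc 1 X, (u.factorization p : ℝ) ≤ X / ((p : ℝ) - 1) := by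
  have h1 : ∑ u ∈ Icc 1 X, u.factorization p = X.factorial.factorization p := by
    rw [← prod_Ico_id_eq_factorial, Nat.factorization_prod fun x hx => by
      have := (mem_Ico.1 hx).1
      omega, Finsupp.finsetSum_apply]
    rfl
  have h2 := Nat.factorization_factorial_le_div_pred hp X
  rw [← Nat.cast_sum, h1]
  calc (X.factorial.factorization p : ℝ) ≤ (X / (p - 1) : ℕ) := by exact_mod_cast h2
    _ ≤ X / ((p - 1 : ℕ) : ℝ) := Nat.cast_div_le
    _ = _ := by rw [Nat.cast_pred hp.pos]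

theorem mk (X : ℕ) (P : Finset ℕ) (hP : ∀ p ∈ P, p.Prime) (g : ℕ → ℝ) (hg : ∀ p, 0 ≤ g p)
    {l η : ℝ} (hl : 0 < l) (hη : ∑ p ∈ P, g p / ((p : ℝ) - 1) ≤ η * l) :
    (#{u ∈ Icc 1 X | l ≤ ∑ p ∈ P, (u.factorization p : ℝ) * g p} : ℝ) ≤ η * X := by
  refine markov (Icc 1 X) (fun u => ∑ p ∈ P, (u.factorization p : ℝ) * g p)
    (fun _ => sum_nonneg fun p _ => mul_nonneg (by positivity) (hg p)) hl
    (fun u hu => mem_filter.1 hu) ?_
  rw [sum_comm]
  calc ∑ p ∈ P, ∑ u ∈ Icc 1 X, (u.factorization p : ℝ) * g p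
      ≤ ∑ p ∈ P, X * (g p / ((p : ℝ) - 1)) := sum_le_sum fun p hp => by
        rw [← sum_mul]
        refine (mul_le_mul_of_nonneg_right (sum_fact X (hP p hp)) (hg p)).trans_eq ?_
        ring
    _ = X * ∑ p ∈ P, g p / ((p : ℝ) - 1) := by rw [mul_sum]
    _ ≤ X * (η * l) := by gcongr
    _ = _ := by ring

theorem step (z : ℕ → ℝ) {r : ℝ} (h0 : z 0 < r) :
    ∀ n, r ≤ z n → ∃ j < n, z j < r ∧ r ≤ z (j + 1)
  | 0, h => absurd h0 (not_lt.2 h)
  | n + 1, h => by
    by_cases h1 : r ≤ z n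
    · obtain ⟨j, h2, h3⟩ := step z h0 n h1
      exact ⟨j, by omega, h3⟩
    · exact ⟨n, by omega, not_le.1 h1, h⟩

/-- the intermediate cut-off points -/
noncomputable def zz (N j : ℕ) : ℝ := Real.exp (TT N ^ (0.3 + 0.025 * j : ℝ))

theorem ev_small (a b : ℝ) {ε : ℝ} (hε : 0 < ε) :
    ∀ᶠ N : ℕ in atTop, a + b * Real.log (tt N) ≤ ε * tt N := by
  have h := Real.isLittleO_log_id_atTop.bound (c := ε / (2 * (|b| + 1))) (by positivity)
  filter_upwards [tendsto_tt.eventually h, tendsto_tt.eventually_ge_atTop (2 * a / ε),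
    tendsto_tt.eventually_ge_atTop 1] with N h1 h2 h3
  have h4 := Real.log_nonneg h3
  rw [Real.norm_of_nonneg h4, id, Real.norm_of_nonneg (by linarith), div_mul_eq_mul_div,
    le_div_iff₀ (by positivity)] at h1
  rw [div_le_iff₀ hε] at h2
  nlinarith [mul_le_mul_of_nonneg_right (le_abs_self b) h4]

theorem yy_le : ∀ᶠ N : ℕ in atTop, yy N + 1 ≤ N := by
  filter_upwards [tendsto_loglogN.eventually_ge_atTop 2, eventually_ge_atTop 4] with N h1 h2
  have h3 : (4 : ℝ) ≤ N := by exact_mod_cast h2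
  have h4 : 0 ≤ Real.log N := Real.log_nonneg (by linarith)
  have h5 : TT N ≤ Real.log N / 2 := by
    rw [TT]
    gcongr
    nlinarith
  have h6 : yy N ^ 2 ≤ N := by
    rw [yy, ← Real.exp_nat_mul, ← Real.le_log_iff_exp_le (by linarith)]
    push_cast
    linarith
  nlinarith [sq_nonneg (yy N - 1), sq_nonneg (yy N - 2)]

theorem card_pr {z₁ z₂ : ℝ} {X : ℕ} (h0 : 0 ≤ z₂) (h : z₂ + 1 ≤ X) : #(pr z₁ z₂) ≤ X := by
  refine (card_filter_le _ _).trans ?_
  rw [card_range]
  have := Nat.floor_le h0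
  exact_mod_cast (show ((⌊z₂⌋₊ : ℝ) + 1) ≤ X by linarith)

theorem sum_pr {z₁ z₂ y : ℝ} (h0 : 0 ≤ z₁) (h : z₂ ≤ y) :
    ∑ p ∈ pr z₁ z₂, 1 / (p : ℝ) ≤ ∑ p ∈ pr 0 y, 1 / (p : ℝ) :=
  sum_le_sum_of_subset_of_nonneg (fun p hp => by
    obtain ⟨h1, h2, h3⟩ := mem_pr.1 hp
    exact mem_pr.2 ⟨h1, h0.trans_lt h2, h3.trans h⟩) fun p _ _ => by positivity

end Typ

open Typ in
theorem typ (h1 : MertensStmt) : TypStmt := by
  obtain ⟨C, hC, m1, m2, m3, -⟩ := h1
  intro K δ hK hδ
  set η := δ / (33 * K) with hη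
  have hη0 : 0 < η := by positivity
  filter_upwards [ordered, yy_le, loglog_le, tendsto_tt.eventually_ge_atTop 1,
    tendsto_TT.eventually_ge_atTop 1, ev_small (C + 8) 1 (ε := 0.0005) (by norm_num),
    tendsto_tt.eventually_ge_atTop (6 / (η * 0.0005 ^ 2)),
    ev_TT_rpow (2 * C / η) (a := 0.3) (b := 0.301) (by norm_num),
    tendsto_loglogN.eventually_ge_atTop (40 * C / η + 1),
    ev_small (2 * C + 16) 4 (ε := η * 0.001) (by positivity),
    tendsto_logN.eventually_ge_atTop (Real.log K), eventually_ge_atTop 2]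
    with N ⟨o1, o2, o3⟩ hy hll ht hT hs hb h4 h5 h6 hlK hN
  set X := ⌊K * N⌋₊ with hX
  set t := tt N with htt
  set T := TT N with hTT
  have hN' : (2 : ℝ) ≤ N := by exact_mod_cast hN
  have hNX : (N : ℝ) ≤ X := by
    exact_mod_cast (Nat.le_floor (by nlinarith) : N ≤ X)
  have hXK : (X : ℝ) ≤ K * N := Nat.floor_le (by positivity)
  have hT0 : 0 < T := by linarith
  have hlt : 0 ≤ Real.log t := Real.log_nonneg ht
  have hL0 : 0 < Real.log N := Real.log_pos (by linarith)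
  have hLL : 1 ≤ Real.log (Real.log N) := by
    have : 0 ≤ 40 * C / η := by positivity
    linarith
  have ly : Real.log (yy N) = T := Real.log_exp _
  have ly0 : Real.log (y0 N) = T ^ (0.3 : ℝ) := Real.log_exp _
  have lz : ∀ j, Real.log (zz N j) = T ^ (0.3 + 0.025 * j : ℝ) := fun j => Real.log_exp _
  have lT : ∀ x : ℝ, Real.log (T ^ x) = x * t := fun x => Real.log_rpow hT0 x
  have hzy : ∀ j < 28, y0 N ≤ zz N (j + 1) ∧ zz N (j + 1) ≤ yy N := fun j hj => by
    have h7 : (j : ℝ) + 1 ≤ 28 := by exact_mod_cast hj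
    have h8 : (0 : ℝ) ≤ j := by positivity
    refine ⟨Real.exp_le_exp.2 (Real.rpow_le_rpow_of_exponent_le hT ?_), Real.exp_le_exp.2 ?_⟩
    · push_cast
      linarith
    · refine le_trans (Real.rpow_le_rpow_of_exponent_le hT ?_) (Real.rpow_one _).le
      push_cast
      linarith
  have hH : ∑ p ∈ pr 0 (yy N), 1 / (p : ℝ) ≤ 2 * t := by
    have := (abs_le.1 (m2 (yy N) (by linarith))).2
    rw [ly] at this
    change _ - t ≤ C at this
    linarith
  have hd : ∀ z₁ z₂ : ℝ, 0 ≤ z₁ → 0 ≤ z₂ → z₂ ≤ yy N →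
      (#{u ∈ Icc 1 X | 0.0005 * t ≤
        |(#{p ∈ pr z₁ z₂ | p ∣ u} : ℝ) - ∑ p ∈ pr z₁ z₂, 1 / (p : ℝ)|} : ℝ) ≤ η * X :=
    fun z₁ z₂ a1 a2 a3 => by
      refine dev X _ (fun p hp => (mem_pr.1 hp).1) (card_pr a2 (by linarith)) (by positivity) ?_
      rw [div_le_iff₀ (by positivity)] at hb
      have := (sum_pr a1 a3).trans hH
      nlinarith [mul_le_mul_of_nonneg_right hb (show 0 ≤ t by linarith)]
  have b1 := hd (ww N) (y0 N) (by linarith) (by linarith) o3
  have b2 := hd (y0 N) (yy N) (by linarith) (by linarith) le_rfl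
  have b3 : (#((range 28).biUnion fun j => {u ∈ Icc 1 X | 0.0005 * t ≤
      |(#{p ∈ pr (y0 N) (zz N (j + 1)) | p ∣ u} : ℝ) -
        ∑ p ∈ pr (y0 N) (zz N (j + 1)), 1 / (p : ℝ)|}) : ℝ) ≤ 28 * (η * X) := by
    refine le_trans (Nat.cast_le.2 card_biUnion_le) ?_
    rw [Nat.cast_sum]
    refine le_trans (sum_le_sum fun j hj => hd (y0 N) (zz N (j + 1)) (by linarith)
      (Real.exp_pos _).le (hzy j (mem_range.1 hj)).2) ?_
    simp
  have hlp : ∀ p : ℕ, 0 ≤ Real.log p := fun p => Real.log_natCast_nonneg p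
  have b4 := mk X (pr 0 (y0 N)) (fun p hp => (mem_pr.1 hp).1) (fun p => Real.log p) hlp
    (l := T ^ (0.301 : ℝ) / 2) (η := η) (by positivity) (by
      refine (m3 _ (by linarith)).trans ?_
      rw [ly0]
      rw [div_mul_eq_mul_div, div_le_iff₀ hη0] at h4
      linarith)
  have b5 := mk X (pr 0 (yy N)) (fun p hp => (mem_pr.1 hp).1) (fun p => Real.log p) hlp
    (l := Real.log N / 40) (η := η) (by positivity) (by
      refine (m3 _ (by linarith)).trans ?_
      rw [ly, hTT, TT, ← mul_div_assoc, div_le_iff₀ (by positivity)]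
      have h7 : 40 * C ≤ η * Real.log (Real.log N) ^ 2 := by
        have h8 : 40 * C / η ≤ Real.log (Real.log N) ^ 2 := by nlinarith
        rw [div_le_iff₀ hη0] at h8
        linarith
      nlinarith [mul_le_mul_of_nonneg_right h7 hL0.le])
  have b6 := mk X (pr (yy N) X) (fun p hp => (mem_pr.1 hp).1) (fun _ => 1) (fun _ => zero_le_one)
    (l := 0.001 * t) (η := η) (by positivity) (by
      have h7 := (abs_le.1 (m1 (yy N) X (by linarith) (by linarith))).2
      have h8 : Real.log X ≤ 2 * Real.log N := by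
        have := Real.log_le_log (by linarith) hXK
        rw [Real.log_mul (by positivity) (by positivity)] at this
        linarith
      have h9 : Real.log (Real.log X / Real.log (yy N)) ≤ 8 + 2 * Real.log t := by
        have hlX : 0 < Real.log X := Real.log_pos (by linarith)
        rw [ly]
        calc Real.log (Real.log X / T) ≤ Real.log (8 * t ^ 2) := by
              refine Real.log_le_log (by positivity) ?_
              rw [hTT, TT, div_div_eq_mul_div, div_le_iff₀ hL0]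
              have : Real.log (Real.log N) ^ 2 ≤ (2 * t) ^ 2 := by gcongr
              nlinarith [mul_le_mul h8 this (by positivity) (by positivity)]
          _ = Real.log 8 + 2 * Real.log t := by
              rw [Real.log_mul (by norm_num) (by positivity), Real.log_pow]
              norm_num
          _ ≤ _ := by linarith [Real.log_le_sub_one_of_pos (show (0 : ℝ) < 8 by norm_num)]
      calc ∑ p ∈ pr (yy N) X, 1 / ((p : ℝ) - 1) ≤ ∑ p ∈ pr (yy N) X, 2 * (1 / (p : ℝ)) :=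
            sum_le_sum fun p hp => by
              have h10 : (2 : ℝ) ≤ p := by exact_mod_cast (mem_pr.1 hp).1.two_le
              rw [mul_one_div, div_le_div_iff₀ (by linarith) (by linarith)]
              linarith
        _ = 2 * ∑ p ∈ pr (yy N) X, 1 / (p : ℝ) := by rw [mul_sum]
        _ ≤ _ := by linarith)
  have hfin : 33 * (η * X) ≤ δ * N := by
    calc 33 * (η * X) ≤ 33 * (η * (K * N)) := by gcongr
      _ = δ * N := by
        rw [hη]
        field_simp
  refine le_trans (Nat.cast_le.2 ((card_le_card ?_).trans ((card_union_le _ _).trans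
    (Nat.add_le_add ((card_union_le _ _).trans (Nat.add_le_add (card_union_le _ _) le_rfl))
      ((card_union_le _ _).trans (Nat.add_le_add (card_union_le _ _) le_rfl)))))) (by
    push_cast
    refine le_trans (add_le_add (add_le_add (add_le_add b1 b2) b3)
      (add_le_add (add_le_add b4 b5) b6)) ?_
    linarith)
  intro u hu
  obtain ⟨hu, hnt⟩ := mem_filter.1 hu
  by_contra hcon
  simp only [mem_union, mem_filter, mem_biUnion, hu, true_and, not_or, not_le, not_exists,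
    not_and, mem_range] at hcon
  obtain ⟨⟨⟨c1, c2⟩, c3⟩, ⟨c4, c5⟩, c6⟩ := hcon
  refine hnt ⟨?_, ?_, fun r hr => ?_, c4.le, c5.le, le_trans ?_ c6.le⟩
  · have h7 := (abs_le.1 (m1 (ww N) (y0 N) o1 o2)).1
    have h8 : Real.log (ww N) = 4 * Real.log (Real.log N) := by
      rw [ww, Real.log_pow]
      norm_num
    rw [ly0, h8, Real.log_div (by positivity) (by positivity), lT] at h7
    have h9 : Real.log (4 * Real.log (Real.log N)) ≤ Real.log (8 * t) :=
      Real.log_le_log (by positivity) (by linarith)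
    rw [Real.log_mul (x := 8) (by norm_num) (by positivity)] at h9
    have := Real.log_le_sub_one_of_pos (show (0 : ℝ) < 8 by norm_num)
    have := (abs_lt.1 c1).1
    linarith
  · have h7 := (abs_le.1 (m1 (y0 N) (yy N) (by linarith) o3)).1
    rw [ly0, ly, Real.log_div (by positivity) (by positivity), lT] at h7
    change _ ≤ _ - (t - _) at h7
    have := (abs_lt.1 c2).1
    linarith
  · obtain ⟨-, r1, r2⟩ := mem_pr.1 hr
    obtain ⟨j, hj, j1, j2⟩ := step (zz N) (r := r) (by simpa [zz, y0] using r1) 28 (by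
      refine r2.trans_eq ?_
      rw [zz, yy]
      norm_num)
    have h7 := (abs_le.1 (m1 (y0 N) (zz N (j + 1)) (by linarith) (hzy j hj).1)).2
    rw [ly0, lz, Real.log_div (by positivity) (by positivity), lT, lT] at h7
    have h8 := (abs_lt.1 (c3 j hj)).2
    have h9 : (#{p ∈ pr (y0 N) r | p ∣ u} : ℝ) ≤ #{p ∈ pr (y0 N) (zz N (j + 1)) | p ∣ u} := by
      refine Nat.cast_le.2 (card_le_card (filter_subset_filter _ fun p hp => ?_))
      obtain ⟨a1, a2, a3⟩ := mem_pr.1 hp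
      exact mem_pr.2 ⟨a1, a2, a3.trans j2⟩
    have h10 : (j : ℝ) + 1 ≤ 28 := by exact_mod_cast hj
    have h11 : Real.log 4 ≤ 1.3863 := by
      rw [show (4 : ℝ) = 2 ^ 2 by norm_num, Real.log_pow]
      have := Real.log_two_lt_d9
      push_cast
      linarith
    push_cast at h7
    refine le_trans ?_ (Real.log_le_log (Real.exp_pos _) j1.le)
    rw [Real.log_exp, ← Real.log_le_log_iff (by positivity) (by positivity), lT, Real.log_pow]
    have h12 : (0 : ℝ) ≤ j := by positivity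
    calc (#{p ∈ pr (y0 N) r | p ∣ u} : ℝ) * Real.log 4 ≤ ((0.025 * j + 0.026) * t) * 1.3863 := by
          exact mul_le_mul (by linarith) h11 (Real.log_nonneg (by norm_num)) (by positivity)
      _ = ((0.025 * j + 0.026) * 1.3863) * t := by ring
      _ ≤ _ := by
          gcongr
          linarith
  · simp only [mul_one]
    refine sum_le_sum_of_subset_of_nonneg (fun p hp => ?_) fun p _ _ => by positivity
    obtain ⟨a1, a2⟩ := mem_filter.1 hp
    refine mem_pr.2 ⟨Nat.prime_of_mem_primeFactors a1, a2, ?_⟩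
    exact_mod_cast (Nat.le_of_mem_primeFactors a1).trans (mem_Icc.1 hu).2

end Pool.Agent.Lib.MP_30b5ba_nt.P
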