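import Pool.Agent.Lib.MP_30b5ba_nt.P.Param
import Pool.Agent.Lib.MP_164d34_nt.Mean1

/-! Estimates of Mertens and Chebyshev. -/

namespace Pool.Agent.Lib.MP_30b5ba_nt.P

open Finset Filter Topology MeasureTheory
open scoped Classical

namespace Mertens

/-- `∑_{p ≤ N} log p / p`. -/
noncomputable def A (N : ℕ) : ℝ := ∑ n ∈ Ioc 0 N, if n.Prime then Real.log n / n else 0

/-- `∑_{p ≤ N} 1 / p`. -/
noncomputable def S (N : ℕ) : ℝ := ∑ n ∈ Ioc 0 N, if n.Prime then 1 / (n : ℝ) else 0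

theorem A_nonneg (N : ℕ) : 0 ≤ A N := by
  refine sum_nonneg fun n _ => ?_
  split_ifs
  · exact div_nonneg (Real.log_natCast_nonneg n) (Nat.cast_nonneg n)
  · exact le_rfl

theorem A_bound : ∃ C : ℝ, 0 < C ∧ ∀ N : ℕ, Real.log N - C ≤ A N ∧ A N ≤ Real.log N + C := by
  have hs := ArithmeticFunction.vonMangoldt.summable_residueClass_non_primes_div (0 : ZMod 1)
  have hr : ∀ n : ℕ, ArithmeticFunction.vonMangoldt.residueClass (0 : ZMod 1) n =
      ArithmeticFunction.vonMangoldt n := by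
    intro n
    apply Set.indicator_of_mem
    exact Subsingleton.elim _ _
  simp only [hr] at hs
  set f : ℕ → ℝ := fun n => (if n.Prime then 0 else ArithmeticFunction.vonMangoldt n) / n with hf
  have hf0 : ∀ n, 0 ≤ f n := by
    intro n
    refine div_nonneg ?_ (Nat.cast_nonneg n)
    split_ifs
    · exact le_rfl
    · exact ArithmeticFunction.vonMangoldt_nonneg
  have hT : 0 ≤ ∑' n, f n := tsum_nonneg hf0
  refine ⟨6 + ∑' n, f n, by linarith, fun N => ?_⟩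
  obtain ⟨h1, h2⟩ := MP_164d34_nt.mn_mertens N
  have h3 : ∑ n ∈ Ioc 0 N, ArithmeticFunction.vonMangoldt n / n = A N + ∑ n ∈ Ioc 0 N, f n := by
    rw [A, ← sum_add_distrib]
    refine sum_congr rfl fun n _ => ?_
    simp only [hf]
    split_ifs with hp
    · rw [ArithmeticFunction.vonMangoldt_apply_prime hp]; simp
    · simp
  have h4 : ∑ n ∈ Ioc 0 N, f n ≤ ∑' n, f n := hs.sum_le_tsum _ fun n _ => hf0 n
  have h5 : 0 ≤ ∑ n ∈ Ioc 0 N, f n := sum_nonneg fun n _ => hf0 n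
  constructor <;> linarith

theorem step (N : ℕ) (hN : 2 ≤ N) :
    S (N + 1) - A (N + 1) / Real.log ((N + 1 : ℕ) : ℝ) =
      S N - A N / Real.log N + A N * (1 / Real.log N - 1 / Real.log ((N + 1 : ℕ) : ℝ)) := by
  have h1 : (1 : ℝ) < ((N + 1 : ℕ) : ℝ) := by exact_mod_cast (by omega : 1 < N + 1)
  have hx : 0 < Real.log ((N + 1 : ℕ) : ℝ) := Real.log_pos h1
  have hy : 0 < Real.log N := Real.log_pos (by exact_mod_cast (by omega : 1 < N))
  rw [S, A, sum_Ioc_succ_top (Nat.zero_le N), sum_Ioc_succ_top (Nat.zero_le N), ← S, ← A]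
  split_ifs
  · field_simp
    ring
  · field_simp
    ring

theorem D_two : S 2 - A 2 / Real.log ((2 : ℕ) : ℝ) = 0 := by
  have hx : 0 < Real.log ((2 : ℕ) : ℝ) := Real.log_pos (by norm_num)
  rw [S, A, sum_Ioc_succ_top (by norm_num : 0 ≤ 1), sum_Ioc_succ_top (by norm_num : 0 ≤ 1),
    sum_Ioc_succ_top (le_refl 0), sum_Ioc_succ_top (le_refl 0)]
  simp only [Ioc_self, sum_empty, zero_add, Nat.not_prime_one, if_false, Nat.prime_two, if_true,
    show 1 + 1 = 2 from rfl]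
  field_simp
  ring

theorem D_bound {C : ℝ} (hA : ∀ N : ℕ, Real.log N - C ≤ A N ∧ A N ≤ Real.log N + C)
    (N : ℕ) (hN : 2 ≤ N) :
    S N - A N / Real.log N - Real.log (Real.log N) + C / Real.log N ≤
        -Real.log (Real.log ((2 : ℕ) : ℝ)) + C / Real.log ((2 : ℕ) : ℝ) ∧
      -Real.log (Real.log ((2 : ℕ) : ℝ)) - (C + 1) / Real.log ((2 : ℕ) : ℝ) ≤
        S N - A N / Real.log N - Real.log (Real.log N) - (C + 1) / Real.log N := by
  induction N, hN using Nat.le_induction with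
  | base => rw [D_two]; constructor <;> linarith
  | succ N hN ih =>
    rw [step N hN]
    have hN0 : (2 : ℝ) ≤ N := by exact_mod_cast hN
    have hy : 0 < Real.log N := Real.log_pos (by linarith)
    have hyx : Real.log N ≤ Real.log ((N + 1 : ℕ) : ℝ) :=
      Real.log_le_log (by linarith) (by push_cast; linarith)
    have hxy : Real.log ((N + 1 : ℕ) : ℝ) - Real.log N ≤ 1 := by
      rw [← Real.log_div (by positivity) (by positivity)]
      refine (Real.log_le_sub_one_of_pos (by positivity)).trans ?_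
      rw [sub_le_iff_le_add, div_le_iff₀ (by linarith)]
      push_cast
      linarith
    obtain ⟨h1, h2⟩ := hA N
    generalize Real.log ((N + 1 : ℕ) : ℝ) = x at *
    generalize Real.log N = y at *
    have hx : 0 < x := by linarith
    have hd : 0 ≤ 1 / y - 1 / x := sub_nonneg.2 (one_div_le_one_div_of_le hy hyx)
    have e1 : y * (1 / y - 1 / x) = 1 - y / x := by field_simp
    have e2 : x * (1 / y - 1 / x) = x / y - 1 := by field_simp
    have l1 : Real.log y - Real.log x ≤ y / x - 1 := by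
      rw [← Real.log_div hy.ne' hx.ne']; exact Real.log_le_sub_one_of_pos (by positivity)
    have l2 : Real.log x - Real.log y ≤ x / y - 1 := by
      rw [← Real.log_div hx.ne' hy.ne']; exact Real.log_le_sub_one_of_pos (by positivity)
    have u1 : A N * (1 / y - 1 / x) ≤ (y + C) * (1 / y - 1 / x) :=
      mul_le_mul_of_nonneg_right h2 hd
    have u2 : (x - (C + 1)) * (1 / y - 1 / x) ≤ A N * (1 / y - 1 / x) :=
      mul_le_mul_of_nonneg_right (by linarith) hd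
    have f1 : C / x = C * (1 / x) := by ring
    have f2 : C / y = C * (1 / y) := by ring
    have f3 : (C + 1) / x = (C + 1) * (1 / x) := by ring
    have f4 : (C + 1) / y = (C + 1) * (1 / y) := by ring
    obtain ⟨i1, i2⟩ := ih
    constructor
    · rw [f1]; rw [f2] at i1; nlinarith
    · rw [f3]; rw [f4] at i2; nlinarith

theorem S_bound : ∃ C : ℝ, 0 < C ∧ ∀ N : ℕ, 2 ≤ N → |S N - Real.log (Real.log N)| ≤ C := by
  obtain ⟨C, hC, hA⟩ := A_bound
  have h2 : 0 < Real.log ((2 : ℕ) : ℝ) := Real.log_pos (by norm_num)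
  refine ⟨|Real.log (Real.log ((2 : ℕ) : ℝ))| + 1 + 2 * ((C + 1) / Real.log ((2 : ℕ) : ℝ)),
    by positivity, fun N hN => ?_⟩
  obtain ⟨h3, h4⟩ := D_bound hA N hN
  have hN0 : ((2 : ℕ) : ℝ) ≤ N := by exact_mod_cast hN
  have hy : Real.log ((2 : ℕ) : ℝ) ≤ Real.log N := Real.log_le_log (by norm_num) hN0
  have hy0 : 0 < Real.log N := by linarith
  have h5 : 0 ≤ A N / Real.log N := div_nonneg (A_nonneg N) hy0.le
  have h6 : A N / Real.log N ≤ 1 + C / Real.log N := by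
    rw [div_le_iff₀ hy0, add_mul, div_mul_cancel₀ _ hy0.ne']
    linarith [(hA N).2]
  have h7 : 0 ≤ (C + 1) / Real.log N := by positivity
  have h8 : C / Real.log ((2 : ℕ) : ℝ) ≤ (C + 1) / Real.log ((2 : ℕ) : ℝ) := by
    gcongr; linarith
  have h9 : 0 ≤ (C + 1) / Real.log ((2 : ℕ) : ℝ) := by positivity
  have h10 := le_abs_self (Real.log (Real.log ((2 : ℕ) : ℝ)))
  have h11 := neg_abs_le (Real.log (Real.log ((2 : ℕ) : ℝ)))
  generalize |Real.log (Real.log ((2 : ℕ) : ℝ))| = a at *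
  generalize Real.log (Real.log ((2 : ℕ) : ℝ)) = b at *
  generalize (C + 1) / Real.log ((2 : ℕ) : ℝ) = c at *
  generalize C / Real.log ((2 : ℕ) : ℝ) = d at *
  rw [abs_le]
  constructor <;> linarith

theorem sum_pr_zero (z : ℝ) (f : ℕ → ℝ) :
    ∑ p ∈ pr 0 z, f p = ∑ n ∈ Ioc 0 ⌊z⌋₊, if n.Prime then f n else 0 := by
  rw [← sum_filter]
  refine sum_congr ?_ fun _ _ => rfl
  ext p
  rw [pr, mem_filter, mem_filter, mem_range, mem_Ioc, Nat.lt_succ_iff]
  constructor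
  · rintro ⟨h1, h2, -⟩
    exact ⟨⟨h2.pos, h1⟩, h2⟩
  · rintro ⟨⟨h0, h1⟩, h2⟩
    exact ⟨h1, h2, by exact_mod_cast h0⟩

theorem real_bound :
    ∃ C : ℝ, 0 < C ∧ ∀ z : ℝ, 2 ≤ z → |∑ p ∈ pr 0 z, 1 / (p : ℝ) - Real.log (Real.log z)| ≤ C := by
  obtain ⟨C, hC, hS⟩ := S_bound
  refine ⟨C + 1, by linarith, fun z hz => ?_⟩
  have hN : 2 ≤ ⌊z⌋₊ := Nat.le_floor (by exact_mod_cast hz)
  have h1 := hS _ hN
  rw [sum_pr_zero, ← S]
  have hN0 : (2 : ℝ) ≤ ⌊z⌋₊ := by exact_mod_cast hN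
  have h2 : (⌊z⌋₊ : ℝ) ≤ z := Nat.floor_le (by linarith)
  have h3 : z < ⌊z⌋₊ + 1 := Nat.lt_floor_add_one z
  have hy : 0 < Real.log ⌊z⌋₊ := Real.log_pos (by linarith)
  have h4 : Real.log ⌊z⌋₊ ≤ Real.log z := Real.log_le_log (by linarith) h2
  have h5 : Real.log z ≤ 2 * Real.log ⌊z⌋₊ := by
    have : Real.log z ≤ Real.log ((⌊z⌋₊ : ℝ) ^ 2) := Real.log_le_log (by linarith) (by nlinarith)
    rw [Real.log_pow] at this
    exact_mod_cast this
  have h6 : Real.log (Real.log ⌊z⌋₊) ≤ Real.log (Real.log z) := Real.log_le_log hy h4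
  have h7 : Real.log (Real.log z) ≤ Real.log (Real.log ⌊z⌋₊) + 1 := by
    have h8 : Real.log (Real.log z) ≤ Real.log (2 * Real.log ⌊z⌋₊) :=
      Real.log_le_log (by linarith) h5
    rw [Real.log_mul (by norm_num) hy.ne'] at h8
    linarith [Real.log_two_lt_d9]
  rw [abs_le] at h1 ⊢
  constructor <;> linarith [h1.1, h1.2]

theorem sum_pr_split {z₁ z₂ : ℝ} (h0 : 0 ≤ z₁) (h : z₁ ≤ z₂) (f : ℕ → ℝ) :
    ∑ p ∈ pr z₁ z₂, f p = ∑ p ∈ pr 0 z₂, f p - ∑ p ∈ pr 0 z₁, f p := by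
  have hsub : pr 0 z₁ ⊆ pr 0 z₂ := by
    intro p hp
    rw [mem_pr] at hp ⊢
    exact ⟨hp.1, hp.2.1, hp.2.2.trans h⟩
  rw [← sum_sdiff hsub, add_sub_cancel_right]
  refine sum_congr ?_ fun _ _ => rfl
  ext p
  rw [Finset.mem_sdiff, mem_pr, mem_pr, mem_pr]
  constructor
  · rintro ⟨h1, h2, h3⟩
    exact ⟨⟨h1, by linarith, h3⟩, fun h4 => by linarith [h4.2.2]⟩
  · rintro ⟨⟨h1, h2, h3⟩, h4⟩
    refine ⟨h1, ?_, h3⟩
    by_contra h5
    exact h4 ⟨h1, h2, not_lt.1 h5⟩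

theorem third (z : ℝ) (hz : 2 ≤ z) {C : ℝ} (hC : 0 < C)
    (hA : ∀ N : ℕ, A N ≤ Real.log N + C) :
    ∑ p ∈ pr 0 z, Real.log p / ((p : ℝ) - 1) ≤ (2 + 4 * C) * Real.log z := by
  have h1 : ∑ p ∈ pr 0 z, Real.log p / ((p : ℝ) - 1) ≤ ∑ p ∈ pr 0 z, 2 * (Real.log p / p) := by
    refine sum_le_sum fun p hp => ?_
    have h2 : (2 : ℝ) ≤ p := by exact_mod_cast (mem_pr.1 hp).1.two_le
    have h3 : 0 ≤ Real.log p := Real.log_natCast_nonneg p
    rw [← mul_div_assoc, div_le_div_iff₀ (by linarith) (by linarith)]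
    nlinarith
  rw [← mul_sum, sum_pr_zero z fun p => Real.log p / p, ← A] at h1
  have hN : 2 ≤ ⌊z⌋₊ := Nat.le_floor (by exact_mod_cast hz)
  have hN0 : (2 : ℝ) ≤ ⌊z⌋₊ := by exact_mod_cast hN
  have h2 : (⌊z⌋₊ : ℝ) ≤ z := Nat.floor_le (by linarith)
  have h4 : Real.log ⌊z⌋₊ ≤ Real.log z := Real.log_le_log (by linarith) h2
  have h5 : Real.log 2 ≤ Real.log z := Real.log_le_log (by norm_num) hz
  have h6 := Real.log_two_gt_d9
  have h7 := hA ⌊z⌋₊
  nlinarith

theorem fourth (P : Finset ℕ) (r : ℝ) (j : ℤ) (hr : 2 ≤ r)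
    (hP : ∀ p ∈ P, p.Prime ∧ r ≤ p ∧ ⌊Real.log p⌋ = j) :
    ∑ p ∈ P, 1 / (p : ℝ) ≤ Real.log 4 * Real.exp 1 / Real.log r := by
  have hl : 0 < Real.log r := Real.log_pos (by linarith)
  have he : 0 < Real.exp j := Real.exp_pos _
  have h1 : ∑ p ∈ P, 1 / (p : ℝ) ≤ ∑ p ∈ P, Real.log p / (Real.exp j * Real.log r) := by
    refine sum_le_sum fun p hp => ?_
    obtain ⟨h1, h2, h3⟩ := hP p hp
    have hp0 : (0 : ℝ) < p := by linarith
    have h4 : Real.exp j ≤ p := by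
      rw [← h3, ← Real.le_log_iff_exp_le hp0]; exact Int.floor_le _
    have h5 : Real.log r ≤ Real.log p := Real.log_le_log (by linarith) h2
    rw [div_le_div_iff₀ hp0 (by positivity), one_mul, mul_comm (Real.log p)]
    exact mul_le_mul h4 h5 hl.le hp0.le
  have h2 : ∑ p ∈ P, Real.log p ≤ Chebyshev.theta (Real.exp (j + 1)) := by
    rw [Chebyshev.theta]
    refine sum_le_sum_of_subset_of_nonneg (fun p hp => ?_) fun p _ _ => Real.log_natCast_nonneg p
    obtain ⟨h1, h2, h3⟩ := hP p hp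
    have hp0 : (0 : ℝ) < p := by linarith
    rw [mem_filter, mem_Ioc]
    refine ⟨⟨h1.pos, Nat.le_floor ?_⟩, h1⟩
    rw [← h3, ← Real.log_le_iff_le_exp hp0]
    exact (Int.lt_floor_add_one _).le
  have h3 := Chebyshev.theta_le_log4_mul_x (Real.exp_pos ((j : ℝ) + 1)).le
  rw [← sum_div] at h1
  refine h1.trans ?_
  rw [div_le_div_iff₀ (by positivity) hl]
  rw [Real.exp_add] at h2 h3
  calc (∑ p ∈ P, Real.log p) * Real.log r
      ≤ Real.log 4 * (Real.exp j * Real.exp 1) * Real.log r :=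
        mul_le_mul_of_nonneg_right (h2.trans h3) hl.le
    _ = Real.log 4 * Real.exp 1 * (Real.exp j * Real.log r) := by ring

end Mertens

theorem mertens : MertensStmt := by
  obtain ⟨C₁, hC₁, h₁⟩ := Mertens.real_bound
  obtain ⟨C₂, hC₂, h₂⟩ := Mertens.A_bound
  have h4 : 0 < Real.log 4 * Real.exp 1 := mul_pos (Real.log_pos (by norm_num)) (Real.exp_pos _)
  refine ⟨2 * C₁ + (2 + 4 * C₂) + Real.log 4 * Real.exp 1, by positivity, ?_, ?_, ?_, ?_⟩
  · intro z₁ z₂ hz₁ hz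
    have a₁ := h₁ z₁ hz₁
    have a₂ := h₁ z₂ (hz₁.trans hz)
    have l₁ : 0 < Real.log z₁ := Real.log_pos (by linarith)
    have l₂ : 0 < Real.log z₂ := Real.log_pos (by linarith)
    rw [Mertens.sum_pr_split (by linarith) hz, Real.log_div l₂.ne' l₁.ne']
    rw [abs_le] at a₁ a₂ ⊢
    constructor <;> linarith [a₁.1, a₁.2, a₂.1, a₂.2]
  · intro z hz
    linarith [h₁ z hz]
  · intro z hz
    have l : 0 < Real.log z := Real.log_pos (by linarith)
    refine (Mertens.third z hz hC₂ fun N => (h₂ N).2).trans ?_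
    exact mul_le_mul_of_nonneg_right (by linarith) l.le
  · intro P r j hr hP
    have l : 0 < Real.log r := Real.log_pos (by linarith)
    refine (Mertens.fourth P r j hr hP).trans ?_
    exact div_le_div_of_nonneg_right (by linarith) l.le

end Pool.Agent.Lib.MP_30b5ba_nt.P
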