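import Pool.Agent.Lib.MP_30b5ba_nt.P.Param

/-! From the count over the pairs `j < i` to the pair correlation. -/

namespace Pool.Agent.Lib.MP_30b5ba_nt.P

open Finset Filter Topology
open scoped Classical

theorem Bad.neg {c α : ℝ} (h : Bad c α) : Bad c (-α) := fun m hm z => by
  have := h m hm (-z)
  rwa [Int.cast_neg, ← abs_neg, show -(α * m - -(z : ℝ)) = -α * m - z by ring] at this

theorem bad_of_approx {c α : ℝ}
    (h : ∀ (p : ℤ) (q : ℕ), 1 ≤ q → c / (q : ℝ) ^ 2 ≤ |α - p / q|) : Bad c α := fun m hm z => by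
  have h0 : (0 : ℝ) < m := by exact_mod_cast hm
  have h1 := h z m hm
  rw [div_le_iff₀ (by positivity)] at h1
  rw [show α * m - z = (α - z / m) * m by field_simp, abs_mul, abs_of_pos h0]
  linarith

theorem poissonian (hH : HalfStmt) {c α : ℝ} (hc : 0 < c) (h : Bad c α) : Poissonian α := by
  intro a b ha hab hb
  have h1 := (hH c α hc h a b ha hab hb).add (hH c (-α) hc h.neg a b ha hab hb)
  rw [add_halves] at h1
  refine h1.congr fun N => ?_
  rw [R2, ← add_div, one_div, inv_mul_eq_div, ← Nat.cast_add]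
  congr 2
  refine Eq.trans ?_ (card_filter_add_card_filter_not (fun p : ℕ × ℕ => p.2 < p.1))
  rw [filter_filter, filter_filter]
  congr 1
  · congr 1
    refine filter_congr fun p _ => ⟨fun h => ⟨⟨h.1.ne', h.2⟩, h.1⟩, fun h => ⟨h.2, h.1.2⟩⟩
  · refine card_bij (fun p _ => p.swap) (fun p hp => ?_) (fun p _ q _ h => Prod.swap_injective h)
      fun p hp => ⟨p.swap, ?_, rfl⟩
    · obtain ⟨h2, h3, k, h4⟩ := mem_filter.1 hp
      refine mem_filter.2 ⟨mem_product.2 (mem_product.1 h2).symm, ⟨h3.ne, k, ?_⟩, h3.le.not_gt⟩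
      convert h4 using 2
      simp only [Prod.fst_swap, Prod.snd_swap]
      ring
    · obtain ⟨h2, ⟨h3, k, h4⟩, h5⟩ := mem_filter.1 hp
      refine mem_filter.2 ⟨mem_product.2 (mem_product.1 h2).symm,
        lt_of_le_of_ne (not_lt.1 h5) h3, k, ?_⟩
      convert h4 using 2
      simp only [Prod.fst_swap, Prod.snd_swap]
      ring

end Pool.Agent.Lib.MP_30b5ba_nt.P
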