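import Pool.Agent.Lib.MP_30b5ba_nt.P.Param

/-! The sum over the small parts. -/

namespace Pool.Agent.Lib.MP_30b5ba_nt.P

open Finset Filter Topology MeasureTheory
open scoped Classical

namespace A0

theorem int_abs_le {f : ℝ → ℝ} {u v K ρ : ℝ} (hf : Measurable f) (huv : u ≤ v) (hρ : 0 < ρ)
    (hK : ∀ s, |f s| ≤ K) (h0 : ∀ s, s ∉ Set.Icc u v → f s = 0) :
    ∫ s, |f s| ≤ ρ / 2 * (v - u) + (∫ s, f s ^ 2) / (2 * ρ) := by
  have hI : ∀ c : ℝ, Integrable ((Set.Icc u v).indicator fun _ : ℝ => c) := fun c =>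
    (integrable_indicator_iff measurableSet_Icc).2 (continuous_const.integrableOn_Icc)
  have h2 : Integrable fun s => f s ^ 2 := by
    refine (hI (K ^ 2)).mono' (hf.pow_const 2).aestronglyMeasurable (ae_of_all _ fun s => ?_)
    by_cases hs : s ∈ Set.Icc u v
    · rw [Set.indicator_of_mem hs, Real.norm_of_nonneg (sq_nonneg _), ← sq_abs]
      exact pow_le_pow_left₀ (abs_nonneg _) (hK s) 2
    · rw [Set.indicator_of_notMem hs, h0 s hs]
      simp
  calc ∫ s, |f s| ≤ ∫ s, ((Set.Icc u v).indicator (fun _ : ℝ => ρ / 2) s + f s ^ 2 / (2 * ρ)) := by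
        refine integral_mono_of_nonneg (ae_of_all _ fun s => abs_nonneg _)
          ((hI _).add (h2.div_const _)) (ae_of_all _ fun s => ?_)
        by_cases hs : s ∈ Set.Icc u v
        · simp only [Set.indicator_of_mem hs]
          have e : ρ / 2 + f s ^ 2 / (2 * ρ) - |f s| = (ρ - |f s|) ^ 2 / (2 * ρ) := by
            rw [← sq_abs (f s)]
            field_simp
            ring
          have : 0 ≤ (ρ - |f s|) ^ 2 / (2 * ρ) := by positivity
          linarith
        · simp [Set.indicator_of_notMem hs, h0 s hs]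
    _ = ρ / 2 * (v - u) + (∫ s, f s ^ 2) / (2 * ρ) := by
        rw [integral_add (hI _) (h2.div_const _), integral_indicator measurableSet_Icc,
          setIntegral_const, integral_div, Real.volume_real_Icc_of_le huv, smul_eq_mul, mul_comm]

theorem meas_win (β : ℝ) : Measurable (win β) :=
  Measurable.indicator measurable_one measurableSet_Ico

theorem meas_dv (β l : ℝ) (a : ℕ) : Measurable (dv β l a) := by
  unfold dv psi
  refine Finset.measurable_sum _ fun d _ => ?_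
  exact ((meas_win β).comp (measurable_const.sub measurable_id)).sub
    ((meas_win β).comp ((measurable_const.sub measurable_id).add measurable_const))

theorem abs_win (β x : ℝ) : |win β x| ≤ 1 := by
  unfold win
  by_cases h : x ∈ Set.Ico 0 β
  · simp [Set.indicator_of_mem h]
  · simp [Set.indicator_of_notMem h]

theorem abs_dv (β l : ℝ) (a : ℕ) (s : ℝ) : |dv β l a s| ≤ ∑ _d ∈ a.divisors, (2 : ℝ) := by
  unfold dv
  refine (abs_sum_le_sum_abs _ _).trans (sum_le_sum fun d _ => ?_)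
  unfold psi
  have h1 := abs_win β (Real.log d - s)
  have h2 := abs_win β (Real.log d - s + l)
  have h3 := abs_sub (win β (Real.log d - s)) (win β (Real.log d - s + l))
  linarith

theorem dv_zero {β l : ℝ} (hl : 0 ≤ l) {a : ℕ} (s : ℝ) (hs : s ∉ Set.Icc (-β) (Real.log a + l)) :
    dv β l a s = 0 := by
  unfold dv
  refine sum_eq_zero fun d hd => ?_
  have hd1 : 0 < d := Nat.pos_of_mem_divisors hd
  have hd2 : d ≤ a := Nat.divisor_le hd
  have h1 : 0 ≤ Real.log d := Real.log_natCast_nonneg d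
  have h2 : Real.log d ≤ Real.log a :=
    Real.log_le_log (by exact_mod_cast hd1) (by exact_mod_cast hd2)
  rw [Set.mem_Icc, not_and_or, not_le, not_le] at hs
  unfold psi win
  rw [Set.indicator_of_notMem, Set.indicator_of_notMem, sub_zero]
  · rintro ⟨a1, a2⟩
    rcases hs with hs | hs <;> linarith
  · rintro ⟨a1, a2⟩
    rcases hs with hs | hs <;> linarith

theorem harm (M : ℕ) : ∑ k ∈ Icc 1 M, 1 / (k : ℝ) ≤ 1 + Real.log M := by
  have h := harmonic_le_one_add_log M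
  rw [harmonic_eq_sum_Icc] at h
  push_cast at h
  simpa only [one_div] using h

theorem div_sum (M : ℕ) : ∑ a ∈ Icc 1 M, (#a.divisors : ℝ) / a ≤ (1 + Real.log M) ^ 2 := by
  have h1 : ∀ a ∈ Icc 1 M, (#a.divisors : ℝ) / a =
      ∑ d ∈ Icc 1 M, if d ∣ a then 1 / (a : ℝ) else 0 := by
    intro a ha
    rw [mem_Icc] at ha
    rw [← sum_filter, sum_const, nsmul_eq_mul, mul_one_div]
    congr 2
    congr 1
    ext d
    rw [Nat.mem_divisors, mem_filter, mem_Icc]
    constructor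
    · rintro ⟨h, h'⟩
      exact ⟨⟨Nat.pos_of_dvd_of_pos h ha.1, (Nat.le_of_dvd ha.1 h).trans ha.2⟩, h⟩
    · rintro ⟨-, h⟩
      exact ⟨h, by omega⟩
  rw [sum_congr rfl h1, sum_comm]
  have h2 : ∀ d ∈ Icc 1 M, (∑ a ∈ Icc 1 M, if d ∣ a then 1 / (a : ℝ) else 0) ≤
      1 / (d : ℝ) * ∑ k ∈ Icc 1 M, 1 / (k : ℝ) := by
    intro d hd
    rw [mem_Icc] at hd
    rw [← sum_filter, mul_sum]
    have hs : {a ∈ Icc 1 M | d ∣ a} ⊆ (Icc 1 M).image (d * ·) := by
      intro a ha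
      rw [mem_filter, mem_Icc] at ha
      obtain ⟨⟨a1, a2⟩, k, rfl⟩ := ha
      refine mem_image.2 ⟨k, mem_Icc.2 ⟨Nat.pos_of_mul_pos_left a1, ?_⟩, rfl⟩
      exact (Nat.le_mul_of_pos_left k hd.1).trans a2
    refine (sum_le_sum_of_subset_of_nonneg hs fun _ _ _ => by positivity).trans ?_
    rw [sum_image fun x _ y _ e => Nat.eq_of_mul_eq_mul_left hd.1 e]
    refine le_of_eq (sum_congr rfl fun k _ => ?_)
    push_cast
    rw [one_div_mul_one_div]
  refine (sum_le_sum h2).trans ?_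
  rw [← sum_mul, ← sq]
  exact pow_le_pow_left₀ (sum_nonneg fun _ _ => by positivity) (harm M) 2

theorem log_le {T : ℝ} {a : ℕ} (ha : a ≤ ⌊Real.exp T⌋₊) (hT : 0 ≤ T) : Real.log a ≤ T := by
  rcases Nat.eq_zero_or_pos a with rfl | h
  · simpa using hT
  · rw [Real.log_le_iff_le_exp (by exact_mod_cast h)]
    exact (Nat.le_floor_iff (Real.exp_pos T).le).1 ha

theorem inv_sum {N : ℕ} (hT : 1 ≤ TT N) :
    ∑ a ∈ A0 N, 1 / (a : ℝ) ≤ TT N ^ (-0.4144 : ℝ) * (1 + TT N ^ (0.301 : ℝ)) ^ 2 := by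
  have hT0 : 0 < TT N := by linarith
  have hE : TT N ^ (0.4144 : ℝ) ≤ (2 : ℝ) ^ (0.598 * tt N) := by
    rw [two_rpow_tt hT0]
    refine Real.rpow_le_rpow_of_exponent_le hT ?_
    have := Real.log_two_gt_d9
    linarith
  have hp : 0 < TT N ^ (0.4144 : ℝ) := by positivity
  calc ∑ a ∈ A0 N, 1 / (a : ℝ)
      ≤ ∑ a ∈ A0 N, TT N ^ (-0.4144 : ℝ) * ((#a.divisors : ℝ) / a) := by
        refine sum_le_sum fun a ha => ?_
        have h := hE.trans (mem_filter.1 ha).2
        rw [Real.rpow_neg hT0.le, ← mul_div_assoc]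
        gcongr
        rwa [← div_eq_inv_mul, one_le_div hp]
    _ ≤ TT N ^ (-0.4144 : ℝ) *
          ∑ a ∈ Icc 1 ⌊Real.exp (TT N ^ (0.301 : ℝ))⌋₊, (#a.divisors : ℝ) / a := by
        rw [← mul_sum]
        gcongr
        exact filter_subset _ _
    _ ≤ _ := by
        refine mul_le_mul_of_nonneg_left ((div_sum _).trans ?_) (by positivity)
        have h1 := log_le (T := TT N ^ (0.301 : ℝ)) le_rfl (by positivity)
        have h2 := Real.log_natCast_nonneg ⌊Real.exp (TT N ^ (0.301 : ℝ))⌋₊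
        gcongr

theorem inv_le {T : ℝ} (hT : 0 < T) {a : ℕ} (h1 : 1 ≤ a) (ha : Real.log a ≤ T) :
    1 / (a : ℝ) ≤ Real.exp 1 * (a : ℝ) ^ (-(1 + T⁻¹)) := by
  have ha0 : (0 : ℝ) < a := by exact_mod_cast h1
  rw [Real.rpow_def_of_pos ha0, ← Real.exp_add, one_div, ← Real.exp_log ha0, ← Real.exp_neg,
    Real.log_exp, Real.exp_le_exp]
  have : Real.log a * T⁻¹ ≤ 1 := by rwa [← div_eq_mul_inv, div_le_one hT]
  linarith

end A0

theorem a0 (h1 : L2Stmt) : A0Stmt := by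
  intro β l hβ hl
  obtain ⟨C, hC, hL⟩ := h1 β l hβ hl
  filter_upwards [tendsto_TT.eventually_ge_atTop 1,
    ev_TT_rpow (2 * (1 + l + β) + Real.exp 1 * C / 2) (a := 0.5453) (b := 0.546) (by norm_num)]
    with N hT hN
  have hT0 : 0 < TT N := by linarith
  set T := TT N with hTdef
  have hU : 1 ≤ T ^ (0.301 : ℝ) := Real.one_le_rpow hT (by norm_num)
  set U := T ^ (0.301 : ℝ) with hUdef
  have hU0 : 0 < U := by linarith
  have hρ : 0 < T ^ (0.0567 : ℝ) := by positivity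
  set ρ := T ^ (0.0567 : ℝ) with hρdef
  have hS := hL U⁻¹ (by positivity) (inv_le_one_of_one_le₀ hU) (A0 N)
  have hI := A0.inv_sum hT
  rw [← hTdef, ← hUdef] at hI
  have key : ∀ a ∈ A0 N, (∫ s, |dv β l a s|) / a ≤
      ρ / 2 * (U + l + β) * (1 / (a : ℝ)) +
        Real.exp 1 / (2 * ρ) * ((a : ℝ) ^ (-(1 + U⁻¹)) * ∫ s, dv β l a s ^ 2) := by
    intro a ha
    obtain ⟨a1, a2⟩ := mem_Icc.1 (mem_filter.1 ha).1
    have b1 : Real.log a ≤ U := A0.log_le a2 hU0.le
    have b0 := Real.log_natCast_nonneg a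
    have b2 := A0.int_abs_le (A0.meas_dv β l a) (u := -β) (v := Real.log a + l) (by linarith) hρ
      (A0.abs_dv β l a) (A0.dv_zero hl)
    have b3 := A0.inv_le hU0 a1 b1
    have b4 : 0 ≤ ∫ s, dv β l a s ^ 2 := integral_nonneg fun s => sq_nonneg _
    have b5 : (0 : ℝ) ≤ 1 / a := by positivity
    calc (∫ s, |dv β l a s|) / a = (∫ s, |dv β l a s|) * (1 / a) := by rw [mul_one_div]
      _ ≤ (ρ / 2 * (U + l + β) + (∫ s, dv β l a s ^ 2) / (2 * ρ)) * (1 / a) := by
          refine mul_le_mul_of_nonneg_right (b2.trans ?_) b5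
          gcongr
          linarith
      _ = ρ / 2 * (U + l + β) * (1 / (a : ℝ)) +
            (∫ s, dv β l a s ^ 2) / (2 * ρ) * (1 / a) := by ring
      _ ≤ ρ / 2 * (U + l + β) * (1 / (a : ℝ)) +
            (∫ s, dv β l a s ^ 2) / (2 * ρ) * (Real.exp 1 * (a : ℝ) ^ (-(1 + U⁻¹))) := by
          gcongr
      _ = _ := by ring
  have e1 : ρ * U * T ^ (-0.4144 : ℝ) * U ^ 2 = T ^ (0.5453 : ℝ) := by
    rw [hρdef, hUdef, ← Real.rpow_natCast, ← Real.rpow_mul hT0.le, ← Real.rpow_add hT0,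
      ← Real.rpow_add hT0, ← Real.rpow_add hT0]
    norm_num
  have e2 : U ^ 2 / ρ = T ^ (0.5453 : ℝ) := by
    rw [hρdef, hUdef, ← Real.rpow_natCast, ← Real.rpow_mul hT0.le, ← Real.rpow_sub hT0]
    norm_num
  have hV : 0 < T ^ (-0.4144 : ℝ) := by positivity
  calc ∑ a ∈ A0 N, (∫ s, |dv β l a s|) / a
      ≤ ρ / 2 * (U + l + β) * (∑ a ∈ A0 N, 1 / (a : ℝ)) +
        Real.exp 1 / (2 * ρ) * ∑ a ∈ A0 N, (a : ℝ) ^ (-(1 + U⁻¹)) * ∫ s, dv β l a s ^ 2 := by
        rw [mul_sum, mul_sum, ← sum_add_distrib]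
        exact sum_le_sum key
    _ ≤ ρ / 2 * ((1 + l + β) * U) * (T ^ (-0.4144 : ℝ) * (2 * U) ^ 2) +
        Real.exp 1 / (2 * ρ) * (C / U⁻¹ ^ 2) := by
        have c1 : U + l + β ≤ (1 + l + β) * U := by nlinarith
        have c2 : T ^ (-0.4144 : ℝ) * (1 + U) ^ 2 ≤ T ^ (-0.4144 : ℝ) * (2 * U) ^ 2 := by
          gcongr
          linarith
        have c3 : 0 ≤ ∑ a ∈ A0 N, 1 / (a : ℝ) := sum_nonneg fun _ _ => by positivity
        gcongr
        exact hI.trans c2
    _ = 2 * (1 + l + β) * (ρ * U * T ^ (-0.4144 : ℝ) * U ^ 2) +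
        Real.exp 1 * C / 2 * (U ^ 2 / ρ) := by
        field_simp
    _ ≤ _ := by
        rw [e1, e2, ← add_mul]
        exact hN

end Pool.Agent.Lib.MP_30b5ba_nt.P
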