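import Pool.Agent.Lib.MP_30b5ba_nt.P.Param

/-! The sum over the middle parts. -/

namespace Pool.Agent.Lib.MP_30b5ba_nt.P

open Finset Filter Topology MeasureTheory
open scoped Classical

namespace A1

/-- the most frequent subset sum. -/
theorem exists_max (k : ℕ → ℤ) (S : Finset ℕ) : ∃ j : ℤ, ∀ i : ℤ,
    #{D ∈ S.powerset | ∑ p ∈ D, k p = i} ≤ #{D ∈ S.powerset | ∑ p ∈ D, k p = j} := by
  obtain ⟨j, -, hj⟩ := exists_max_image (S.powerset.image fun D => ∑ p ∈ D, k p)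
    (fun i => #{D ∈ S.powerset | ∑ p ∈ D, k p = i})
    ⟨_, mem_image_of_mem _ (empty_mem_powerset S)⟩
  refine ⟨j, fun i => ?_⟩
  by_cases hi : i ∈ S.powerset.image fun D => ∑ p ∈ D, k p
  · exact hj i hi
  · rw [filter_eq_empty_iff.2 fun D hD h => hi (mem_image.2 ⟨D, hD, h⟩)]
    exact Nat.zero_le _

theorem count_le {S : Finset ℕ} (hS : ∀ p ∈ S, p.Prime) {n : ℕ}
    (hn : ∀ i : ℤ, #{D ∈ S.powerset | ∑ p ∈ D, ⌊Real.log ((p : ℕ) : ℝ)⌋ = i} ≤ n) (s : ℝ) :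
    #{d ∈ (∏ p ∈ S, p).divisors | Real.log ((d : ℕ) : ℝ) ∈ Set.Icc s (s + 1)} ≤ n * (#S + 2) := by
  have h1 : #{d ∈ (∏ p ∈ S, p).divisors | Real.log ((d : ℕ) : ℝ) ∈ Set.Icc s (s + 1)} ≤
      #{D ∈ S.powerset | ∑ p ∈ D, Real.log ((p : ℕ) : ℝ) ∈ Set.Icc s (s + 1)} := by
    refine card_le_card_of_surjOn (fun D => ∏ p ∈ D, p) fun d hd => ?_
    obtain ⟨hd, hl⟩ := mem_filter.1 (mem_coe.1 hd)
    have hd' := Nat.dvd_of_mem_divisors hd
    have hsq : Squarefree (∏ p ∈ S, p) := Finset.squarefree_prod_of_pairwise_isCoprime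
      (fun p hp q hq hpq => Nat.coprime_iff_isRelPrime.1
        ((Nat.coprime_primes (hS p hp) (hS q hq)).2 hpq))
      fun p hp => (hS p hp).squarefree
    have e := Nat.prod_primeFactors_of_squarefree (hsq.squarefree_of_dvd hd')
    have hsub : d.primeFactors ⊆ S := by
      have := Nat.primeFactors_mono hd' hsq.ne_zero
      rwa [Nat.primeFactors_prod hS] at this
    refine ⟨d.primeFactors, mem_coe.2 (mem_filter.2 ⟨mem_powerset.2 hsub, ?_⟩), e⟩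
    rw [← Real.log_prod fun p hp => Nat.cast_ne_zero.2 (hS p (hsub hp)).ne_zero, ← Nat.cast_prod, e]
    exact hl
  refine h1.trans ?_
  have h2 : #(Icc (⌈s⌉ - #S) (⌈s⌉ + 1)) = #S + 2 := by
    rw [Int.card_Icc]; omega
  rw [← h2]
  refine card_le_mul_card_image_of_maps_to (f := fun D => ∑ p ∈ D, ⌊Real.log ((p : ℕ) : ℝ)⌋)
    (fun D hD => ?_) n fun i _ => le_trans (card_le_card ?_) (hn i)
  · obtain ⟨hD, l1, l2⟩ := mem_filter.1 hD
    have a1 : ((∑ p ∈ D, ⌊Real.log ((p : ℕ) : ℝ)⌋ : ℤ) : ℝ) ≤ ∑ p ∈ D, Real.log ((p : ℕ) : ℝ) := by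
      push_cast
      exact sum_le_sum fun p _ => Int.floor_le _
    have a2 : ∑ p ∈ D, Real.log ((p : ℕ) : ℝ) ≤
        ((∑ p ∈ D, ⌊Real.log ((p : ℕ) : ℝ)⌋ : ℤ) : ℝ) + #D := by
      push_cast
      rw [card_eq_sum_ones, Nat.cast_sum, ← sum_add_distrib]
      exact sum_le_sum fun p _ => by simpa using (Int.lt_floor_add_one _).le
    have a3 : (#D : ℝ) ≤ #S := Nat.cast_le.2 (card_le_card (mem_powerset.1 hD))
    refine mem_Icc.2 ⟨sub_le_iff_le_add.2 (Int.ceil_le.2 ?_), ?_⟩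
    · push_cast at a2 ⊢
      linarith
    · have := Int.le_ceil s
      exact_mod_cast (by linarith :
        ((∑ p ∈ D, ⌊Real.log ((p : ℕ) : ℝ)⌋ : ℤ) : ℝ) ≤ (⌈s⌉ : ℝ) + 1)
  · exact filter_subset_filter _ (filter_subset _ _)

theorem thin_mono {S S' : Finset ℕ} (h : Thin S) (hs : S' ⊆ S) : Thin S' := fun r hr =>
  le_trans (pow_le_pow_right₀ one_le_two (card_le_card (filter_subset_filter _ hs))) (h r (hs hr))

theorem thin_max {S : Finset ℕ} (h : Thin S) (hS : S.Nonempty) :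
    (2 : ℝ) ^ #S ≤ Real.log (S.max' hS : ℕ) := by
  have := h _ (S.max'_mem hS)
  rwa [filter_true_of_mem fun p hp => S.le_max' p hp] at this

theorem le_add_pow {c L : ℝ} (hc : 0 ≤ c) (hL : 0 < L) (q : ℕ) :
    c ≤ L + c ^ (q + 1) / L ^ q := by
  rcases le_total c L with h | h
  · exact h.trans (le_add_of_nonneg_right (by positivity))
  · refine le_trans ?_ (le_add_of_nonneg_left hL.le)
    rw [le_div_iff₀ (by positivity), pow_succ' c q]
    gcongr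

end A1

open A1

theorem a1 (h1 : MertensStmt) (h2 : DeltaStmt) : A1Stmt := by
  obtain ⟨C, C0, hM, -, -, hL⟩ := h1
  have l2 : 0 < Real.log 2 := Real.log_pos one_lt_two
  obtain ⟨Θ, hΘ⟩ : ∃ Θ, Θ = C / Real.log 2 + C := ⟨_, rfl⟩
  have Θ0 : 0 ≤ Θ := by rw [hΘ]; positivity
  obtain ⟨q, hq⟩ : ∃ q : ℕ, q = 200 := ⟨_, rfl⟩
  filter_upwards [ordered, tendsto_TT.eventually_ge_atTop 1,
    ev_tt_pow (4 * Real.exp (2 * C)) 1 (δ := 0.001) (by norm_num),
    ev_tt_pow (4 * Real.exp (2 * C) * ((3 + 2 * C) * (1 + 2 ^ (q + 1 + 1) * Θ)) ^ (q + 1))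
      (q + 1 + 1) (δ := 0.037) (by norm_num)] with N ⟨o1, o2, o3⟩ T1 e1 e2
  choose j hj using exists_max fun p => ⌊Real.log ((p : ℕ) : ℝ)⌋
  have T0 : 0 < TT N := one_pos.trans_le T1
  have t0 : 0 ≤ tt N := Real.log_nonneg T1
  obtain ⟨P, hP⟩ : ∃ P, P = pr (y0 N) (yy N) := ⟨_, rfl⟩
  have hA : ∀ S ∈ A1 N, S ⊆ P ∧ 1.398 * tt N ≤ #S ∧ Thin S := fun S hS => by
    simpa only [A1, mem_filter, mem_powerset, ← hP] using hS
  have Pp : ∀ p ∈ P, p.Prime ∧ (p : ℝ) ≤ yy N := fun p hp => by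
    rw [hP, mem_pr] at hp
    exact ⟨hp.1, hp.2.2⟩
  obtain ⟨c, hc⟩ : ∃ c : Finset ℕ → ℕ,
      ∀ S, c S = #{D ∈ S.powerset | ∑ p ∈ D, ⌊Real.log ((p : ℕ) : ℝ)⌋ = j S} := ⟨_, fun _ => rfl⟩
  refine ⟨fun S => c S * (#S + 2), fun S hS s => ?_, ?_⟩
  · beta_reduce
    exact_mod_cast count_le (fun p hp => (Pp p ((hA S hS).1 hp)).1) (fun i => hc S ▸ hj S i) s
  have hH : ∑ p ∈ P, 1 / (p : ℝ) ≤ C + 0.7 * tt N := by
    have := (abs_le.1 (hM _ _ (o1.trans o2) o3)).2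
    rw [← hP, y0, yy, Real.log_exp, Real.log_exp, Real.log_div T0.ne' (by positivity),
      Real.log_rpow T0] at this
    rw [tt]
    linarith only [this]
  have H0 : 0 ≤ ∑ p ∈ P, 1 / (p : ℝ) := by positivity
  have hPi : ∏ p ∈ P, (1 + 2 * (1 / (p : ℝ))) ≤ Real.exp (2 * C) * TT N ^ (1.4 : ℝ) := by
    rw [← exp_mul_tt T0, ← Real.exp_add]
    refine (Real.prod_one_add_le_exp_sum _ fun p => by positivity).trans (Real.exp_le_exp.2 ?_)
    rw [← mul_sum]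
    linarith only [hH]
  have hD := h2 P (fun p => ⌊Real.log ((p : ℕ) : ℝ)⌋) (fun p => 1 / (p : ℝ)) Thin Θ (q + 1) j
    (fun p => by positivity) Θ0 q.succ_pos (fun _ _ => thin_mono) fun S hS hT i => by
      rcases S.eq_empty_or_nonempty with rfl | hne
      · rw [card_empty, pow_zero, one_mul, hΘ]
        refine (hL _ 2 i le_rfl fun p hp => ?_).trans (le_add_of_nonneg_right C0.le)
        obtain ⟨hp, -, hi⟩ := mem_filter.1 hp
        exact ⟨(Pp p hp).1, by exact_mod_cast (Pp p hp).1.two_le, hi⟩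
      · have r2 : (2 : ℝ) ≤ (S.max' hne : ℕ) := by
          exact_mod_cast (Pp _ (hS (S.max'_mem hne))).1.two_le
        have lr : 0 < Real.log (S.max' hne : ℕ) := Real.log_pos (one_lt_two.trans_le r2)
        have := hL {p ∈ P | (∀ r ∈ S, r < p) ∧ ⌊Real.log ((p : ℕ) : ℝ)⌋ = i} _ i r2 fun p hp => by
          obtain ⟨hp, hr, hi⟩ := mem_filter.1 hp
          exact ⟨(Pp p hp).1, Nat.cast_le.2 (hr _ (S.max'_mem hne)).le, hi⟩
        refine (mul_le_mul (thin_max hT hne) this (by positivity) lr.le).trans ?_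
        rw [mul_div_cancel₀ _ lr.ne', hΘ]
        exact le_add_of_nonneg_left (by positivity)
  simp only [← hc] at hD
  have s1 : ∑ S ∈ A1 N, ∏ p ∈ S, 1 / (p : ℝ) ≤
      TT N ^ (-0.969 : ℝ) * ∏ p ∈ P, (1 + 2 * (1 / (p : ℝ))) := by
    rw [prod_one_add, mul_sum]
    refine le_trans (sum_le_sum fun S hS => ?_) (sum_le_sum_of_subset_of_nonneg
      (fun S hS => mem_powerset.2 (hA S hS).1) fun _ _ _ => by positivity)
    rw [prod_mul_distrib, prod_const, ← mul_assoc]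
    refine le_mul_of_one_le_left (by positivity) ?_
    calc (1 : ℝ) ≤ TT N ^ (-0.969 + 1.398 * Real.log 2) :=
          Real.one_le_rpow T1 (by linarith only [Real.log_two_gt_d9])
      _ = TT N ^ (-0.969 : ℝ) * (2 : ℝ) ^ (1.398 * tt N) := by
          rw [Real.rpow_add T0, two_rpow_tt T0]
      _ ≤ _ := by
          rw [← Real.rpow_natCast]
          exact mul_le_mul_of_nonneg_left
            (Real.rpow_le_rpow_of_exponent_le one_le_two (hA S hS).2.1) (by positivity)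
  have s2 : ∑ S ∈ A1 N, (∏ p ∈ S, 1 / (p : ℝ)) * (c S : ℝ) ^ (q + 1) ≤
      ((3 + 2 * C) * (1 + 2 ^ (q + 1 + 1) * Θ)) ^ (q + 1) * (1 + tt N) ^ (q + 1) *
        ∏ p ∈ P, (1 + 2 * (1 / (p : ℝ))) := by
    refine le_trans (sum_le_sum_of_subset_of_nonneg (fun S hS => mem_filter.2
      ⟨mem_powerset.2 (hA S hS).1, (hA S hS).2.2⟩) fun _ _ _ => by positivity) (hD.trans ?_)
    rw [← mul_pow, mul_right_comm (3 + 2 * C)]
    refine mul_le_mul_of_nonneg_right (pow_le_pow_left₀ (by positivity)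
      (mul_le_mul_of_nonneg_right ?_ (by positivity)) _) (by positivity)
    linarith only [hH, t0, mul_nonneg C0.le t0]
  have L0 : 0 < TT N ^ (0.005 : ℝ) := by positivity
  have L1 : (TT N ^ (0.005 : ℝ)) ^ q = TT N := by
    rw [← Real.rpow_natCast, ← Real.rpow_mul T0.le, hq]; norm_num
  have s3 : ∑ S ∈ A1 N, (c S : ℝ) * (#S + 2) / ∏ p ∈ S, (p : ℝ) ≤ 2 * (1 + tt N) *
      (TT N ^ (0.005 : ℝ) * ∑ S ∈ A1 N, ∏ p ∈ S, 1 / (p : ℝ) +
        (TT N)⁻¹ * ∑ S ∈ A1 N, (∏ p ∈ S, 1 / (p : ℝ)) * (c S : ℝ) ^ (q + 1)) := by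
    rw [mul_sum, mul_sum, ← sum_add_distrib, mul_sum]
    refine sum_le_sum fun S hS => ?_
    have n1 : (#S : ℝ) ≤ 2 * tt N := by
      rcases S.eq_empty_or_nonempty with rfl | hne
      · simpa using t0
      have hp := Pp _ ((hA S hS).1 (S.max'_mem hne))
      have a1 := (thin_max (hA S hS).2.2 hne).trans
        (Real.log_le_log (Nat.cast_pos.2 hp.1.pos) hp.2)
      rw [yy, Real.log_exp] at a1
      have a2 := Real.log_le_log (by positivity) a1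
      rw [Real.log_pow] at a2
      rw [tt]
      linarith only [a2, mul_le_mul_of_nonneg_left Real.log_two_gt_d9.le
        (Nat.cast_nonneg #S : (0 : ℝ) ≤ _), (Nat.cast_nonneg #S : (0 : ℝ) ≤ _)]
    have n2 := le_add_pow (Nat.cast_nonneg (c S)) L0 q
    rw [L1] at n2
    rw [div_eq_mul_one_div, show 1 / ∏ p ∈ S, (p : ℝ) = ∏ p ∈ S, 1 / (p : ℝ) by simp]
    have g0 : 0 ≤ ∏ p ∈ S, 1 / (p : ℝ) := by positivity
    calc _ ≤ (TT N ^ (0.005 : ℝ) + (c S : ℝ) ^ (q + 1) / TT N) * (2 * (1 + tt N)) *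
          ∏ p ∈ S, 1 / (p : ℝ) := by
          exact mul_le_mul_of_nonneg_right
            (mul_le_mul n2 (by linarith only [n1]) (by positivity) (by positivity)) g0
      _ = _ := by ring
  have f1 : TT N ^ (0.437 : ℝ) =
      TT N ^ (0.001 : ℝ) * (TT N ^ (0.005 : ℝ) * (TT N ^ (-0.969 : ℝ) * TT N ^ (1.4 : ℝ))) := by
    simp only [← Real.rpow_add T0]; norm_num
  have f2 : TT N ^ (0.437 : ℝ) = TT N ^ (0.037 : ℝ) * ((TT N)⁻¹ * TT N ^ (1.4 : ℝ)) := by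
    simp only [← Real.rpow_neg_one, ← Real.rpow_add T0]; norm_num
  have g1 := mul_le_mul_of_nonneg_right e1
    (by positivity : 0 ≤ TT N ^ (0.005 : ℝ) * (TT N ^ (-0.969 : ℝ) * TT N ^ (1.4 : ℝ)))
  have g2 := mul_le_mul_of_nonneg_right e2 (by positivity : 0 ≤ (TT N)⁻¹ * TT N ^ (1.4 : ℝ))
  rw [← f1] at g1
  rw [← f2, pow_succ' (1 + tt N) (q + 1)] at g2
  replace s1 := s1.trans (mul_le_mul_of_nonneg_left hPi (by positivity))
  replace s2 := s2.trans (mul_le_mul_of_nonneg_left hPi (by positivity))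
  refine s3.trans (le_trans (mul_le_mul_of_nonneg_left (add_le_add
    (mul_le_mul_of_nonneg_left s1 L0.le) (mul_le_mul_of_nonneg_left s2 (by positivity)))
    (by positivity)) ?_)
  generalize ((3 + 2 * C) * (1 + 2 ^ (q + 1 + 1) * Θ)) ^ (q + 1) = M,
    (1 + tt N) ^ (q + 1) = U at g2 ⊢
  linarith only [g1, g2]

end Pool.Agent.Lib.MP_30b5ba_nt.P
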