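import Pool.Agent.Lib.MP_30b5ba_nt.P.Param

/-!
The count in a balanced box, from the comparison of two windows and the count in an unbalanced box.
-/

namespace Pool.Agent.Lib.MP_30b5ba_nt.P

open Finset Filter Topology MeasureTheory
open scoped Classical

namespace Box

theorem meas_win (β : ℝ) : Measurable (win β) :=
  measurable_one.indicator measurableSet_Ico

theorem abs_win_le (β x : ℝ) : |win β x| ≤ 1 := by
  unfold win
  by_cases h : x ∈ Set.Ico 0 β
  · simp [h]
  · simp [h]

theorem ii_win (β c η : ℝ) : IntervalIntegrable (fun s => win β (c - s)) volume 0 η := by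
  rw [intervalIntegrable_iff]
  refine Measure.integrableOn_of_bounded (M := 1) (by simp [Set.uIoc]) ?_ ?_
  · exact ((meas_win β).comp (measurable_const.sub measurable_id)).aestronglyMeasurable
  · exact Eventually.of_forall fun s => by simpa using abs_win_le β (c - s)

theorem ii_psi (β l c η : ℝ) : IntervalIntegrable (fun s => psi β l (c - s)) volume 0 η := by
  have h := (ii_win β c η).sub (ii_win β (c + l) η)
  refine h.congr_ae (Eventually.of_forall fun s => ?_)
  simp only [psi]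
  congr 2
  ring

theorem win_eq {A B X u : ℝ} (hA : 0 < A) (hB : 0 < B) (hX : 0 < X) (hu : 0 < u) (x : ℝ)
    (hx : x = Real.log u - Real.log (A * X)) :
    win (Real.log (B / A)) x = if A * X ≤ u ∧ u < B * X then 1 else 0 := by
  have hAX : 0 < A * X := by positivity
  have hBX : 0 < B * X := by positivity
  have e1 : 0 ≤ x ↔ A * X ≤ u := by
    rw [hx, sub_nonneg, Real.log_le_log_iff hAX hu]
  have e2 : x < Real.log (B / A) ↔ u < B * X := by
    rw [← Real.log_lt_log_iff hu hBX, hx, Real.log_div hB.ne' hA.ne', Real.log_mul hA.ne' hX.ne',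
      Real.log_mul hB.ne' hX.ne']
    constructor <;> intro h <;> linarith
  unfold win
  by_cases h : A * X ≤ u ∧ u < B * X
  · rw [if_pos h, Set.indicator_of_mem (Set.mem_Ico.2 ⟨e1.2 h.1, e2.2 h.2⟩)]
    rfl
  · rw [if_neg h, Set.indicator_of_notMem]
    intro h'
    exact h ⟨e1.1 h'.1, e2.1 h'.2⟩

theorem box_eq (α a b : ℝ) (N : ℕ) (A B μ : ℝ) :
    (box α a b N A B μ : ℝ) =
      ∑ p ∈ hyp (μ * N ^ 2) with Arc (a / N) (b / N) (α * ((p.1 * p.2 : ℕ) : ℝ)),
        (if A * N ≤ p.1 ∧ (p.1 : ℝ) < B * N then (1 : ℝ) else 0) := by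
  rw [Finset.sum_boole, Finset.filter_filter, box]
  congr 2
  ext p
  simp only [mem_filter]
  tauto

theorem box_mono (α a b : ℝ) (N : ℕ) {A B A' B' : ℝ} (μ : ℝ) (hA : A' ≤ A) (hB : B ≤ B') :
    (box α a b N A B μ : ℝ) ≤ box α a b N A' B' μ := by
  have hN : (0 : ℝ) ≤ N := Nat.cast_nonneg N
  unfold box
  refine Nat.cast_le.2 (card_le_card fun p hp => ?_)
  rw [mem_filter] at hp ⊢
  exact ⟨hp.1, le_trans (mul_le_mul_of_nonneg_right hA hN) hp.2.1,
    lt_of_lt_of_le hp.2.2.1 (mul_le_mul_of_nonneg_right hB hN), hp.2.2.2⟩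

theorem sum_psi (α a b : ℝ) {N : ℕ} (hN : 1 ≤ N) {A B L : ℝ} (μ s : ℝ) (hA : 0 < A) (hB : 0 < B)
    (hL : 0 < L) :
    ∑ p ∈ hyp (μ * N ^ 2) with Arc (a / N) (b / N) (α * ((p.1 * p.2 : ℕ) : ℝ)),
        psi (Real.log (B / A)) (Real.log L) (Real.log p.1 - Real.log (A * N) - s) =
      (box α a b N (A * Real.exp s) (B * Real.exp s) μ : ℝ) -
        box α a b N (A * Real.exp s / L) (B * Real.exp s / L) μ := by
  have hN' : (0 : ℝ) < N := by exact_mod_cast hN
  have hs := Real.exp_pos s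
  rw [box_eq, box_eq, ← Finset.sum_sub_distrib]
  refine Finset.sum_congr rfl fun p hp => ?_
  have hu : (0 : ℝ) < p.1 := by exact_mod_cast (mem_hyp.1 (mem_filter.1 hp).1).1
  unfold psi
  rw [win_eq hA hB (X := Real.exp s * N) (by positivity) hu,
    win_eq hA hB (X := Real.exp s / L * N) (by positivity) hu]
  · simp only [mul_assoc, mul_div_assoc]
  · rw [Real.log_mul hA.ne' hN'.ne', Real.log_mul hA.ne' (by positivity),
      Real.log_mul (by positivity) hN'.ne', Real.log_div hs.ne' hL.ne', Real.log_exp]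
    ring
  · rw [Real.log_mul hA.ne' hN'.ne', Real.log_mul hA.ne' (by positivity),
      Real.log_mul (by positivity) hN'.ne', Real.log_exp]
    ring

theorem two_sided (h1 : CmpStmt) (h2 : ShiftStmt) {c α : ℝ} (hc : 0 < c) (hα : Bad c α)
    {a b A B μ η ε : ℝ} (ha : 0 ≤ a) (hab : a ≤ b) (hb : b ≤ 1) (hA : 0 < A) (hAB : A < B)
    (hμ : 0 < μ) (hη : 0 < η) (hη1 : η ≤ 1) (hε : 0 < ε) :
    ∀ᶠ N : ℕ in atTop, ∀ x : ℝ,
      ((∀ s ∈ Set.Icc (0 : ℝ) η, x ≤ box α a b N (A * Real.exp s) (B * Real.exp s) μ) →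
        x ≤ (Real.log (B / A) * μ * (b - a) + 2 * ε) * N) ∧
      ((∀ s ∈ Set.Icc (0 : ℝ) η, (box α a b N (A * Real.exp s) (B * Real.exp s) μ : ℝ) ≤ x) →
        (Real.log (B / A) * μ * (b - a) - 2 * ε) * N ≤ x) := by
  have hB : 0 < B := hA.trans hAB
  obtain ⟨L, hL, hsh⟩ := h2 c α hc hα a b A B μ ε ha hab hb hA hAB hμ hε
  have hβ : 0 < Real.log (B / A) := Real.log_pos ((one_lt_div hA).2 hAB)
  have hcmp := h1 c α hc hα a b A (Real.log (B / A)) (Real.log L) η μ (η * ε) ha hb hA hβ
    (Real.log_nonneg hL) hη.le hη1 hμ (by positivity)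
  filter_upwards [hsh, hcmp, eventually_ge_atTop 1] with N hsh hcmp hN x
  set T := {p ∈ hyp (μ * N ^ 2) | Arc (a / N) (b / N) (α * ((p.1 * p.2 : ℕ) : ℝ))} with hT
  set F : ℝ → ℝ := fun s => ∑ p ∈ T,
    psi (Real.log (B / A)) (Real.log L) (Real.log p.1 - Real.log (A * N) - s) with hF
  have hFi : IntervalIntegrable F volume 0 η := by
    have := IntervalIntegrable.sum (μ := volume) (a := 0) (b := η) T
      (f := fun p s => psi (Real.log (B / A)) (Real.log L)
        (Real.log p.1 - Real.log (A * N) - s)) fun p _ => ii_psi _ _ _ _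
    have e : F = ∑ p ∈ T, fun s => psi (Real.log (B / A)) (Real.log L)
        (Real.log p.1 - Real.log (A * N) - s) := by
      funext s
      simp [hF]
    rw [e]
    exact this
  have hint : ∫ s in (0 : ℝ)..η, F s =
      ∑ p ∈ T, phi (Real.log (B / A)) (Real.log L) η (Real.log (A * N)) p.1 := by
    rw [hF, intervalIntegral.integral_finsetSum fun p _ => ii_psi _ _ _ _]
    rfl
  rw [← hint, abs_le] at hcmp
  have hFs : ∀ s, F s = (box α a b N (A * Real.exp s) (B * Real.exp s) μ : ℝ) -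
      box α a b N (A * Real.exp s / L) (B * Real.exp s / L) μ := fun s =>
    sum_psi α a b hN μ s hA hB (by linarith)
  constructor
  · intro hx
    have hle : ∫ _s in (0 : ℝ)..η, (x - (Real.log (B / A) * μ * (b - a) + ε) * N) ≤
        ∫ s in (0 : ℝ)..η, F s := by
      refine intervalIntegral.integral_mono_on hη.le intervalIntegrable_const hFi fun s hs => ?_
      have := (abs_le.1 (hsh s ⟨hs.1, hs.2.trans hη1⟩)).2
      rw [hFs]
      linarith [hx s hs]
    rw [intervalIntegral.integral_const, sub_zero, smul_eq_mul] at hle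
    have h3 : η * (x - (Real.log (B / A) * μ * (b - a) + ε) * N) ≤ η * (ε * N) := by
      linarith [hcmp.2]
    have h4 := le_of_mul_le_mul_left h3 hη
    linarith
  · intro hx
    have hle : ∫ s in (0 : ℝ)..η, F s ≤
        ∫ _s in (0 : ℝ)..η, (x - (Real.log (B / A) * μ * (b - a) - ε) * N) := by
      refine intervalIntegral.integral_mono_on hη.le hFi intervalIntegrable_const fun s hs => ?_
      have := (abs_le.1 (hsh s ⟨hs.1, hs.2.trans hη1⟩)).1
      rw [hFs]
      linarith [hx s hs]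
    rw [intervalIntegral.integral_const, sub_zero, smul_eq_mul] at hle
    have h3 : η * (-(ε * N)) ≤ η * (x - (Real.log (B / A) * μ * (b - a) - ε) * N) := by
      linarith [hcmp.1]
    have h4 := le_of_mul_le_mul_left h3 hη
    linarith

theorem box_zero (α a b : ℝ) (N : ℕ) (A B : ℝ) : box α a b N A B 0 = 0 := by
  unfold box
  rw [card_eq_zero, filter_eq_empty_iff]
  intro p hp
  obtain ⟨h1, h2, h3⟩ := mem_hyp.1 hp
  have : (1 : ℝ) ≤ ((p.1 * p.2 : ℕ) : ℝ) := by exact_mod_cast Nat.mul_pos h1 h2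
  linarith

end Box

/-- the count in a balanced box. -/
theorem boxlim (h1 : CmpStmt) (h2 : ShiftStmt) : BoxStmt := by
  intro c α hc hα a b A B μ ha hab hb hA hAB hμ
  rcases hμ.eq_or_lt with rfl | hμ
  · simp [Box.box_zero]
  have hB : 0 < B := hA.trans hAB
  have hβ : 0 < Real.log (B / A) := Real.log_pos ((one_lt_div hA).2 hAB)
  rw [Metric.tendsto_nhds]
  intro ε hε
  obtain ⟨η, hη, hη1, hηβ, hηε⟩ :
      ∃ η : ℝ, 0 < η ∧ η ≤ 1 ∧ η < Real.log (B / A) ∧ η * μ ≤ ε / 4 := by
    refine ⟨min 1 (min (Real.log (B / A) / 2) (ε / 4 / μ)), by positivity, min_le_left _ _,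
      lt_of_le_of_lt ((min_le_right _ _).trans (min_le_left _ _)) (by linarith), ?_⟩
    exact (le_div_iff₀ hμ).1 ((min_le_right _ _).trans (min_le_right _ _))
  have hE := Real.exp_pos (-η)
  have hE1 : Real.exp (-η) ≤ 1 := Real.exp_le_one_iff.2 (by linarith)
  have hup := Box.two_sided h1 h2 hc hα (A := A * Real.exp (-η)) (B := B) (ε := ε / 8) ha hab hb
    (by positivity) (by nlinarith) hμ hη hη1 (by positivity)
  have hAB' : A < B * Real.exp (-η) := by
    have h := Real.exp_lt_exp.2 hηβ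
    rw [Real.exp_log (by positivity), lt_div_iff₀ hA] at h
    rw [Real.exp_neg, ← div_eq_mul_inv, lt_div_iff₀ (Real.exp_pos η)]
    linarith
  have hlo := Box.two_sided h1 h2 hc hα (A := A) (B := B * Real.exp (-η)) (ε := ε / 8) ha hab hb
    hA hAB' hμ hη hη1 (by positivity)
  have e1 : Real.log (B / (A * Real.exp (-η))) = Real.log (B / A) + η := by
    rw [Real.log_div hB.ne' (by positivity), Real.log_mul hA.ne' hE.ne', Real.log_exp,
      Real.log_div hB.ne' hA.ne']
    ring
  have e2 : Real.log (B * Real.exp (-η) / A) = Real.log (B / A) - η := by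
    rw [Real.log_div (by positivity) hA.ne', Real.log_mul hB.ne' hE.ne', Real.log_exp,
      Real.log_div hB.ne' hA.ne']
    ring
  filter_upwards [hup, hlo, eventually_ge_atTop 1] with N hup hlo hN
  have hN' : (0 : ℝ) < N := by exact_mod_cast hN
  have key : ∀ s ∈ Set.Icc (0 : ℝ) η, Real.exp (-η) * Real.exp s ≤ 1 ∧ 1 ≤ Real.exp s :=
    fun s hs => ⟨by rw [← Real.exp_add]; exact Real.exp_le_one_iff.2 (by linarith [hs.2]),
      Real.one_le_exp hs.1⟩
  have u1 := (hup (box α a b N A B μ)).1 fun s hs => Box.box_mono α a b N μ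
    (by rw [mul_assoc]; nlinarith [(key s hs).1]) (by nlinarith [(key s hs).2])
  have u2 := (hlo (box α a b N A B μ)).2 fun s hs => Box.box_mono α a b N μ
    (by nlinarith [(key s hs).2]) (by rw [mul_assoc]; nlinarith [(key s hs).1])
  rw [e1, ← div_le_iff₀ hN'] at u1
  rw [e2, ← le_div_iff₀ hN'] at u2
  have h5 : η * μ * (b - a) ≤ ε / 4 := by
    have : η * μ * (b - a) ≤ η * μ * 1 :=
      mul_le_mul_of_nonneg_left (by linarith) (by positivity)
    linarith
  rw [Real.dist_eq, abs_lt]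
  constructor <;> nlinarith

end Pool.Agent.Lib.MP_30b5ba_nt.P
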