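import Pool.Agent.Lib.MP_30b5ba_nt.P.Param

/-! Comparison of two windows. -/

namespace Pool.Agent.Lib.MP_30b5ba_nt.P

open Finset Filter Topology MeasureTheory
open scoped Classical

namespace Cmp

theorem abs_psi_le (β l x : ℝ) : |psi β l x| ≤ 1 := by
  unfold psi win
  by_cases h1 : x ∈ Set.Ico 0 β <;> by_cases h2 : x + l ∈ Set.Ico 0 β <;> simp [h1, h2]

theorem abs_phi_le (β l : ℝ) {η : ℝ} (h0 : 0 ≤ η) (h1 : η ≤ 1) (x₀ : ℝ) (u : ℕ) :
    |phi β l η x₀ u| ≤ 1 := by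
  have h := intervalIntegral.norm_integral_le_of_norm_le_const (a := 0) (b := η) (C := 1)
    (f := fun s => psi β l (Real.log u - x₀ - s)) fun s _ => abs_psi_le _ _ _
  rw [sub_zero, abs_of_nonneg h0, one_mul] at h
  exact h.trans h1

theorem supp_phi {β l η x₀ : ℝ} (hl : 0 ≤ l) (h0 : 0 ≤ η) (h1 : η ≤ 1) {u : ℕ}
    (h : phi β l η x₀ u ≠ 0) : x₀ - l ≤ Real.log u ∧ Real.log u ≤ x₀ + (β + 1) := by
  by_contra hc
  refine h ?_
  unfold phi
  rw [intervalIntegral.integral_congr (g := fun _ => 0), intervalIntegral.integral_zero]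
  intro s hs
  rw [Set.uIcc_of_le h0] at hs
  have a1 : Real.log u - x₀ - s ∉ Set.Ico 0 β := fun a =>
    hc ⟨by linarith [a.1, hs.1], by linarith [a.2, hs.2]⟩
  have a2 : Real.log u - x₀ - s + l ∉ Set.Ico 0 β := fun a =>
    hc ⟨by linarith [a.1, hs.1], by linarith [a.2, hs.2]⟩
  simp [psi, win, a1, a2]

theorem sum_fib (Y : ℝ) (Q : ℕ → Prop) [DecidablePred Q] (f : ℕ → ℝ) :
    ∑ p ∈ hyp Y with Q (p.1 * p.2), f p.1 =
      ∑ m ∈ Icc 1 ⌊Y⌋₊ with Q m, ∑ u ∈ m.divisors, f u := by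
  rw [← sum_fiberwise_of_maps_to (t := {m ∈ Icc 1 ⌊Y⌋₊ | Q m}) (g := fun p => p.1 * p.2)]
  · refine sum_congr rfl fun m hm => ?_
    obtain ⟨h1, h2⟩ := mem_filter.1 hm
    obtain ⟨h3, h4⟩ := mem_Icc.1 h1
    rw [← Nat.sum_divisorsAntidiagonal (fun u _ => f u)]
    refine sum_congr ?_ fun _ _ => rfl
    ext p
    rw [mem_filter, mem_filter, mem_hyp, Nat.mem_divisorsAntidiagonal]
    constructor
    · exact fun h => ⟨h.2, by omega⟩
    · rintro ⟨rfl, h5⟩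
      exact ⟨⟨⟨Nat.pos_of_ne_zero (left_ne_zero_of_mul h5),
        Nat.pos_of_ne_zero (right_ne_zero_of_mul h5), (Nat.le_floor_iff' h5).1 h4⟩, h2⟩, rfl⟩
  · intro p hp
    obtain ⟨h1, h2⟩ := mem_filter.1 hp
    obtain ⟨h3, h4, h5⟩ := mem_hyp.1 h1
    exact mem_filter.2 ⟨mem_Icc.2 ⟨Nat.mul_pos h3 h4, Nat.le_floor h5⟩, h2⟩

end Cmp

theorem cmp (h1 : GoodStmt) (h2 : UIStmt) (h3 : TypStmt) (h4 : GdStmt) (h5 : SqStmt) :
    CmpStmt := by
  intro c α hc hα a b A β l η μ ε ha hb hA hβ hl η0 η1 hμ hε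
  set K : ℝ := 1 + A * Real.exp (β + 1) + μ * Real.exp l / A with hK
  have k1 : 0 ≤ A * Real.exp (β + 1) := by positivity
  have k2 : 0 ≤ μ * Real.exp l / A := by positivity
  obtain ⟨δ, hδ, hU⟩ := h2 c α hc hα K (ε / 4) (by linarith) (by positivity)
  filter_upwards [h1 c α hc hα β l η μ (ε / 4) hβ hl η0 η1 hμ (by positivity), hU,
    h3 K δ (by linarith) hδ, h4, h5 c α hc hα μ (ε / 4) hμ (by positivity),
    eventually_ge_atTop 1] with N g1 g2 g3 g4 g5 hN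
  have hN' : (0 : ℝ) < N := by exact_mod_cast hN
  have arc : ∀ x, Arc (a / N) (b / N) x → Arc 0 (1 / N) x := fun x h =>
    h.mono (by positivity) (by gcongr)
  set f := phi β l η (Real.log (A * N)) with hf
  set E := {u ∈ Icc 1 ⌊K * N⌋₊ | ¬Typ N u} with hE
  have g6 := g2 E (filter_subset _ _) g3
  rw [← sum_filter_add_sum_filter_not _ fun p : ℕ × ℕ => Gd N (p.1 * p.2)]
  have a1 : |∑ p ∈ {p ∈ hyp (μ * N ^ 2) | Arc (a / N) (b / N) (α * ((p.1 * p.2 : ℕ) : ℝ))} with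
      Gd N (p.1 * p.2), f p.1| ≤ ε / 4 * N := by
    rw [filter_filter]
    have e := Cmp.sum_fib (μ * N ^ 2) (fun m => Arc (a / N) (b / N) (α * (m : ℝ)) ∧ Gd N m) f
    refine le_trans (le_of_eq (congrArg abs e)) ((abs_sum_le_sum_abs _ _).trans
      (le_trans (sum_le_sum_of_subset_of_nonneg (fun m hm => ?_) fun _ _ _ => abs_nonneg _)
        (g1 _)))
    rw [mem_filter] at hm ⊢
    exact ⟨hm.1, arc _ hm.2.1, hm.2.2⟩
  set U := {p ∈ E ×ˢ Icc 1 ⌊K * N⌋₊ | Arc 0 (1 / N) (α * ((p.1 * p.2 : ℕ) : ℝ))} with hUd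
  set V := {p ∈ hyp (μ * N ^ 2) | Typ N p.1 ∧ Typ N p.2 ∧
    (∃ q ∈ pr (ww N) (yy N), q ^ 2 ∣ p.1 * p.2) ∧
    Arc 0 (1 / N) (α * ((p.1 * p.2 : ℕ) : ℝ))} with hV
  have a2 : |∑ p ∈ {p ∈ hyp (μ * N ^ 2) | Arc (a / N) (b / N) (α * ((p.1 * p.2 : ℕ) : ℝ))} with
      ¬Gd N (p.1 * p.2), f p.1| ≤ #(U ∪ U.image Prod.swap ∪ V) := by
    rw [← sum_filter_ne_zero]
    refine (abs_sum_le_sum_abs _ _).trans ((sum_le_card_nsmul _ _ 1 fun p _ =>
      Cmp.abs_phi_le β l η0 η1 _ _).trans ?_)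
    rw [nsmul_eq_mul, mul_one, Nat.cast_le]
    refine card_le_card fun p hp => ?_
    obtain ⟨hp1, hp2⟩ := mem_filter.1 hp
    obtain ⟨hp3, hp4⟩ := mem_filter.1 hp1
    obtain ⟨hp5, hp6⟩ := mem_filter.1 hp3
    obtain ⟨b1, b2, b3⟩ := mem_hyp.1 hp5
    obtain ⟨s1, s2⟩ := Cmp.supp_phi hl η0 η1 hp2
    have u0 : (0 : ℝ) < p.1 := by exact_mod_cast b1
    have hAN : 0 < A * N := by positivity
    have s3 : (p.1 : ℝ) ≤ A * N * Real.exp (β + 1) := by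
      have := Real.exp_le_exp.2 s2
      rwa [Real.exp_log u0, Real.exp_add, Real.exp_log hAN] at this
    have s4 : A * N ≤ p.1 * Real.exp l := by
      have := Real.exp_le_exp.2 (sub_le_iff_le_add.1 s1)
      rwa [Real.exp_log hAN, Real.exp_add, Real.exp_log u0] at this
    have s5 : (p.2 : ℝ) ≤ μ * Real.exp l / A * N := by
      rw [div_mul_eq_mul_div, le_div_iff₀ hA]
      refine le_of_mul_le_mul_right ?_ hN'
      have c1 := mul_le_mul_of_nonneg_left s4 (Nat.cast_nonneg (α := ℝ) p.2)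
      have c2 := mul_le_mul_of_nonneg_right b3 (Real.exp_pos l).le
      push_cast at c2
      linarith
    have m1 : p.1 ∈ Icc 1 ⌊K * N⌋₊ := mem_Icc.2 ⟨b1, Nat.le_floor (by rw [hK]; nlinarith)⟩
    have m2 : p.2 ∈ Icc 1 ⌊K * N⌋₊ := mem_Icc.2 ⟨b2, Nat.le_floor (by rw [hK]; nlinarith)⟩
    rw [mem_union, mem_union]
    by_cases t1 : Typ N p.1
    · by_cases t2 : Typ N p.2
      · refine Or.inr (mem_filter.2 ⟨hp5, t1, t2, ?_, arc _ hp6⟩)
        by_contra hq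
        exact hp4 (g4 _ _ b1 b2 t1 t2 hq)
      · refine Or.inl (Or.inr (mem_image.2 ⟨p.swap, mem_filter.2 ⟨mem_product.2
          ⟨mem_filter.2 ⟨m2, t2⟩, m1⟩, ?_⟩, Prod.swap_swap p⟩))
        rw [Prod.fst_swap, Prod.snd_swap, mul_comm p.2]
        exact arc _ hp6
    · exact Or.inl (Or.inl (mem_filter.2 ⟨mem_product.2 ⟨mem_filter.2 ⟨m1, t1⟩, m2⟩, arc _ hp6⟩))
  have a3 : (#(U ∪ U.image Prod.swap ∪ V) : ℝ) ≤ #U + #U + #V := by
    exact_mod_cast (card_union_le _ _).trans (Nat.add_le_add_right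
      ((card_union_le _ _).trans (Nat.add_le_add_left card_image_le _)) _)
  refine (abs_add_le _ _).trans ?_
  linarith

end Pool.Agent.Lib.MP_30b5ba_nt.P
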