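import Pool.Agent.Lib.MP_30b5ba_nt.P.Param

/-!
Moments of the concentration of subset sums.
-/

namespace Pool.Agent.Lib.MP_30b5ba_nt.P

open Finset Filter Topology MeasureTheory
open scoped Classical

namespace Delta

theorem sum_ins {Q : Finset ℕ} {a : ℕ} (ha : a ∉ Q) (G : Finset ℕ → Prop) (F : Finset ℕ → ℝ) :
    ∑ S ∈ (insert a Q).powerset with G S, F S =
      ∑ S ∈ Q.powerset with G S, F S + ∑ S ∈ Q.powerset with G (insert a S), F (insert a S) := by
  simp only [sum_filter]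
  exact sum_powerset_insert ha _

theorem filt_ins {Q S : Finset ℕ} {a : ℕ} (ha : ∀ x ∈ Q, x < a) (hS : S ⊆ Q) :
    ({p ∈ insert a Q | ∀ r ∈ S, r < p} : Finset ℕ) = insert a {p ∈ Q | ∀ r ∈ S, r < p} := by
  rw [filter_insert, if_pos fun r hr => ha r (hS hr)]

theorem one_le_prod {g : ℕ → ℝ} (hg : ∀ p, 0 ≤ g p) (Q : Finset ℕ) :
    1 ≤ ∏ p ∈ Q, (1 + 2 * g p) :=
  prod_induction _ (fun x => 1 ≤ x) (fun _ _ ha hb => one_le_mul_of_one_le_of_one_le ha hb) le_rfl
    fun p _ => by linarith [hg p]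

theorem tele1 {g : ℕ → ℝ} (hg : ∀ p, 0 ≤ g p) {G : Finset ℕ → Prop}
    (hG : ∀ S S', G S → S' ⊆ S → G S') (F : Finset ℕ → ℝ) (E : Finset ℕ → ℕ → ℝ)
    (hF : ∀ S, 0 ≤ F S) (hE : ∀ S p, 0 ≤ E S p)
    (h : ∀ S p, p ∉ S → F (insert p S) ≤ 2 * F S + E S p) (Q : Finset ℕ) :
    ∑ S ∈ Q.powerset with G S, (∏ p ∈ S, g p) * F S ≤ F ∅ * ∏ p ∈ Q, (1 + 2 * g p) +
      ∑ S ∈ Q.powerset with G S, (∏ p ∈ S, g p) *
        ((∏ p ∈ Q with ∀ r ∈ S, r < p, (1 + 2 * g p)) *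
          ∑ p ∈ Q with ∀ r ∈ S, r < p, g p * E S p) := by
  have hgS : ∀ S : Finset ℕ, 0 ≤ ∏ p ∈ S, g p := fun S => prod_nonneg fun p _ => hg p
  induction Q using Finset.induction_on_max with
  | empty =>
    by_cases h0 : G ∅ <;> simp [filter_singleton, h0, hF]
  | insert a Q ha ih =>
    have haQ : a ∉ Q := fun h => lt_irrefl _ (ha a h)
    rw [sum_ins haQ, sum_ins haQ, prod_insert haQ]
    have h1 : ∑ S ∈ Q.powerset with G (insert a S), (∏ p ∈ insert a S, g p) * F (insert a S) ≤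
        ∑ S ∈ Q.powerset with G S, g a * ((∏ p ∈ S, g p) * (2 * F S + E S a)) := by
      refine le_trans (sum_le_sum fun S hS => ?_) (sum_le_sum_of_subset_of_nonneg
        (s := {S ∈ Q.powerset | G (insert a S)}) (fun S hS => ?_) fun S _ _ => ?_)
      · have haS : a ∉ S := fun h => haQ (mem_powerset.1 (mem_filter.1 hS).1 h)
        rw [prod_insert haS, mul_assoc]
        exact mul_le_mul_of_nonneg_left (mul_le_mul_of_nonneg_left (h S a haS) (hgS S)) (hg a)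
      · exact mem_filter.2 ⟨(mem_filter.1 hS).1, hG _ _ (mem_filter.1 hS).2 (subset_insert _ _)⟩
      · have := hF S
        have := hE S a
        have := hgS S
        have := hg a
        positivity
    have h2 : 0 ≤ ∑ S ∈ Q.powerset with G (insert a S), (∏ p ∈ insert a S, g p) *
        ((∏ p ∈ insert a Q with ∀ r ∈ insert a S, r < p, (1 + 2 * g p)) *
          ∑ p ∈ insert a Q with ∀ r ∈ insert a S, r < p, g p * E (insert a S) p) :=
      sum_nonneg fun S _ => mul_nonneg (hgS _) (mul_nonneg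
        (zero_le_one.trans (one_le_prod hg _)) (sum_nonneg fun p _ => mul_nonneg (hg p) (hE _ _)))
    have h3 : ∑ S ∈ Q.powerset with G S, ((1 + 2 * g a) * ((∏ p ∈ S, g p) *
        ((∏ p ∈ Q with ∀ r ∈ S, r < p, (1 + 2 * g p)) *
          ∑ p ∈ Q with ∀ r ∈ S, r < p, g p * E S p)) + g a * ((∏ p ∈ S, g p) * E S a)) ≤
        ∑ S ∈ Q.powerset with G S, (∏ p ∈ S, g p) *
        ((∏ p ∈ insert a Q with ∀ r ∈ S, r < p, (1 + 2 * g p)) *
          ∑ p ∈ insert a Q with ∀ r ∈ S, r < p, g p * E S p) := by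
      refine sum_le_sum fun S hS => ?_
      have hn : a ∉ ({p ∈ Q | ∀ r ∈ S, r < p} : Finset ℕ) := fun h => haQ (mem_filter.1 h).1
      rw [filt_ins ha (mem_powerset.1 (mem_filter.1 hS).1), prod_insert hn, sum_insert hn]
      have u1 := one_le_prod hg {p ∈ Q | ∀ r ∈ S, r < p}
      have u2 : 1 ≤ (1 + 2 * g a) * ∏ p ∈ Q with ∀ r ∈ S, r < p, (1 + 2 * g p) := by
        nlinarith [hg a]
      have u3 : 0 ≤ g a * ((∏ p ∈ S, g p) * E S a) :=
        mul_nonneg (hg a) (mul_nonneg (hgS S) (hE S a))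
      nlinarith [mul_le_mul_of_nonneg_right u2 u3]
    rw [sum_add_distrib, ← mul_sum, ← mul_sum] at h3
    simp only [mul_add, sum_add_distrib, ← mul_sum] at h1
    have e : ∑ S ∈ Q.powerset with G S, (∏ p ∈ S, g p) * (2 * F S) =
        2 * ∑ S ∈ Q.powerset with G S, (∏ p ∈ S, g p) * F S := by
      rw [mul_sum]
      exact sum_congr rfl fun S _ => by ring
    rw [e] at h1
    have h4 := mul_le_mul_of_nonneg_left ih (show 0 ≤ 1 + 2 * g a by linarith [hg a])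
    nlinarith

theorem tele2 {g : ℕ → ℝ} (hg : ∀ p, 0 ≤ g p) (G : Finset ℕ → Prop) (F : Finset ℕ → ℝ)
    {B : ℝ} (hB : 0 ≤ B) (P : Finset ℕ)
    (h : ∀ Q ⊆ P, ∑ S ∈ Q.powerset with G S, (∏ p ∈ S, g p) * F S ≤ B * ∏ p ∈ Q, (1 + 2 * g p))
    (Q : Finset ℕ) (hQ : Q ⊆ P) :
    ∑ S ∈ Q.powerset with G S, (∏ p ∈ S, g p) *
        ((∏ p ∈ Q with ∀ r ∈ S, r < p, (1 + 2 * g p)) * F S) ≤
      ∑ S ∈ Q.powerset with G S, (∏ p ∈ S, g p) * F S +
        2 * B * (∏ p ∈ Q, (1 + 2 * g p)) * ∑ p ∈ Q, g p := by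
  induction Q using Finset.induction_on_max with
  | empty => simp
  | insert a Q ha ih =>
    have haQ : a ∉ Q := fun h => lt_irrefl _ (ha a h)
    have hQ' : Q ⊆ P := (subset_insert _ _).trans hQ
    have ih' := ih hQ'
    rw [sum_ins haQ, sum_ins haQ, prod_insert haQ, sum_insert haQ]
    have e1 : ∑ S ∈ Q.powerset with G S, (∏ p ∈ S, g p) *
        ((∏ p ∈ insert a Q with ∀ r ∈ S, r < p, (1 + 2 * g p)) * F S) =
        (1 + 2 * g a) * ∑ S ∈ Q.powerset with G S, (∏ p ∈ S, g p) *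
          ((∏ p ∈ Q with ∀ r ∈ S, r < p, (1 + 2 * g p)) * F S) := by
      rw [mul_sum]
      refine sum_congr rfl fun S hS => ?_
      have hn : a ∉ ({p ∈ Q | ∀ r ∈ S, r < p} : Finset ℕ) := fun h => haQ (mem_filter.1 h).1
      rw [filt_ins ha (mem_powerset.1 (mem_filter.1 hS).1), prod_insert hn]
      ring
    have e2 : ∑ S ∈ Q.powerset with G (insert a S), (∏ p ∈ insert a S, g p) *
        ((∏ p ∈ insert a Q with ∀ r ∈ insert a S, r < p, (1 + 2 * g p)) * F (insert a S)) =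
        ∑ S ∈ Q.powerset with G (insert a S), (∏ p ∈ insert a S, g p) * F (insert a S) := by
      refine sum_congr rfl fun S _ => ?_
      rw [filter_false_of_mem, prod_empty, one_mul]
      intro p hp hh
      have h1 := hh a (mem_insert_self _ _)
      rcases mem_insert.1 hp with rfl | hp
      · exact lt_irrefl _ h1
      · exact lt_asymm h1 (ha p hp)
    rw [e1, e2]
    have h4 := mul_le_mul_of_nonneg_left ih' (show 0 ≤ 1 + 2 * g a by linarith [hg a])
    have h5 := mul_le_mul_of_nonneg_left (h Q hQ') (hg a)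
    have h6 : 0 ≤ B * (∏ p ∈ Q, (1 + 2 * g p)) * (g a * g a) :=
      mul_nonneg (mul_nonneg hB (zero_le_one.trans (one_le_prod hg Q))) (mul_self_nonneg _)
    nlinarith

theorem pow_aux {A B : ℝ} (hA : 0 ≤ A) (hB : 0 ≤ B) (n : ℕ) :
    (A + B) ^ (n + 1) ≤ A ^ (n + 1) + 2 ^ (n + 1) * (B * (A ^ n + B ^ n)) := by
  have key : ∀ n : ℕ, (A + B) ^ (n + 1) ≤ A ^ (n + 1) + (2 ^ (n + 1) - 1) * (B * max A B ^ n) := by
    intro n
    have hm : 0 ≤ max A B := le_max_of_le_left hA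
    induction n with
    | zero => norm_num
    | succ n ih =>
      have h1 : A ^ (n + 1) ≤ max A B ^ (n + 1) := pow_le_pow_left₀ hA (le_max_left _ _) _
      have h2 : A + B ≤ 2 * max A B := by linarith [le_max_left A B, le_max_right A B]
      have h3 : (1 : ℝ) ≤ 2 ^ (n + 1) := one_le_pow₀ (by norm_num)
      have h4 : 0 ≤ (2 ^ (n + 1) - 1) * (B * max A B ^ n) :=
        mul_nonneg (by linarith) (by positivity)
      calc (A + B) ^ (n + 1 + 1) = (A + B) ^ (n + 1) * (A + B) := pow_succ _ _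
        _ ≤ (A ^ (n + 1) + (2 ^ (n + 1) - 1) * (B * max A B ^ n)) * (A + B) :=
          mul_le_mul_of_nonneg_right ih (by linarith)
        _ = A ^ (n + 1 + 1) + B * A ^ (n + 1) +
            (2 ^ (n + 1) - 1) * (B * max A B ^ n) * (A + B) := by ring
        _ ≤ A ^ (n + 1 + 1) + B * max A B ^ (n + 1) +
            (2 ^ (n + 1) - 1) * (B * max A B ^ n) * (2 * max A B) := by
          gcongr
        _ = _ := by ring
  refine (key n).trans ?_
  have h1 : max A B ^ n ≤ A ^ n + B ^ n := by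
    rcases le_total A B with h | h
    · rw [max_eq_right h]
      linarith [pow_nonneg hA n]
    · rw [max_eq_left h]
      linarith [pow_nonneg hB n]
  have h2 : 0 ≤ B * max A B ^ n := mul_nonneg hB (pow_nonneg (le_max_of_le_left hA) n)
  have h3 : (0 : ℝ) ≤ 2 ^ (n + 1) := by positivity
  nlinarith [mul_le_mul_of_nonneg_left (mul_le_mul_of_nonneg_left h1 hB) h3]

/-- the number of subsets with a given sum. -/
noncomputable def cc (k : ℕ → ℤ) (S : Finset ℕ) (j : ℤ) : ℝ :=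
  (#{D ∈ S.powerset | ∑ p ∈ D, k p = j} : ℝ)

/-- the moments of `cc`. -/
noncomputable def MM (k : ℕ → ℤ) (n : ℕ) (S : Finset ℕ) : ℝ :=
  ∑ D ∈ S.powerset, cc k S (∑ p ∈ D, k p) ^ n

/-- the mixed terms. -/
noncomputable def TT' (k : ℕ → ℤ) (n : ℕ) (S : Finset ℕ) (i : ℤ) : ℝ :=
  ∑ D ∈ S.powerset, ∑ D' ∈ S.powerset, if ∑ p ∈ D', k p = ∑ p ∈ D, k p + i then
    cc k S (∑ p ∈ D, k p) ^ n + cc k S (∑ p ∈ D', k p) ^ n else 0

theorem cc_nonneg (k : ℕ → ℤ) (S : Finset ℕ) (j : ℤ) : 0 ≤ cc k S j := Nat.cast_nonneg _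

theorem MM_nonneg (k : ℕ → ℤ) (n : ℕ) (S : Finset ℕ) : 0 ≤ MM k n S :=
  sum_nonneg fun _ _ => pow_nonneg (cc_nonneg _ _ _) _

theorem TT_nonneg (k : ℕ → ℤ) (n : ℕ) (S : Finset ℕ) (i : ℤ) : 0 ≤ TT' k n S i :=
  sum_nonneg fun _ _ => sum_nonneg fun _ _ => by
    split_ifs
    · exact add_nonneg (pow_nonneg (cc_nonneg _ _ _) _) (pow_nonneg (cc_nonneg _ _ _) _)
    · exact le_rfl

theorem cc_eq (k : ℕ → ℤ) (S : Finset ℕ) (j : ℤ) :
    cc k S j = ∑ D ∈ S.powerset, if ∑ p ∈ D, k p = j then (1 : ℝ) else 0 := by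
  rw [cc, card_filter]
  push_cast
  rfl

theorem cc_insert (k : ℕ → ℤ) {S : Finset ℕ} {a : ℕ} (ha : a ∉ S) (j : ℤ) :
    cc k (insert a S) j = cc k S j + cc k S (j + -k a) := by
  simp only [cc_eq]
  rw [sum_powerset_insert ha]
  congr 1
  refine sum_congr rfl fun D hD => ?_
  rw [sum_insert fun h => ha (mem_powerset.1 hD h)]
  refine if_congr ⟨fun h => by omega, fun h => by omega⟩ rfl rfl

theorem shift_le (k : ℕ → ℤ) (n : ℕ) (S : Finset ℕ) (i : ℤ) :
    ∑ D ∈ S.powerset, (cc k S (∑ p ∈ D, k p) + cc k S (∑ p ∈ D, k p + i)) ^ (n + 1) ≤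
      MM k (n + 1) S + 2 ^ (n + 1) * TT' k n S i := by
  rw [MM, TT', mul_sum, ← sum_add_distrib]
  refine sum_le_sum fun D _ => (pow_aux (cc_nonneg _ _ _) (cc_nonneg _ _ _) n).trans (le_of_eq ?_)
  congr 2
  conv_lhs => arg 1; rw [cc_eq]
  rw [sum_mul]
  refine sum_congr rfl fun D' _ => ?_
  split_ifs with h
  · rw [h, one_mul]
  · rw [zero_mul]

theorem MM_insert (k : ℕ → ℤ) (n : ℕ) (S : Finset ℕ) (a : ℕ) (ha : a ∉ S) :
    MM k (n + 1) (insert a S) ≤
      2 * MM k (n + 1) S + 2 ^ (n + 1) * (TT' k n S (-k a) + TT' k n S (k a)) := by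
  have h1 := shift_le k n S (-k a)
  have h2 := shift_le k n S (k a)
  have e : ∑ D ∈ S.powerset, cc k (insert a S) (∑ p ∈ insert a D, k p) ^ (n + 1) =
      ∑ D ∈ S.powerset, (cc k S (∑ p ∈ D, k p) + cc k S (∑ p ∈ D, k p + k a)) ^ (n + 1) := by
    refine sum_congr rfl fun D hD => ?_
    rw [sum_insert fun h => ha (mem_powerset.1 hD h), cc_insert k ha, add_comm (k a),
      add_neg_cancel_right, add_comm]
  rw [MM, sum_powerset_insert ha, e]
  simp only [cc_insert k ha]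
  linarith

theorem TT_sum (k : ℕ → ℤ) (n : ℕ) (S R : Finset ℕ) (g : ℕ → ℝ) (Θ : ℝ) (κ : ℕ → ℤ)
    (h : ∀ i : ℤ, 2 ^ #S * ∑ p ∈ R with κ p = i, g p ≤ Θ) :
    ∑ p ∈ R, g p * TT' k n S (κ p) ≤ 2 * Θ * MM k n S := by
  have h2 : (0 : ℝ) < 2 ^ #S := by positivity
  have e : ∑ p ∈ R, g p * TT' k n S (κ p) = ∑ D ∈ S.powerset, ∑ D' ∈ S.powerset,
      (∑ p ∈ R with κ p = ∑ p ∈ D', k p - ∑ p ∈ D, k p, g p) *
        (cc k S (∑ p ∈ D, k p) ^ n + cc k S (∑ p ∈ D', k p) ^ n) := by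
    simp only [TT', mul_sum]
    rw [sum_comm]
    refine sum_congr rfl fun D _ => ?_
    rw [sum_comm]
    refine sum_congr rfl fun D' _ => ?_
    rw [sum_filter, sum_mul]
    refine sum_congr rfl fun p _ => ?_
    by_cases hp : κ p = ∑ p ∈ D', k p - ∑ p ∈ D, k p
    · rw [if_pos hp, if_pos (by omega)]
    · rw [if_neg hp, if_neg (by omega), mul_zero, zero_mul]
  rw [e]
  calc _ ≤ ∑ D ∈ S.powerset, ∑ D' ∈ S.powerset, Θ / 2 ^ #S *
        (cc k S (∑ p ∈ D, k p) ^ n + cc k S (∑ p ∈ D', k p) ^ n) := by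
        refine sum_le_sum fun D _ => sum_le_sum fun D' _ => mul_le_mul_of_nonneg_right ?_
          (add_nonneg (pow_nonneg (cc_nonneg _ _ _) _) (pow_nonneg (cc_nonneg _ _ _) _))
        rw [le_div_iff₀' h2]
        exact h _
    _ = _ := by
        simp only [← mul_sum, sum_add_distrib, sum_const, card_powerset, nsmul_eq_mul, MM]
        push_cast
        field_simp
        ring

theorem cc_pow_le (k : ℕ → ℤ) (n : ℕ) (S : Finset ℕ) (j : ℤ) :
    cc k S j ^ (n + 1) ≤ MM k n S := by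
  rw [pow_succ', MM]
  conv_lhs => arg 1; rw [cc_eq]
  rw [sum_mul]
  refine sum_le_sum fun D _ => ?_
  split_ifs with h
  · rw [h, one_mul]
  · rw [zero_mul]
    exact pow_nonneg (cc_nonneg _ _ _) _

end Delta

open Delta in
theorem delta : DeltaStmt := by
  intro P k g G Θ q j hg hΘ hq hG hP
  have hgS : ∀ S : Finset ℕ, 0 ≤ ∏ p ∈ S, g p := fun S => prod_nonneg fun p _ => hg p
  set H := ∑ p ∈ P, g p with hH
  have hH0 : 0 ≤ H := sum_nonneg fun p _ => hg p
  set Y := (1 + 2 * H) * (1 + 2 ^ (q + 1) * Θ) with hY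
  have hΘ' : 0 ≤ 2 ^ (q + 1) * Θ := by positivity
  have hY1 : 1 ≤ Y := by nlinarith [mul_nonneg hH0 hΘ']
  have main : ∀ n, n + 1 ≤ q → ∀ Q ⊆ P,
      ∑ S ∈ Q.powerset with G S, (∏ p ∈ S, g p) * MM k n S ≤ Y ^ n * ∏ p ∈ Q, (1 + 2 * g p) := by
    intro n
    induction n with
    | zero =>
      intro _ Q _
      rw [pow_zero, one_mul, prod_one_add]
      refine le_trans (sum_le_sum_of_subset_of_nonneg (filter_subset _ _) fun S _ _ =>
        mul_nonneg (hgS S) (MM_nonneg _ _ _)) (le_of_eq (sum_congr rfl fun S _ => ?_))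
      simp [MM, prod_mul_distrib, mul_comm]
    | succ n ih =>
      intro hn Q hQ
      have ih' := ih (by omega)
      have hYn : 1 ≤ Y ^ n := one_le_pow₀ hY1
      have h1 := tele1 hg hG (MM k (n + 1))
        (fun S a => 2 ^ (n + 1) * (TT' k n S (-k a) + TT' k n S (k a))) (MM_nonneg k _)
        (fun S a => mul_nonneg (by positivity) (add_nonneg (TT_nonneg _ _ _ _) (TT_nonneg _ _ _ _)))
        (MM_insert k n) Q
      have h2 := tele2 hg G (MM k n) (zero_le_one.trans hYn) P ih' Q hQ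
      have h3 := ih' Q hQ
      have h0 : MM k (n + 1) ∅ = 1 := by simp [MM, cc, filter_singleton]
      have h4 : ∑ S ∈ Q.powerset with G S, (∏ p ∈ S, g p) *
          ((∏ p ∈ Q with ∀ r ∈ S, r < p, (1 + 2 * g p)) *
            ∑ p ∈ Q with ∀ r ∈ S, r < p,
              g p * (2 ^ (n + 1) * (TT' k n S (-k p) + TT' k n S (k p)))) ≤
          2 ^ (q + 1) * Θ * ∑ S ∈ Q.powerset with G S, (∏ p ∈ S, g p) *
            ((∏ p ∈ Q with ∀ r ∈ S, r < p, (1 + 2 * g p)) * MM k n S) := by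
        rw [mul_sum]
        refine sum_le_sum fun S hS => ?_
        obtain ⟨hS1, hS2⟩ := mem_filter.1 hS
        have hb : ∀ i : ℤ, 2 ^ #S * ∑ p ∈ {p ∈ Q | ∀ r ∈ S, r < p} with k p = i, g p ≤ Θ := by
          intro i
          refine le_trans (mul_le_mul_of_nonneg_left ?_ (by positivity))
            (hP S ((mem_powerset.1 hS1).trans hQ) hS2 i)
          refine sum_le_sum_of_subset_of_nonneg (fun p hp => ?_) fun p _ _ => hg p
          simp only [mem_filter] at hp ⊢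
          exact ⟨hQ hp.1.1, hp.1.2, hp.2⟩
        have a1 := TT_sum k n S {p ∈ Q | ∀ r ∈ S, r < p} g Θ k hb
        have a2 := TT_sum k n S {p ∈ Q | ∀ r ∈ S, r < p} g Θ (fun p => -k p) fun i => by
          simpa only [neg_eq_iff_eq_neg] using hb (-i)
        have a3 : ∑ p ∈ Q with ∀ r ∈ S, r < p,
            g p * (2 ^ (n + 1) * (TT' k n S (-k p) + TT' k n S (k p))) =
            2 ^ (n + 1) * (∑ p ∈ Q with ∀ r ∈ S, r < p, g p * TT' k n S (-k p) +
              ∑ p ∈ Q with ∀ r ∈ S, r < p, g p * TT' k n S (k p)) := by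
          rw [← sum_add_distrib, mul_sum]
          exact sum_congr rfl fun p _ => by ring
        have a4 : (2 : ℝ) ^ (n + 1) * 4 ≤ 2 ^ (q + 1) := by
          calc (2 : ℝ) ^ (n + 1) * 4 = 2 ^ (n + 3) := by ring
            _ ≤ _ := pow_le_pow_right₀ (by norm_num) (by omega)
        have a5 : 2 ^ (n + 1) * (∑ p ∈ Q with ∀ r ∈ S, r < p, g p * TT' k n S (-k p) +
            ∑ p ∈ Q with ∀ r ∈ S, r < p, g p * TT' k n S (k p)) ≤ 2 ^ (q + 1) * Θ * MM k n S := by
          have b1 := mul_le_mul_of_nonneg_left (add_le_add a2 a1)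
            (show (0 : ℝ) ≤ 2 ^ (n + 1) by positivity)
          have b2 := mul_le_mul_of_nonneg_right a4 (mul_nonneg hΘ (MM_nonneg k n S))
          linarith
        rw [a3]
        have a6 := mul_le_mul_of_nonneg_left (mul_le_mul_of_nonneg_left a5
          (zero_le_one.trans (one_le_prod hg {p ∈ Q | ∀ r ∈ S, r < p}))) (hgS S)
        linarith
      have h5 : ∑ p ∈ Q, g p ≤ H := sum_le_sum_of_subset_of_nonneg hQ fun p _ _ => hg p
      have hPi := one_le_prod hg Q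
      set Pi := ∏ p ∈ Q, (1 + 2 * g p)
      have h6 : 2 * Y ^ n * Pi * ∑ p ∈ Q, g p ≤ 2 * Y ^ n * Pi * H :=
        mul_le_mul_of_nonneg_left h5 (by positivity)
      have h7 := mul_le_mul_of_nonneg_left (h2.trans (add_le_add h3 h6)) hΘ'
      have h8 : 1 * Pi ≤ Y ^ n * (1 + 2 * H) * Pi :=
        mul_le_mul_of_nonneg_right (by nlinarith) (by linarith)
      rw [h0] at h1
      calc _ ≤ Y ^ n * (1 + 2 * H) * Pi +
            2 ^ (q + 1) * Θ * (Y ^ n * Pi + 2 * Y ^ n * Pi * H) := by linarith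
        _ = Y ^ n * ((1 + 2 * H) * (1 + 2 ^ (q + 1) * Θ)) * Pi := by ring
        _ = _ := by rw [← hY, ← pow_succ]
  obtain ⟨n, rfl⟩ : ∃ n, q = n + 1 := ⟨q - 1, by omega⟩
  refine le_trans (sum_le_sum fun S _ => mul_le_mul_of_nonneg_left (cc_pow_le k n S (j S)) (hgS S))
    ((main n le_rfl P Subset.rfl).trans ?_)
  exact mul_le_mul_of_nonneg_right (pow_le_pow_right₀ hY1 (Nat.le_succ n))
    (zero_le_one.trans (one_le_prod hg P))

end Pool.Agent.Lib.MP_30b5ba_nt.P
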