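import Pool.Agent.Lib.MP_30b5ba_nt.P.Param

/-! Products of two typical integers. -/

namespace Pool.Agent.Lib.MP_30b5ba_nt.P

open Finset Filter Topology MeasureTheory
open scoped Classical

namespace Gd

/-- the part of `m` made of the primes with property `P`. -/
noncomputable def pt (P : ℕ → Prop) (m : ℕ) : ℕ := (m.factorization.filter P).prod (· ^ ·)

theorem pt_fac (P : ℕ → Prop) (m p : ℕ) :
    (pt P m).factorization p = if P p then m.factorization p else 0 := by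
  rw [pt, Nat.factorization_prod_pow_eq_self_of_le_factorization (n := m), Finsupp.filter_apply]
  intro q
  rw [Finsupp.filter_apply]
  split_ifs <;> simp

theorem pt_ne (P : ℕ → Prop) (m : ℕ) : pt P m ≠ 0 := by
  rw [pt, Finsupp.prod, prod_ne_zero_iff]
  intro p hp
  rw [Finsupp.support_filter, mem_filter] at hp
  exact pow_ne_zero _ (Nat.prime_of_mem_primeFactors hp.1).ne_zero

theorem pt_primes (P : ℕ → Prop) (m : ℕ) :
    (pt P m).primeFactors = {p ∈ m.primeFactors | P p} := by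
  ext p
  rw [mem_filter, ← Nat.support_factorization, ← Nat.support_factorization,
    Finsupp.mem_support_iff, Finsupp.mem_support_iff, pt_fac]
  split_ifs with h <;> simp [h]

theorem pt_prime {P : ℕ → Prop} {m p : ℕ} (hp : p.Prime) (h : p ∣ pt P m) : P p := by
  have : p ∈ (pt P m).primeFactors := Nat.mem_primeFactors.2 ⟨hp, h, pt_ne P m⟩
  rw [pt_primes] at this
  exact (mem_filter.1 this).2

theorem log_pt (z : ℝ) (m : ℕ) : Real.log (pt (fun p => (p : ℝ) ≤ z) m) =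
    ∑ p ∈ pr 0 z, (m.factorization p : ℝ) * Real.log p := by
  rw [Real.log_nat_eq_sum_factorization, Finsupp.sum_of_support_subset _ (s := pr 0 z) _ _
    (by simp)]
  · refine sum_congr rfl fun p hp => ?_
    rw [pt_fac, if_pos (mem_pr.1 hp).2.2]
  · intro p hp
    rw [Nat.support_factorization, pt_primes, mem_filter] at hp
    have := Nat.prime_of_mem_primeFactors hp.1
    exact mem_pr.2 ⟨this, by exact_mod_cast this.pos, hp.2⟩

theorem log_pt_mul (z : ℝ) {u v : ℕ} (hu : u ≠ 0) (hv : v ≠ 0) :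
    Real.log (pt (fun p => (p : ℝ) ≤ z) (u * v)) =
      ∑ p ∈ pr 0 z, (u.factorization p : ℝ) * Real.log p +
        ∑ p ∈ pr 0 z, (v.factorization p : ℝ) * Real.log p := by
  rw [log_pt, Nat.factorization_mul hu hv, ← sum_add_distrib]
  refine sum_congr rfl fun p _ => ?_
  rw [Finsupp.add_apply, Nat.cast_add, add_mul]

theorem two_pow_le {n : ℕ} (hn : n ≠ 0) : 2 ^ #n.primeFactors ≤ #n.divisors := by
  rw [Nat.card_divisors hn]
  refine pow_card_le_prod _ _ _ fun p hp => ?_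
  have := Nat.Prime.factorization_pos_of_dvd (Nat.prime_of_mem_primeFactors hp) hn
    (Nat.dvd_of_mem_primeFactors hp)
  omega

theorem le_two_pow {n : ℕ} (hn : n ≠ 0) :
    #n.divisors ≤ 2 ^ ∑ p ∈ n.primeFactors, n.factorization p := by
  rw [Nat.card_divisors hn, ← prod_pow_eq_pow_sum]
  exact prod_le_prod' fun p _ => Nat.lt_two_pow_self

theorem big_add (P : ℕ → Prop) {u v : ℕ} (hu : u ≠ 0) (hv : v ≠ 0) :
    ∑ p ∈ (pt P (u * v)).primeFactors, (pt P (u * v)).factorization p =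
      ∑ p ∈ u.primeFactors with P p, u.factorization p +
        ∑ p ∈ v.primeFactors with P p, v.factorization p := by
  have h : ∀ m : ℕ, ∑ p ∈ m.primeFactors with P p, m.factorization p =
      (m.factorization.filter P).sum fun _ k => k := fun m => by
    rw [Finsupp.sum, Finsupp.support_filter, Nat.support_factorization]
    exact sum_congr rfl fun p hp => by rw [Finsupp.filter_apply, if_pos (mem_filter.1 hp).2]
  rw [h, h, ← Finsupp.sum_add_index' (fun _ => rfl) (fun _ _ _ => rfl), ← Finsupp.filter_add,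
    ← Nat.factorization_mul hu hv, ← h, pt_primes]
  exact sum_congr rfl fun p hp => by rw [pt_fac, if_pos (mem_filter.1 hp).2]

theorem big_div {N u v : ℕ} (hu : u ≠ 0) (hv : v ≠ 0) (h : Typ N u) (h' : Typ N v) :
    (#(pt (fun p => yy N < (p : ℝ)) (u * v)).divisors : ℝ) ≤ (2 : ℝ) ^ (0.002 * tt N) := by
  have h1 := le_two_pow (pt_ne (fun p => yy N < (p : ℝ)) (u * v))
  rw [big_add _ hu hv] at h1
  have h2 := h.2.2.2.2.2
  have h3 := h'.2.2.2.2.2
  refine le_trans (Nat.cast_le.2 h1) ?_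
  rw [Nat.cast_pow, Nat.cast_ofNat, ← Real.rpow_natCast]
  refine Real.rpow_le_rpow_of_exponent_le one_le_two ?_
  push_cast
  convert add_le_add h2 h3 using 1
  · congr!
  · ring

theorem split (z : ℝ) {m : ℕ} (hm : m ≠ 0) :
    m = pt (fun p => (p : ℝ) ≤ z) m * pt (fun p => z < (p : ℝ)) m := by
  refine Nat.eq_of_factorization_eq hm (mul_ne_zero (pt_ne _ _) (pt_ne _ _)) fun p => ?_
  rw [Nat.factorization_mul (pt_ne _ _) (pt_ne _ _), Finsupp.add_apply, pt_fac, pt_fac]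
  rcases le_or_gt (p : ℝ) z with h | h
  · rw [if_pos h, if_neg h.not_gt, add_zero]
  · rw [if_neg h.not_ge, if_pos h, zero_add]

theorem card_add {P : Finset ℕ} {u v : ℕ} (hP : ∀ p ∈ P, p.Prime ∧ ¬p ^ 2 ∣ u * v) :
    #{p ∈ P | p ∣ u * v} = #{p ∈ P | p ∣ u} + #{p ∈ P | p ∣ v} := by
  rw [← card_union_of_disjoint, ← filter_or]
  · exact congrArg card (filter_congr fun p hp => (hP p hp).1.dvd_mul)
  · rw [disjoint_filter]
    intro p hp h1 h2
    exact (hP p hp).2 (by rw [pow_two]; exact mul_dvd_mul h1 h2)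

theorem div_mul_le (m n : ℕ) : #(m * n).divisors ≤ #m.divisors * #n.divisors := by
  rw [Nat.divisors_mul]
  exact card_mul_le

theorem sum_div (N : ℕ) :
    ∑ c ∈ Icc 1 N, (#c.divisors : ℝ) / c ≤ (1 + Real.log N) ^ 2 := by
  have h1 : ∑ i ∈ Icc 1 N, (i : ℝ)⁻¹ ≤ 1 + Real.log N := by
    have := harmonic_le_one_add_log N
    simpa only [harmonic_eq_sum_Icc, Rat.cast_sum, Rat.cast_inv, Rat.cast_natCast] using this
  have h2 : 0 ≤ ∑ i ∈ Icc 1 N, (i : ℝ)⁻¹ := by positivity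
  refine le_trans ?_ (pow_le_pow_left₀ h2 h1 2)
  rw [pow_two, sum_mul_sum, ← sum_product']
  refine le_trans (le_of_eq (sum_congr rfl fun c hc => ?_))
    (sum_fiberwise_le_sum_of_sum_fiber_nonneg (t := Icc 1 N) (g := fun x : ℕ × ℕ => x.1 * x.2)
      fun _ _ => by positivity)
  obtain ⟨c1, c2⟩ := mem_Icc.1 hc
  have : {x ∈ Icc 1 N ×ˢ Icc 1 N | x.1 * x.2 = c} = c.divisorsAntidiagonal := by
    ext ⟨a, b⟩
    simp only [mem_filter, mem_product, mem_Icc, Nat.mem_divisorsAntidiagonal]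
    constructor
    · exact fun h => ⟨h.2, by omega⟩
    · rintro ⟨rfl, h⟩
      have ha : 0 < a := Nat.pos_of_ne_zero (left_ne_zero_of_mul h)
      have hb : 0 < b := Nat.pos_of_ne_zero (right_ne_zero_of_mul h)
      exact ⟨⟨⟨ha, (Nat.le_mul_of_pos_right a hb).trans c2⟩, hb,
        (Nat.le_mul_of_pos_left b ha).trans c2⟩, rfl⟩
  rw [this, sum_congr rfl (g := fun _ => (c : ℝ)⁻¹), sum_const, ← Nat.map_div_right_divisors,
    card_map, nsmul_eq_mul, div_eq_mul_inv]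
  intro x hx
  rw [← mul_inv, ← Nat.cast_mul, (Nat.mem_divisorsAntidiagonal.1 hx).1]

theorem sum_sq {w : ℝ} (hw : 0 < w) (y : ℝ) : ∑ q ∈ pr w y, ((q : ℝ) ^ 2)⁻¹ ≤ 2 / w := by
  refine le_trans (sum_le_sum_of_subset_of_nonneg (t := Ioo ⌊w⌋₊ (⌊y⌋₊ + 1)) ?_
    fun _ _ _ => by positivity) ((sum_Ioo_inv_sq_le _ _).trans ?_)
  · intro q hq
    obtain ⟨h1, h2, h3⟩ := mem_pr.1 hq
    exact mem_Ioo.2 ⟨(Nat.floor_lt hw.le).2 h2, Nat.lt_succ_of_le (Nat.le_floor h3)⟩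
  · exact div_le_div_of_nonneg_left zero_le_two hw (Nat.lt_floor_add_one w).le

theorem cl {s t : Finset (ℕ × ℕ)} (h : s ⊆ t) : (#s : ℝ) ≤ #t := Nat.cast_le.2 (card_le_card h)

theorem cb {ι : Type} (s : Finset ι) (t : ι → Finset (ℕ × ℕ)) (g : ι → ℝ)
    (hg : ∀ i ∈ s, (#(t i) : ℝ) ≤ g i) : (#(s.biUnion t) : ℝ) ≤ ∑ i ∈ s, g i := by
  refine le_trans (Nat.cast_le.2 card_biUnion_le) ?_
  rw [Nat.cast_sum]
  exact sum_le_sum hg

/-- the factorisations of `m`, if there are at most `B` of them. -/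
noncomputable def F (B : ℝ) (m : ℕ) : Finset (ℕ × ℕ) :=
  if (#m.divisors : ℝ) ≤ B then m.divisorsAntidiagonal else ∅

theorem card_F {B : ℝ} (hB : 0 ≤ B) (m : ℕ) : (#(F B m) : ℝ) ≤ B := by
  rw [F]
  split_ifs with a
  · rwa [← Nat.map_div_right_divisors, card_map]
  · simpa using hB

theorem decomp {N u v q : ℕ} (hu : u ≠ 0) (hv : v ≠ 0) (h : Typ N u) (h' : Typ N v)
    (hq : q.Prime) (hy : (q : ℝ) ≤ yy N) (hd : q ^ 2 ∣ u * v) :
    ∃ k : ℕ, k ≠ 0 ∧ q ^ 2 * k ∣ u * v ∧ Real.log ((q ^ 2 * k : ℕ) : ℝ) ≤ Real.log N / 20 ∧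
      (#(u * v).divisors : ℝ) ≤ 3 * #k.divisors * (2 : ℝ) ^ (0.002 * tt N) := by
  have hm := mul_ne_zero hu hv
  have a5 : q ^ 2 ∣ pt (fun p => (p : ℝ) ≤ yy N) (u * v) := by
    rw [hq.pow_dvd_iff_le_factorization (pt_ne _ _), pt_fac, if_pos hy]
    exact (hq.pow_dvd_iff_le_factorization hm).1 hd
  obtain ⟨k, hk⟩ := a5
  have a6 := split (yy N) hm
  have a7 := log_pt_mul (yy N) hu hv
  have a8 := pt_ne (fun p => (p : ℝ) ≤ yy N) (u * v)
  have a9 := big_div hu hv h h'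
  rw [hk] at a6 a7 a8
  generalize pt (fun p => yy N < (p : ℝ)) (u * v) = b at a6 a9
  refine ⟨k, right_ne_zero_of_mul a8, ⟨b, a6⟩, by linarith [h.2.2.2.2.1, h'.2.2.2.2.1], ?_⟩
  have b3 : #(q ^ 2 * k).divisors ≤ 3 * #k.divisors := by
    refine (div_mul_le _ _).trans_eq ?_
    rw [Nat.divisors_prime_pow hq, card_map, card_range]
  rw [a6]
  refine le_trans (Nat.cast_le.2 ((div_mul_le _ _).trans (Nat.mul_le_mul_right _ b3))) ?_
  push_cast
  exact mul_le_mul_of_nonneg_left a9 (mul_nonneg zero_le_three (Nat.cast_nonneg _))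

end Gd

open Gd

theorem gd : GdStmt := by
  filter_upwards [ordered] with N ⟨o1, o2, o3⟩ u v hu hv h h' hq
  have hu0 : u ≠ 0 := by omega
  have hv0 : v ≠ 0 := by omega
  have hm := mul_ne_zero hu0 hv0
  have hsq : ∀ {z₁ z₂ : ℝ}, ww N ≤ z₁ → z₂ ≤ yy N → ∀ p ∈ pr z₁ z₂, p.Prime ∧ ¬p ^ 2 ∣ u * v := by
    intro z₁ z₂ a b p hp
    obtain ⟨h1, h2, h3⟩ := mem_pr.1 hp
    exact ⟨h1, fun h4 => hq ⟨p, mem_pr.2 ⟨h1, a.trans_lt h2, h3.trans b⟩, h4⟩⟩
  have hS : pt (fun p => (p : ℝ) ≤ y0 N) (u * v) *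
      ∏ p ∈ pr (y0 N) (yy N) with p ∣ u * v, p = pt (fun p => (p : ℝ) ≤ yy N) (u * v) := by
    have h0 : ∀ p ∈ {p ∈ pr (y0 N) (yy N) | p ∣ u * v}, p ≠ 0 := fun p hp =>
      (mem_pr.1 (mem_filter.1 hp).1).1.ne_zero
    refine Nat.eq_of_factorization_eq (mul_ne_zero (pt_ne _ _) (prod_ne_zero_iff.2 h0))
      (pt_ne _ _) fun p => ?_
    rw [Nat.factorization_mul (pt_ne _ _) (prod_ne_zero_iff.2 h0), Finsupp.add_apply, pt_fac,
      pt_fac, Nat.factorization_prod h0, Finsupp.finsetSum_apply,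
      sum_congr rfl (g := fun q => if q = p then 1 else 0) fun q hq => by
        rw [(mem_pr.1 (mem_filter.1 hq).1).1.factorization, Finsupp.single_apply], sum_ite_eq']
    by_cases a : p ∈ {p ∈ pr (y0 N) (yy N) | p ∣ u * v}
    · obtain ⟨a1, a2⟩ := mem_filter.1 a
      obtain ⟨b1, b2, b3⟩ := mem_pr.1 a1
      have c1 := (hsq o2 le_rfl p a1).2
      rw [b1.pow_dvd_iff_le_factorization hm] at c1
      have c2 := b1.factorization_pos_of_dvd hm a2
      rw [if_pos a, if_neg b2.not_ge, if_pos b3]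
      omega
    rw [if_neg a, add_zero]
    by_cases b : (p : ℝ) ≤ y0 N
    · rw [if_pos b, if_pos (b.trans o3)]
    rw [if_neg b]
    split_ifs with c
    · by_contra d
      have e : p ∈ (u * v).primeFactors := Finsupp.mem_support_iff.2 (Ne.symm d)
      exact a (mem_filter.2 ⟨mem_pr.2 ⟨Nat.prime_of_mem_primeFactors e, not_le.1 b, c⟩,
        Nat.dvd_of_mem_primeFactors e⟩)
    · rfl
  refine ⟨pt (fun p => (p : ℝ) ≤ y0 N) (u * v), {p ∈ pr (y0 N) (yy N) | p ∣ u * v},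
    pt (fun p => yy N < (p : ℝ)) (u * v), ?_, ?_, ?_, fun p hp a => pt_prime hp a,
    fun p hp a => pt_prime hp a, ?_, big_div hu0 hv0 h h'⟩
  · rw [hS]
    exact split _ hm
  · have a0 := Nat.pos_of_ne_zero (pt_ne (fun p => (p : ℝ) ≤ y0 N) (u * v))
    refine mem_filter.2 ⟨mem_Icc.2 ⟨a0, Nat.le_floor ?_⟩, ?_⟩
    · rw [← Real.log_le_iff_le_exp (by exact_mod_cast a0), log_pt_mul _ hu0 hv0]
      linarith [h.2.2.2.1, h'.2.2.2.1]
    · refine le_trans ?_ (Nat.cast_le.2 (two_pow_le a0.ne'))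
      rw [Nat.cast_pow, Nat.cast_ofNat, ← Real.rpow_natCast]
      refine Real.rpow_le_rpow_of_exponent_le one_le_two ?_
      have a1 : #{p ∈ pr (ww N) (y0 N) | p ∣ u * v} ≤
          #(pt (fun p => (p : ℝ) ≤ y0 N) (u * v)).primeFactors := by
        rw [pt_primes]
        refine card_le_card fun p hp => ?_
        obtain ⟨a1, a2⟩ := mem_filter.1 hp
        obtain ⟨b1, -, b3⟩ := mem_pr.1 a1
        exact mem_filter.2 ⟨Nat.mem_primeFactors.2 ⟨b1, a2, hm⟩, b3⟩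
      rw [card_add (hsq le_rfl o3)] at a1
      have a2 := (Nat.cast_le (α := ℝ)).2 a1
      push_cast at a2
      linarith [h.1, h'.1]
  · refine mem_filter.2 ⟨mem_powerset.2 (filter_subset _ _), ?_, fun r hr => ?_⟩
    · rw [card_add (hsq o2 le_rfl)]
      push_cast
      linarith [h.2.1, h'.2.1]
    · have a1 := (mem_filter.1 hr).1
      have a2 : {p ∈ {p ∈ pr (y0 N) (yy N) | p ∣ u * v} | p ≤ r} =
          {p ∈ pr (y0 N) r | p ∣ u * v} := by
        ext p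
        simp only [mem_filter, mem_pr, Nat.cast_le]
        constructor
        · exact fun a => ⟨⟨a.1.1.1, a.1.1.2.1, a.2⟩, a.1.2⟩
        · exact fun a => ⟨⟨⟨a.1.1, a.1.2.1,
            (Nat.cast_le.2 a.1.2.2).trans (mem_pr.1 a1).2.2⟩, a.2⟩, a.1.2.2⟩
      rw [a2, card_add (hsq o2 (mem_pr.1 a1).2.2)]
      have a3 := h.2.2.1 r a1
      have a4 := h'.2.2.1 r a1
      refine (pow_le_pow_iff_left₀ (by positivity) (Real.log_natCast_nonneg r) two_ne_zero).1 ?_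
      rw [← pow_mul, mul_comm, pow_mul, pow_add, pow_two (Real.log r)]
      norm_num
      exact mul_le_mul a3 a4 (by positivity) (Real.log_natCast_nonneg r)
  · rw [hS, log_pt_mul _ hu0 hv0]
    linarith [h.2.2.2.2.1, h'.2.2.2.2.1]

theorem sq (h1 : SieveStmt) : SqStmt := by
  intro c α hc hb μ ε hμ hε
  obtain ⟨C, hC, h1⟩ := h1 c α hc hb μ hμ
  filter_upwards [h1, TT_le, tendsto_TT.eventually_ge_atTop 1,
    tendsto_logN.eventually_ge_atTop (24 * C / ε), eventually_ge_atTop 1] with N h1 t1 t2 t3 t4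
  have hN : (0 : ℝ) < N := by exact_mod_cast t4
  have hL : 1 ≤ Real.log N := t2.trans t1
  have hL0 : 0 < Real.log N := by linarith
  have hB : (2 : ℝ) ^ (0.002 * tt N) ≤ Real.log N := by
    rw [two_rpow_tt (by linarith)]
    refine le_trans ?_ t1
    conv_rhs => rw [← Real.rpow_one (TT N)]
    exact Real.rpow_le_rpow_of_exponent_le t2 (by linarith [Real.log_two_lt_d9])
  have h3 : ∀ k : ℕ, (0 : ℝ) ≤ 3 * #k.divisors := fun k =>
    mul_nonneg zero_le_three (Nat.cast_nonneg _)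
  refine le_trans (cl (t := (pr (ww N) (yy N)).biUnion fun q =>
    {k ∈ Icc 1 N | Real.log ((q ^ 2 * k : ℕ) : ℝ) ≤ Real.log N / 20}.biUnion fun k =>
      {m ∈ Icc 1 ⌊μ * N ^ 2⌋₊ | Arc 0 (1 / N) (α * ((m : ℕ) : ℝ)) ∧ q ^ 2 * k ∣ m}.biUnion
        fun m => F (3 * #k.divisors * Real.log N) m) ?_) ?_
  · rintro ⟨u, v⟩ hp
    obtain ⟨a1, h, h', ⟨q, hq, a2⟩, a3⟩ := mem_filter.1 hp
    obtain ⟨hu, hv, a4⟩ := mem_hyp.1 a1
    have hu0 : u ≠ 0 := Nat.one_le_iff_ne_zero.1 hu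
    have hv0 : v ≠ 0 := Nat.one_le_iff_ne_zero.1 hv
    have hm := mul_ne_zero hu0 hv0
    obtain ⟨q1, -, q3⟩ := mem_pr.1 hq
    obtain ⟨k, k0, k1, k2, k3⟩ := decomp hu0 hv0 h h' q1 q3 a2
    have b2 : q ^ 2 * k ≤ N := by
      have : Real.log ((q ^ 2 * k : ℕ) : ℝ) ≤ Real.log N := by linarith
      rwa [Real.log_le_log_iff (Nat.cast_pos.2
        (Nat.mul_pos (pow_pos q1.pos 2) (Nat.pos_of_ne_zero k0))) hN, Nat.cast_le] at this
    refine mem_biUnion.2 ⟨q, hq, mem_biUnion.2 ⟨k, mem_filter.2 ⟨mem_Icc.2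
      ⟨Nat.pos_of_ne_zero k0, (Nat.le_mul_of_pos_left k (pow_pos q1.pos 2)).trans b2⟩, k2⟩,
      mem_biUnion.2 ⟨u * v, mem_filter.2 ⟨mem_Icc.2 ⟨Nat.pos_of_ne_zero hm, Nat.le_floor a4⟩, a3,
        k1⟩, ?_⟩⟩⟩
    rw [F, if_pos (k3.trans (mul_le_mul_of_nonneg_left hB (h3 k)))]
    exact Nat.mem_divisorsAntidiagonal.2 ⟨rfl, hm⟩
  have h4 : 0 ≤ 3 * C * N * Real.log N := by positivity
  refine (cb _ _ (fun q : ℕ => ((q : ℝ) ^ 2)⁻¹ *
    (3 * C * N * Real.log N * (1 + Real.log N) ^ 2)) fun q hq => ?_).trans ?_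
  · have q1 := (mem_pr.1 hq).1
    refine (cb _ _ (fun k : ℕ => ((q : ℝ) ^ 2)⁻¹ * (3 * C * N * Real.log N * (#k.divisors / k)))
      fun k hk => ?_).trans ?_
    · obtain ⟨k1, k2⟩ := mem_filter.1 hk
      have h5 := mul_nonneg (h3 k) hL0.le
      refine (cb _ _ _ fun m _ => card_F h5 m).trans ?_
      rw [sum_const, nsmul_eq_mul]
      refine (mul_le_mul_of_nonneg_right (h1 _ (Nat.mul_pos (pow_pos q1.pos 2) (mem_Icc.1 k1).1)
        k2).1 h5).trans_eq ?_
      push_cast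
      ring
    · rw [← mul_sum, ← mul_sum]
      refine mul_le_mul_of_nonneg_left (mul_le_mul_of_nonneg_left (le_trans ?_ (sum_div N))
        h4) (inv_nonneg.2 (sq_nonneg _))
      exact sum_le_sum_of_subset_of_nonneg (filter_subset _ _) fun _ _ _ =>
        div_nonneg (Nat.cast_nonneg _) (Nat.cast_nonneg _)
  · rw [← sum_mul]
    refine (mul_le_mul_of_nonneg_right (sum_sq (w := ww N) (pow_pos hL0 4) _)
      (mul_nonneg h4 (sq_nonneg _))).trans ?_
    rw [div_le_iff₀ hε] at t3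
    rw [ww, div_mul_eq_mul_div, div_le_iff₀ (pow_pos hL0 4)]
    have e1 : (1 + Real.log N) ^ 2 ≤ (2 * Real.log N) ^ 2 :=
      pow_le_pow_left₀ (by linarith) (by linarith) 2
    calc _ ≤ 2 * (3 * C * N * Real.log N * (2 * Real.log N) ^ 2) :=
          mul_le_mul_of_nonneg_left (mul_le_mul_of_nonneg_left e1 h4) zero_le_two
      _ = 24 * C * (N * Real.log N ^ 3) := by ring
      _ ≤ Real.log N * ε * (N * Real.log N ^ 3) :=
          mul_le_mul_of_nonneg_right t3 (mul_nonneg hN.le (pow_pos hL0 3).le)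
      _ = _ := by ring

end Pool.Agent.Lib.MP_30b5ba_nt.P
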