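import Pool.Agent.Lib.MP_30b5ba_nt.P.Param

/-!
Comparison of two windows on the good integers.
-/

namespace Pool.Agent.Lib.MP_30b5ba_nt.P

open Finset Filter Topology MeasureTheory
open scoped Classical

namespace Good

theorem sum_div {m n : ℕ} (h : m.Coprime n) (f : ℕ → ℝ) :
    ∑ u ∈ (m * n).divisors, f u = ∑ e ∈ n.divisors, ∑ d ∈ m.divisors, f (d * e) := by
  rw [Nat.divisors_mul, Finset.mul_def, sum_image h.mul_injOn_divisors, sum_product, sum_comm]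

theorem int_psi (β l : ℝ) : Integrable (psi β l) := by
  have h : Integrable (win β) :=
    (integrableOn_const (C := (1 : ℝ)) measure_Ico_lt_top.ne).integrable_indicator measurableSet_Ico
  exact h.sub (h.comp_add_right l)

theorem int_dv (β l : ℝ) (a : ℕ) : Integrable (dv β l a) :=
  integrable_finsetSum _ fun d _ => (int_psi β l).comp_sub_left (Real.log d)

theorem inner (β l x₀ : ℝ) {η : ℝ} (h0 : 0 ≤ η) (a : ℕ) {k : ℕ} (hk : k ≠ 0) :
    |∑ d ∈ a.divisors, phi β l η x₀ (d * k)| ≤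
      ∫ s, (Set.Ioc (x₀ - Real.log k) (η + (x₀ - Real.log k))).indicator
        (fun s => |dv β l a s|) s := by
  have e : ∑ d ∈ a.divisors, phi β l η x₀ (d * k) =
      ∫ s in (0 : ℝ)..η, dv β l a (s + (x₀ - Real.log k)) := by
    unfold phi dv
    rw [← intervalIntegral.integral_finsetSum fun d _ =>
      ((int_psi β l).comp_sub_left _).intervalIntegrable]
    refine intervalIntegral.integral_congr fun s _ => sum_congr rfl fun d hd => ?_
    have hd0 : (d : ℝ) ≠ 0 := by exact_mod_cast (Nat.pos_of_mem_divisors hd).ne'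
    rw [Nat.cast_mul, Real.log_mul hd0 (by exact_mod_cast hk)]
    congr 1
    ring
  rw [e, intervalIntegral.integral_comp_add_right, zero_add, integral_indicator measurableSet_Ioc,
    ← intervalIntegral.integral_of_le (by linarith)]
  exact intervalIntegral.abs_integral_le_integral_abs (by linarith)

theorem key (β l x₀ : ℝ) {η Δ : ℝ} (h0 : 0 ≤ η) (h1 : η ≤ 1) {a n b : ℕ} (han : a.Coprime n)
    (hb : (a * n).Coprime b)
    (hΔ : ∀ s : ℝ, (#{d ∈ n.divisors | Real.log ((d : ℕ) : ℝ) ∈ Set.Icc s (s + 1)} : ℝ) ≤ Δ) :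
    |∑ u ∈ (a * n * b).divisors, phi β l η x₀ u| ≤ #b.divisors * (Δ * ∫ s, |dv β l a s|) := by
  rw [sum_div hb, ← nsmul_eq_mul]
  refine (abs_sum_le_sum_abs _ _).trans (sum_le_card_nsmul _ _ _ fun e he => ?_)
  have he0 : e ≠ 0 := (Nat.pos_of_mem_divisors he).ne'
  have hi := (int_dv β l a).abs
  rw [sum_div han fun u => phi β l η x₀ (u * e)]
  simp only [mul_assoc]
  refine (abs_sum_le_sum_abs _ _).trans ((sum_le_sum fun d hd => inner β l x₀ h0 a
    (mul_ne_zero (Nat.pos_of_mem_divisors hd).ne' he0)).trans ?_)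
  rw [← integral_finsetSum _ fun d _ => hi.indicator measurableSet_Ioc, ← integral_const_mul]
  refine integral_mono (integrable_finsetSum _ fun d _ => hi.indicator measurableSet_Ioc)
    (hi.const_mul _) fun s => ?_
  refine le_trans ?_ (mul_le_mul_of_nonneg_right (hΔ (x₀ - Real.log e - s)) (abs_nonneg _))
  rw [← nsmul_eq_mul, ← sum_const, sum_filter]
  refine sum_le_sum fun d hd => ?_
  have hd0 : (d : ℝ) ≠ 0 := by exact_mod_cast (Nat.pos_of_mem_divisors hd).ne'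
  rw [Nat.cast_mul, Real.log_mul hd0 (by exact_mod_cast he0)]
  by_cases hs : s ∈ Set.Ioc (x₀ - (Real.log d + Real.log e)) (η + (x₀ - (Real.log d + Real.log e)))
  · rw [Set.indicator_of_mem hs, if_pos ⟨by linarith [hs.1], by linarith [hs.2]⟩]
  · rw [Set.indicator_of_notMem hs]
    split_ifs
    · exact abs_nonneg _
    · exact le_rfl

theorem cop {N a b : ℕ} {S : Finset ℕ} (hy : y0 N ≤ yy N) (hS : S ⊆ pr (y0 N) (yy N))
    (ha : ∀ p : ℕ, p.Prime → p ∣ a → (p : ℝ) ≤ y0 N)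
    (hb : ∀ p : ℕ, p.Prime → p ∣ b → yy N < p) :
    a.Coprime (∏ p ∈ S, p) ∧ (a * ∏ p ∈ S, p).Coprime b := by
  have h : ∀ q : ℕ, q.Prime → q ∣ ∏ p ∈ S, p → y0 N < q ∧ (q : ℝ) ≤ yy N := fun q hq hd => by
    obtain ⟨r, hr, hqr⟩ := (hq.prime.dvd_finsetProd_iff _).1 hd
    have h1 := mem_pr.1 (hS hr)
    rw [(Nat.prime_dvd_prime_iff_eq hq h1.1).1 hqr]
    exact h1.2
  refine ⟨Nat.coprime_of_dvd fun q hq h1 h2 => ?_, Nat.coprime_of_dvd fun q hq h1 h2 => ?_⟩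
  · linarith [ha q hq h1, (h q hq h2).1]
  · rcases (Nat.Prime.dvd_mul hq).1 h1 with h3 | h3
    · linarith [ha q hq h3, hb q hq h2]
    · linarith [(h q hq h3).2, hb q hq h2]

end Good

open Good in
theorem good (h1 : A0Stmt) (h2 : A1Stmt) (h3 : SieveStmt) : GoodStmt := by
  intro c α hc hα β l η μ ε hβ hl η0 η1 hμ hε
  obtain ⟨C, hC, hs⟩ := h3 c α hc hα μ hμ
  filter_upwards [h1 β l hβ hl, h2, hs, ordered, tendsto_TT.eventually_ge_atTop 1,
    ev_TT_rpow (C / ε) (show (0.985 : ℝ) < 1 by norm_num)] with N hA0 ⟨Δ, hΔ, hA1⟩ hs ho hT hε' x₀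
  have hT0 : 0 < TT N := by linarith
  set I : ℕ → ℝ := fun a => ∫ s, |dv β l a s| with hI
  have hI0 : ∀ a, 0 ≤ I a := fun a => integral_nonneg fun s => abs_nonneg _
  have hΔ0 : ∀ S ∈ A1 N, 0 ≤ Δ S := fun S hS => (Nat.cast_nonneg _).trans (hΔ S hS 0)
  set D : ℝ := (2 : ℝ) ^ (0.002 * tt N) with hD
  have hD0 : 0 ≤ D := by positivity
  have hD1 : D ≤ TT N ^ (0.002 : ℝ) := by
    rw [hD, two_rpow_tt hT0]
    exact Real.rpow_le_rpow_of_exponent_le hT (by linarith [Real.log_two_lt_d9])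
  set P := {q ∈ A0 N ×ˢ A1 N | Real.log ((q.1 * ∏ p ∈ q.2, p : ℕ) : ℝ) ≤ Real.log N / 20} with hP
  set Q : ℕ × Finset ℕ → ℕ → Prop := fun q m => Arc 0 (1 / N) (α * ((m : ℕ) : ℝ)) ∧
    ∃ b : ℕ, m = (q.1 * ∏ p ∈ q.2, p) * b ∧ ∀ p : ℕ, p.Prime → p ∣ b → yy N < p with hQ
  have hw : ∀ q ∈ P, 0 ≤ D * (Δ q.2 * I q.1) := fun q hq =>
    mul_nonneg hD0 (mul_nonneg (hΔ0 _ (mem_product.1 (mem_filter.1 hq).1).2) (hI0 _))
  have hw' : ∀ m, ∀ q ∈ P, 0 ≤ if Q q m then D * (Δ q.2 * I q.1) else 0 := fun m q hq => by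
    split_ifs
    · exact hw q hq
    · exact le_rfl
  have hpos : ∀ S ∈ A1 N, ∀ p ∈ S, 0 < p := fun S hS p hp =>
    (mem_pr.1 (mem_powerset.1 (mem_filter.1 hS).1 hp)).1.pos
  calc _ ≤ ∑ m ∈ Icc 1 ⌊μ * N ^ 2⌋₊ with Arc 0 (1 / N) (α * ((m : ℕ) : ℝ)) ∧ Gd N m,
          ∑ q ∈ P, if Q q m then D * (Δ q.2 * I q.1) else 0 := by
        refine sum_le_sum fun m hm => ?_
        obtain ⟨-, hm1, a, S, b, rfl, ha, hS, ha', hb', hlog, hdiv⟩ := mem_filter.1 hm
        obtain ⟨c1, c2⟩ := cop ho.2.2 (mem_powerset.1 (mem_filter.1 hS).1) ha' hb'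
        have hq : (a, S) ∈ P := mem_filter.2 ⟨mem_product.2 ⟨ha, hS⟩, hlog⟩
        refine le_trans ?_ (single_le_sum (hw' _) hq)
        rw [if_pos ⟨hm1, b, rfl, hb'⟩]
        exact (key β l x₀ η0 η1 c1 c2 (hΔ S hS)).trans
          (mul_le_mul_of_nonneg_right hdiv (mul_nonneg (hΔ0 S hS) (hI0 a)))
    _ ≤ ∑ m ∈ Icc 1 ⌊μ * N ^ 2⌋₊, ∑ q ∈ P, if Q q m then D * (Δ q.2 * I q.1) else 0 :=
        sum_le_sum_of_subset_of_nonneg (filter_subset _ _) fun m _ _ => sum_nonneg (hw' m)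
    _ ≤ ∑ q ∈ P, C * N / TT N * D * (I q.1 / q.1 * (Δ q.2 / ∏ p ∈ q.2, (p : ℝ))) := by
        rw [sum_comm]
        refine sum_le_sum fun q hq => ?_
        obtain ⟨hq1, hq2⟩ := mem_filter.1 hq
        obtain ⟨ha, hS⟩ := mem_product.1 hq1
        have ha1 : 1 ≤ q.1 := (mem_Icc.1 (mem_filter.1 ha).1).1
        rw [← sum_filter, sum_const, nsmul_eq_mul]
        refine (mul_le_mul_of_nonneg_right
          (hs _ (Nat.mul_pos ha1 (prod_pos (hpos _ hS))) hq2).2 (hw q hq)).trans (le_of_eq ?_)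
        push_cast
        ring
    _ ≤ ∑ q ∈ A0 N ×ˢ A1 N, C * N / TT N * D * (I q.1 / q.1 * (Δ q.2 / ∏ p ∈ q.2, (p : ℝ))) :=
        sum_le_sum_of_subset_of_nonneg (filter_subset _ _) fun q hq _ => by
          have := hΔ0 _ (mem_product.1 hq).2
          have := hI0 q.1
          positivity
    _ = C * N / TT N * D * ((∑ a ∈ A0 N, I a / a) * ∑ S ∈ A1 N, Δ S / ∏ p ∈ S, (p : ℝ)) := by
        rw [← mul_sum, sum_mul_sum, sum_product]
    _ ≤ C * N / TT N * TT N ^ (0.002 : ℝ) * (TT N ^ (0.546 : ℝ) * TT N ^ (0.437 : ℝ)) := by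
        have : 0 ≤ ∑ S ∈ A1 N, Δ S / ∏ p ∈ S, (p : ℝ) :=
          sum_nonneg fun S hS => div_nonneg (hΔ0 S hS) (by positivity)
        have : 0 ≤ ∑ a ∈ A0 N, I a / a := sum_nonneg fun a _ => div_nonneg (hI0 a) (by positivity)
        gcongr
    _ = ε * N * (C / ε * TT N ^ (0.985 : ℝ) / TT N) := by
        rw [show (0.985 : ℝ) = 0.002 + (0.546 + 0.437) by norm_num, Real.rpow_add hT0,
          Real.rpow_add hT0]
        field_simp
    _ ≤ ε * N * 1 := by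
        rw [Real.rpow_one] at hε'
        gcongr
        exact (div_le_one hT0).2 hε'
    _ = ε * N := mul_one _

end Pool.Agent.Lib.MP_30b5ba_nt.P
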