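import Pool.Agent.Lib.MP_30b5ba_nt.P.Param

/-! From the count in balanced boxes to the count over pairs `j < i`. -/

namespace Pool.Agent.Lib.MP_30b5ba_nt.P

open Finset Filter Topology MeasureTheory
open scoped Classical

namespace Half

/-- the pairs counted by `box` -/
noncomputable def bset (α a b : ℝ) (N : ℕ) (A B μ : ℝ) : Finset (ℕ × ℕ) :=
  {p ∈ hyp (μ * N ^ 2) | A * N ≤ p.1 ∧ (p.1 : ℝ) < B * N ∧
    Arc (a / N) (b / N) (α * ((p.1 * p.2 : ℕ) : ℝ))}

theorem mem_bset {α a b : ℝ} {N : ℕ} {A B μ : ℝ} {p : ℕ × ℕ} : p ∈ bset α a b N A B μ ↔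
    (1 ≤ p.1 ∧ 1 ≤ p.2 ∧ ((p.1 * p.2 : ℕ) : ℝ) ≤ μ * N ^ 2) ∧ A * N ≤ p.1 ∧ (p.1 : ℝ) < B * N ∧
      Arc (a / N) (b / N) (α * ((p.1 * p.2 : ℕ) : ℝ)) := by
  rw [bset, mem_filter, mem_hyp]

theorem bad_mul {c α : ℝ} (h : Bad c α) {k : ℕ} (hk : 1 ≤ k) : Bad (c / k) (k * α) := by
  intro m hm z
  have h1 := h (k * m) (Nat.mul_pos hk hm) z
  have hk' : (0 : ℝ) < k := by exact_mod_cast hk
  rw [div_le_iff₀ hk']
  have e : α * ((k * m : ℕ) : ℝ) = k * α * m := by push_cast; ring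
  rw [e] at h1
  push_cast at h1
  linarith

theorem card_dvd (α a b : ℝ) (N : ℕ) (A B μ : ℝ) {k l : ℕ} (hk : 1 ≤ k) (hl : 1 ≤ l) :
    #{p ∈ bset α a b N A B μ | k ∣ p.1 ∧ l ∣ p.2} =
      box (((k * l : ℕ) : ℝ) * α) a b N (A / k) (B / k) (μ / ((k * l : ℕ) : ℝ)) := by
  have hk' : (0 : ℝ) < k := by exact_mod_cast hk
  have hl' : (0 : ℝ) < l := by exact_mod_cast hl
  have key : ∀ x y : ℕ, (k * x, l * y) ∈ bset α a b N A B μ ↔
      (x, y) ∈ bset (((k * l : ℕ) : ℝ) * α) a b N (A / k) (B / k) (μ / ((k * l : ℕ) : ℝ)) := by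
    intro x y
    rw [mem_bset, mem_bset]
    dsimp only
    have e1 : 1 ≤ k * x ↔ 1 ≤ x := ⟨fun h => Nat.pos_of_mul_pos_left h, fun h => Nat.mul_pos hk h⟩
    have e2 : 1 ≤ l * y ↔ 1 ≤ y := ⟨fun h => Nat.pos_of_mul_pos_left h, fun h => Nat.mul_pos hl h⟩
    have e3 : ((k * x * (l * y) : ℕ) : ℝ) ≤ μ * N ^ 2 ↔
        ((x * y : ℕ) : ℝ) ≤ μ / ((k * l : ℕ) : ℝ) * N ^ 2 := by
      rw [div_mul_eq_mul_div, le_div_iff₀ (by push_cast; positivity)]
      push_cast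
      rw [show (x : ℝ) * y * (k * l) = k * x * (l * y) by ring]
    have e4 : A * N ≤ ((k * x : ℕ) : ℝ) ↔ A / k * N ≤ x := by
      rw [div_mul_eq_mul_div, div_le_iff₀ hk']
      push_cast
      rw [mul_comm (x : ℝ)]
    have e5 : ((k * x : ℕ) : ℝ) < B * N ↔ (x : ℝ) < B / k * N := by
      rw [div_mul_eq_mul_div, lt_div_iff₀ hk']
      push_cast
      rw [mul_comm (x : ℝ)]
    have e6 : α * ((k * x * (l * y) : ℕ) : ℝ) = ((k * l : ℕ) : ℝ) * α * ((x * y : ℕ) : ℝ) := by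
      push_cast
      ring
    rw [e1, e2, e3, e4, e5, e6]
  symm
  refine card_bij (s := bset (((k * l : ℕ) : ℝ) * α) a b N (A / k) (B / k) (μ / ((k * l : ℕ) : ℝ)))
    (fun p _ => (k * p.1, l * p.2)) (fun p hp => ?_) (fun p _ q _ h => ?_) (fun p hp => ?_)
  · exact mem_filter.2 ⟨(key p.1 p.2).2 hp, dvd_mul_right _ _, dvd_mul_right _ _⟩
  · rw [Prod.mk.injEq] at h
    exact Prod.ext (Nat.eq_of_mul_eq_mul_left hk h.1) (Nat.eq_of_mul_eq_mul_left hl h.2)
  · obtain ⟨v, u⟩ := p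
    obtain ⟨h1, ⟨x, hx⟩, ⟨y, hy⟩⟩ := mem_filter.1 hp
    dsimp only at hx hy
    subst hx hy
    exact ⟨(x, y), (key x y).1 h1, rfl⟩

/-- the pairs of the same parity in a box -/
noncomputable def sset (α a b : ℝ) (N : ℕ) (A B μ : ℝ) : Finset (ℕ × ℕ) :=
  {p ∈ bset α a b N A B μ | p.1 % 2 = p.2 % 2}

theorem card_parity (s : Finset (ℕ × ℕ)) :
    #{p ∈ s | p.1 % 2 = p.2 % 2} + #{p ∈ s | 2 ∣ p.1 ∧ 1 ∣ p.2} + #{p ∈ s | 1 ∣ p.1 ∧ 2 ∣ p.2} =
      #{p ∈ s | 1 ∣ p.1 ∧ 1 ∣ p.2} + 2 * #{p ∈ s | 2 ∣ p.1 ∧ 2 ∣ p.2} := by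
  simp only [card_filter, mul_sum, ← sum_add_distrib]
  refine sum_congr rfl fun p _ => ?_
  split_ifs <;> omega

theorem sset_lim (h1 : BoxStmt) {c α : ℝ} (hc : 0 < c) (hα : Bad c α) {a b A B μ : ℝ}
    (ha : 0 ≤ a) (hab : a ≤ b) (hb : b ≤ 1) (hA : 0 < A) (hAB : A < B) (hμ : 0 ≤ μ) :
    Tendsto (fun N : ℕ => (#(sset α a b N A B μ) : ℝ) / N) atTop
      (𝓝 (Real.log (B / A) * μ * (b - a) / 2)) := by
  have key : ∀ k l : ℕ, 1 ≤ k → 1 ≤ l → Tendsto (fun N : ℕ =>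
      (#{p ∈ bset α a b N A B μ | k ∣ p.1 ∧ l ∣ p.2} : ℝ) / N) atTop
      (𝓝 (Real.log (B / A) * μ * (b - a) / (k * l))) := by
    intro k l hk hl
    have hk' : (0 : ℝ) < k := by exact_mod_cast hk
    have hl' : (0 : ℝ) < l := by exact_mod_cast hl
    have h := h1 (c / ((k * l : ℕ) : ℝ)) (((k * l : ℕ) : ℝ) * α) (by push_cast; positivity)
      (bad_mul hα (Nat.mul_pos hk hl)) a b (A / k) (B / k) (μ / ((k * l : ℕ) : ℝ)) ha hab hb
      (by positivity) (div_lt_div_of_pos_right hAB hk') (by positivity)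
    have e : Real.log (B / k / (A / k)) * (μ / ((k * l : ℕ) : ℝ)) * (b - a) =
        Real.log (B / A) * μ * (b - a) / (k * l) := by
      rw [div_div_div_cancel_right₀ hk'.ne']
      push_cast
      ring
    rw [e] at h
    simpa only [card_dvd α a b _ A B μ hk hl] using h
  have h := (((key 1 1 le_rfl le_rfl).add ((key 2 2 one_le_two one_le_two).const_mul 2)).sub
    (key 2 1 one_le_two le_rfl)).sub (key 1 2 le_rfl one_le_two)
  have e : Real.log (B / A) * μ * (b - a) / (((1 : ℕ) : ℝ) * ((1 : ℕ) : ℝ)) +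
      2 * (Real.log (B / A) * μ * (b - a) / (((2 : ℕ) : ℝ) * ((2 : ℕ) : ℝ))) -
      Real.log (B / A) * μ * (b - a) / (((2 : ℕ) : ℝ) * ((1 : ℕ) : ℝ)) -
      Real.log (B / A) * μ * (b - a) / (((1 : ℕ) : ℝ) * ((2 : ℕ) : ℝ)) =
      Real.log (B / A) * μ * (b - a) / 2 := by
    push_cast
    ring
  rw [e] at h
  refine h.congr fun N => ?_
  have h2 := congrArg (Nat.cast : ℕ → ℝ) (card_parity (bset α a b N A B μ))
  push_cast at h2
  rw [sset, ← mul_div_assoc, ← add_div, ← sub_div, ← sub_div]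
  congr 1
  linarith

/-- the pairs `(i + j, i - j)` -/
noncomputable def tri (α a b : ℝ) (N : ℕ) : Finset (ℕ × ℕ) :=
  {p ∈ Icc 1 (2 * N) ×ˢ Icc 1 (2 * N) | p.2 < p.1 ∧ p.1 + p.2 ≤ 2 * N ∧ p.1 % 2 = p.2 % 2 ∧
    Arc (a / N) (b / N) (α * ((p.1 * p.2 : ℕ) : ℝ))}

theorem mem_tri {α a b : ℝ} {N : ℕ} {p : ℕ × ℕ} : p ∈ tri α a b N ↔
    1 ≤ p.2 ∧ p.2 < p.1 ∧ p.1 + p.2 ≤ 2 * N ∧ p.1 % 2 = p.2 % 2 ∧
      Arc (a / N) (b / N) (α * ((p.1 * p.2 : ℕ) : ℝ)) := by
  rw [tri, mem_filter, mem_product, mem_Icc, mem_Icc]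
  constructor
  · rintro ⟨⟨-, h1, -⟩, h2⟩
    exact ⟨h1, h2⟩
  · rintro ⟨h1, h2, h3, h4⟩
    exact ⟨⟨⟨by omega, by omega⟩, h1, by omega⟩, h2, h3, h4⟩

theorem card_tri (α a b : ℝ) (N : ℕ) :
    #{p ∈ Icc 1 N ×ˢ Icc 1 N | p.2 < p.1 ∧
      Arc (a / N) (b / N) (α * p.1 ^ 2 - α * p.2 ^ 2)} = #(tri α a b N) := by
  have e : ∀ i j : ℕ, j < i →
      α * (((i + j) * (i - j) : ℕ) : ℝ) = α * (i : ℝ) ^ 2 - α * (j : ℝ) ^ 2 := by
    intro i j h
    push_cast [Nat.cast_sub h.le]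
    ring
  refine card_bij (fun p _ => (p.1 + p.2, p.1 - p.2)) (fun p hp => ?_) (fun p hp q hq h => ?_)
    (fun p hp => ?_)
  · rw [mem_filter, mem_product, mem_Icc, mem_Icc] at hp
    rw [mem_tri]
    dsimp only
    rw [e _ _ hp.2.1]
    exact ⟨by omega, by omega, by omega, by omega, hp.2.2⟩
  · rw [mem_filter] at hp hq
    rw [Prod.mk.injEq] at h
    exact Prod.ext (by omega) (by omega)
  · obtain ⟨v, u⟩ := p
    rw [mem_tri] at hp
    dsimp only at hp
    have e1 : (v + u) / 2 + (v - u) / 2 = v := by omega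
    have e2 : (v + u) / 2 - (v - u) / 2 = u := by omega
    refine ⟨((v + u) / 2, (v - u) / 2), ?_, by rw [e1, e2]⟩
    rw [mem_filter, mem_product, mem_Icc, mem_Icc]
    dsimp only
    rw [← e _ _ (by omega), e1, e2]
    exact ⟨⟨⟨by omega, by omega⟩, by omega, by omega⟩, by omega, hp.2.2.2.2⟩

theorem sum_min (n : ℕ) : ∑ k ∈ range (2 * n), min (k : ℝ) (2 * n - k) = n ^ 2 := by
  induction n with
  | zero => simp
  | succ n ih =>
    rw [show 2 * (n + 1) = 2 * n + 1 + 1 by ring, sum_range_succ', sum_range_succ]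
    have e : ∀ k : ℕ, min ((k + 1 : ℕ) : ℝ) (2 * ((n + 1 : ℕ) : ℝ) - ((k + 1 : ℕ) : ℝ)) =
        min (k : ℝ) (2 * n - k) + 1 := by
      intro k
      rw [← min_add_add_right]
      push_cast
      congr 1
      ring
    have hn : (0 : ℝ) ≤ n := n.cast_nonneg
    simp only [e, sum_add_distrib, ih, sum_const, card_range, nsmul_eq_mul]
    push_cast
    rw [sub_self, min_eq_right (by positivity), min_eq_left (by linarith)]
    ring

theorem sum_min' {n : ℕ} (hn : 1 ≤ n) :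
    ∑ k ∈ Ico 1 (2 * n), min (k : ℝ) (2 * n - k) = n ^ 2 := by
  have h := sum_min n
  rw [range_eq_Ico, sum_eq_sum_Ico_succ_bot (by omega)] at h
  simpa using h

theorem fib_iff {N n k v : ℕ} (hN : 1 ≤ N) (hn : 1 ≤ n) :
    v * n / N = k ↔ (k : ℝ) / n * N ≤ v ∧ (v : ℝ) < ((k : ℝ) + 1) / n * N := by
  have hn' : (0 : ℝ) < n := by exact_mod_cast hn
  rw [div_mul_eq_mul_div, div_mul_eq_mul_div, div_le_iff₀ hn', lt_div_iff₀ hn', le_antisymm_iff,
    ← Nat.lt_succ_iff, Nat.div_lt_iff_lt_mul hN, Nat.le_div_iff_mul_le hN, and_comm]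
  norm_cast

theorem card_split (α a b : ℝ) {N n : ℕ} (hN : 1 ≤ N) (hn : 1 ≤ n) :
    #(tri α a b N) = #{p ∈ tri α a b N | p.1 * n / N = 0} +
      ∑ k ∈ Ico 1 (2 * n), #{p ∈ tri α a b N | p.1 * n / N = k} := by
  rw [card_eq_sum_card_fiberwise (f := fun p : ℕ × ℕ => p.1 * n / N) (t := range (2 * n)),
    range_eq_Ico, sum_eq_sum_Ico_succ_bot (by omega)]
  intro p hp
  have h := mem_tri.1 (mem_coe.1 hp)
  rw [mem_coe, mem_range, Nat.div_lt_iff_lt_mul hN]
  have : p.1 < 2 * N := by omega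
  nlinarith

theorem fib_sub {α a b : ℝ} {N n k : ℕ} (hN : 1 ≤ N) (hn : 1 ≤ n) :
    {p ∈ tri α a b N | p.1 * n / N = k} ⊆ sset α a b N (k / n) ((k + 1) / n)
      ((k + 1) / n * ((min (k : ℝ) (2 * n - k) + 1) / n)) := by
  intro p hp
  rw [mem_filter, mem_tri, fib_iff hN hn] at hp
  obtain ⟨⟨h1, h2, h3, h4, h5⟩, h6, h7⟩ := hp
  have hn' : (0 : ℝ) < n := by exact_mod_cast hn
  have hN' : (0 : ℝ) < N := by exact_mod_cast hN
  refine mem_filter.2 ⟨mem_bset.2 ⟨⟨by omega, h1, ?_⟩, h6, h7, h5⟩, h4⟩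
  have h2' : (p.2 : ℝ) < p.1 := by exact_mod_cast h2
  have h3' : (p.1 : ℝ) + p.2 ≤ 2 * N := by exact_mod_cast h3
  have h8 : (p.2 : ℝ) ≤ (min (k : ℝ) (2 * n - k) + 1) / n * N := by
    rcases le_total (k : ℝ) (2 * n - k) with h | h
    · rw [min_eq_left h]
      linarith
    · rw [min_eq_right h]
      have e : (2 * (n : ℝ) - k + 1) / n * N = 2 * N - k / n * N + N / n := by
        field_simp
      have : 0 ≤ (N : ℝ) / n := by positivity
      rw [e]
      linarith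
  push_cast
  calc (p.1 : ℝ) * p.2 ≤ (((k : ℝ) + 1) / n * N) * ((min (k : ℝ) (2 * n - k) + 1) / n * N) :=
        mul_le_mul h7.le h8 (by positivity) (by positivity)
    _ = _ := by ring

theorem sub_fib {α a b : ℝ} {N n k : ℕ} (hN : 1 ≤ N) (hn : 1 ≤ n) (hk : 1 ≤ k) :
    sset α a b N (k / n) ((k + 1) / n) (k / n * ((min (k : ℝ) (2 * n - k) - 1) / n)) ⊆
      {p ∈ tri α a b N | p.1 * n / N = k} := by
  intro p hp
  rw [sset, mem_filter, mem_bset] at hp
  obtain ⟨⟨⟨h1, h2, h3⟩, h6, h7, h5⟩, h4⟩ := hp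
  have hn' : (0 : ℝ) < n := by exact_mod_cast hn
  have hN' : (0 : ℝ) < N := by exact_mod_cast hN
  have hk' : (0 : ℝ) < k := by exact_mod_cast hk
  rw [mem_filter, mem_tri, fib_iff hN hn]
  have h8 : (p.2 : ℝ) ≤ (min (k : ℝ) (2 * n - k) - 1) / n * N := by
    have h9 : (0 : ℝ) < k / n * N := by positivity
    refine le_of_mul_le_mul_left ?_ h9
    push_cast at h3
    calc (k : ℝ) / n * N * p.2 ≤ p.1 * p.2 := mul_le_mul_of_nonneg_right h6 (by positivity)
      _ ≤ _ := h3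
      _ = _ := by ring
  have hq : 0 < (N : ℝ) / n := by positivity
  have h10 : (p.2 : ℝ) < p.1 := by
    have : (min (k : ℝ) (2 * n - k) - 1) / n * N ≤ (k - 1) / n * N := by
      gcongr
      exact min_le_left _ _
    have e : ((k : ℝ) - 1) / n * N = k / n * N - N / n := by field_simp
    linarith
  have h11 : (p.1 : ℝ) + p.2 ≤ 2 * N := by
    have : (min (k : ℝ) (2 * n - k) - 1) / n * N ≤ (2 * n - k - 1) / n * N := by
      gcongr
      exact min_le_right _ _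
    have e : (2 * (n : ℝ) - k - 1) / n * N = 2 * N - (k + 1) / n * N := by
      field_simp
      ring
    linarith
  exact ⟨⟨h2, by exact_mod_cast h10, by exact_mod_cast h11, h4, h5⟩, h6, h7⟩

theorem log_bounds {n k : ℕ} (hn : 1 ≤ n) (hk : 1 ≤ k) :
    1 / ((k : ℝ) + 1) ≤ Real.log (((k : ℝ) + 1) / n / (k / n)) ∧
      Real.log (((k : ℝ) + 1) / n / (k / n)) ≤ 1 / k := by
  have hn' : (0 : ℝ) < n := by exact_mod_cast hn
  have hk' : (0 : ℝ) < k := by exact_mod_cast hk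
  rw [div_div_div_cancel_right₀ hn'.ne']
  constructor
  · have h := Real.one_sub_inv_le_log_of_pos (x := ((k : ℝ) + 1) / k) (by positivity)
    refine le_trans (le_of_eq ?_) h
    field_simp
    ring
  · have h := Real.log_le_sub_one_of_pos (x := ((k : ℝ) + 1) / k) (by positivity)
    refine h.trans (le_of_eq ?_)
    field_simp
    ring

theorem one_le_min {n k : ℕ} (hk : k ∈ Ico 1 (2 * n)) : 1 ≤ min (k : ℝ) (2 * n - k) := by
  rw [mem_Ico] at hk
  have h1 : (1 : ℝ) ≤ k := by exact_mod_cast hk.1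
  have h2 : (k : ℝ) + 1 ≤ 2 * n := by exact_mod_cast hk.2
  exact le_min h1 (by linarith)

theorem upper_sum {n : ℕ} (hn : 1 ≤ n) {d : ℝ} (hd : 0 ≤ d) (hd1 : d ≤ 1) :
    ∑ k ∈ Ico 1 (2 * n), Real.log (((k : ℝ) + 1) / n / (k / n)) *
      ((k + 1) / n * ((min (k : ℝ) (2 * n - k) + 1) / n)) * d / 2 ≤ d / 2 + 3 / n := by
  have hn' : (0 : ℝ) < n := by exact_mod_cast hn
  calc _ ≤ ∑ k ∈ Ico 1 (2 * n), (min (k : ℝ) (2 * n - k) + 3) * (d / (2 * n ^ 2)) := by
        refine sum_le_sum fun k hk => ?_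
        have h1 := one_le_min hk
        have hk1 := (mem_Ico.1 hk).1
        have hk' : (1 : ℝ) ≤ k := by exact_mod_cast hk1
        have h2 := min_le_left (k : ℝ) (2 * n - k)
        set m := min (k : ℝ) (2 * n - k)
        have h3 : 1 / k * ((k + 1) * (m + 1)) ≤ m + 3 := by
          rw [div_mul_eq_mul_div, div_le_iff₀ (by positivity)]
          nlinarith
        calc _ = Real.log (((k : ℝ) + 1) / n / (k / n)) * ((k + 1) * (m + 1)) *
              (d / (2 * n ^ 2)) := by ring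
          _ ≤ 1 / k * ((k + 1) * (m + 1)) * (d / (2 * n ^ 2)) := by
              gcongr
              exact (log_bounds hn hk1).2
          _ ≤ _ := by gcongr
    _ = (n ^ 2 + 3 * ((2 * n - 1 : ℕ) : ℝ)) * (d / (2 * n ^ 2)) := by
        rw [← sum_mul, sum_add_distrib, sum_min' hn, sum_const, Nat.card_Ico, nsmul_eq_mul,
          mul_comm _ (3 : ℝ)]
    _ ≤ (n ^ 2 + 3 * (2 * n)) * (d / (2 * n ^ 2)) := by
        gcongr
        exact_mod_cast Nat.sub_le _ _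
    _ = d / 2 + 3 / n * d := by
        field_simp
    _ ≤ _ := by
        have : 0 ≤ 3 / (n : ℝ) := by positivity
        nlinarith

theorem lower_sum {n : ℕ} (hn : 1 ≤ n) {d : ℝ} (hd : 0 ≤ d) (hd1 : d ≤ 1) :
    d / 2 - 2 / n ≤ ∑ k ∈ Ico 1 (2 * n), Real.log (((k : ℝ) + 1) / n / (k / n)) *
      (k / n * ((min (k : ℝ) (2 * n - k) - 1) / n)) * d / 2 := by
  have hn' : (0 : ℝ) < n := by exact_mod_cast hn
  calc _ ≤ d / 2 - 2 / n * d := by
        have : 0 ≤ 2 / (n : ℝ) := by positivity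
        nlinarith
    _ = (n ^ 2 - 2 * (2 * n)) * (d / (2 * n ^ 2)) := by
        field_simp
    _ ≤ (n ^ 2 - 2 * ((2 * n - 1 : ℕ) : ℝ)) * (d / (2 * n ^ 2)) := by
        gcongr
        exact_mod_cast Nat.sub_le _ _
    _ = ∑ k ∈ Ico 1 (2 * n), (min (k : ℝ) (2 * n - k) - 2) * (d / (2 * n ^ 2)) := by
        rw [← sum_mul, sum_sub_distrib, sum_min' hn, sum_const, Nat.card_Ico, nsmul_eq_mul,
          mul_comm _ (2 : ℝ)]
    _ ≤ _ := by
        refine sum_le_sum fun k hk => ?_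
        have h1 := one_le_min hk
        have hk1 := (mem_Ico.1 hk).1
        have hk' : (1 : ℝ) ≤ k := by exact_mod_cast hk1
        have h2 := min_le_left (k : ℝ) (2 * n - k)
        set m := min (k : ℝ) (2 * n - k)
        have h3 : m - 2 ≤ 1 / (k + 1) * (k * (m - 1)) := by
          rw [div_mul_eq_mul_div, le_div_iff₀ (by positivity)]
          nlinarith
        have h4 : 0 ≤ m - 1 := by linarith
        calc _ ≤ 1 / (k + 1) * (k * (m - 1)) * (d / (2 * n ^ 2)) := by gcongr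
          _ ≤ Real.log (((k : ℝ) + 1) / n / (k / n)) * (k * (m - 1)) * (d / (2 * n ^ 2)) := by
              gcongr
              exact (log_bounds hn hk1).1
          _ = _ := by ring

end Half

open Half in
theorem half (h1 : BoxStmt) (h2 : UIStmt) : HalfStmt := by
  intro c α hc hα a b ha hab hb
  simp only [card_tri]
  have hd : 0 ≤ b - a := by linarith
  have hd1 : b - a ≤ 1 := by linarith
  have hlim : ∀ n : ℕ, 1 ≤ n → ∀ μ : ℕ → ℝ, (∀ k ∈ Ico 1 (2 * n), 0 ≤ μ k) →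
      Tendsto (fun N : ℕ => ∑ k ∈ Ico 1 (2 * n),
        (#(sset α a b N (k / n) ((k + 1) / n) (μ k)) : ℝ) / N) atTop
        (𝓝 (∑ k ∈ Ico 1 (2 * n),
          Real.log (((k : ℝ) + 1) / n / (k / n)) * μ k * (b - a) / 2)) := by
    intro n hn μ hμ
    refine tendsto_finsetSum _ fun k hk => ?_
    have hn' : (0 : ℝ) < n := by exact_mod_cast hn
    have hk' : (0 : ℝ) < k := by exact_mod_cast (mem_Ico.1 hk).1
    exact sset_lim h1 hc hα ha hab hb (by positivity)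
      (div_lt_div_of_pos_right (by linarith) hn') (hμ k hk)
  refine tendsto_order.2 ⟨fun l hl => ?_, fun u hu => ?_⟩
  · obtain ⟨n, hn⟩ := exists_nat_gt (2 / ((b - a) / 2 - l))
    have h0 : 0 < (b - a) / 2 - l := by linarith
    have hn' : (0 : ℝ) < n := lt_trans (by positivity) hn
    have hn1 : 1 ≤ n := by exact_mod_cast hn'
    have h3 : 2 / (n : ℝ) < (b - a) / 2 - l := by
      rw [div_lt_iff₀ h0] at hn
      rw [div_lt_iff₀ hn']
      linarith
    have h4 := hlim n hn1 (fun k => k / n * ((min (k : ℝ) (2 * n - k) - 1) / n)) fun k hk => by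
      have := one_le_min hk
      have : 0 ≤ min (k : ℝ) (2 * n - k) - 1 := by linarith
      positivity
    have h5 := lower_sum hn1 hd hd1
    filter_upwards [(tendsto_order.1 h4).1 l (by linarith), eventually_ge_atTop 1] with N h6 hN
    refine h6.trans_le ?_
    rw [← sum_div, card_split α a b hN hn1]
    gcongr
    push_cast
    refine le_trans (sum_le_sum fun k hk => ?_) (le_add_of_nonneg_left (by positivity))
    exact_mod_cast card_le_card (sub_fib hN hn1 (mem_Ico.1 hk).1)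
  · have h0 : 0 < (u - (b - a) / 2) / 2 := by linarith
    set ε := (u - (b - a) / 2) / 2 with hε
    obtain ⟨δ, hδ, h7⟩ := h2 c α hc hα 2 ε one_le_two h0
    obtain ⟨n, hn⟩ := exists_nat_gt (max (3 / ε) (1 / δ))
    have hn' : (0 : ℝ) < n := lt_trans (lt_max_of_lt_left (by positivity)) hn
    have hn1 : 1 ≤ n := by exact_mod_cast hn'
    have h3 : 3 / (n : ℝ) < ε := by
      have := (le_max_left _ _).trans_lt hn
      rw [div_lt_iff₀ h0] at this
      rw [div_lt_iff₀ hn']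
      linarith
    have h3' : 1 / (n : ℝ) ≤ δ := by
      have := (le_max_right _ _).trans_lt hn
      rw [div_lt_iff₀ hδ] at this
      rw [div_le_iff₀ hn']
      linarith
    have h4 := hlim n hn1 (fun k => (k + 1) / n * ((min (k : ℝ) (2 * n - k) + 1) / n))
      fun k hk => by
        have := one_le_min hk
        positivity
    have h5 := upper_sum hn1 hd hd1
    filter_upwards [(tendsto_order.1 h4).2 (u - ε) (by linarith), eventually_ge_atTop 1, h7]
      with N h6 hN h8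
    have hN' : (0 : ℝ) < N := by exact_mod_cast hN
    have e2 : ⌊(2 : ℝ) * N⌋₊ = 2 * N := by
      rw [show (2 : ℝ) * N = ((2 * N : ℕ) : ℝ) by push_cast; ring, Nat.floor_natCast]
    rw [e2] at h8
    have h9 := h8 (Icc 1 (N / n)) (Icc_subset_Icc_right ((Nat.div_le_self _ _).trans (by omega)))
      (by
        rw [Nat.card_Icc, Nat.add_sub_cancel]
        calc ((N / n : ℕ) : ℝ) ≤ N / n := Nat.cast_div_le
          _ = 1 / n * N := by ring
          _ ≤ δ * N := by gcongr)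
    have h10 : (#{p ∈ tri α a b N | p.1 * n / N = 0} : ℝ) ≤ ε * N := by
      refine le_trans ?_ h9
      refine Nat.cast_le.2 (card_le_card fun p hp => ?_)
      rw [mem_filter, mem_tri] at hp
      obtain ⟨⟨g1, g2, g3, -, g5⟩, g6⟩ := hp
      rw [mem_filter, mem_product, mem_Icc, mem_Icc]
      have g7 : p.1 * n < N := by
        by_contra g
        have := (Nat.le_div_iff_mul_le hN).2 (show 1 * N ≤ p.1 * n by omega)
        omega
      exact ⟨⟨⟨by omega, (Nat.le_div_iff_mul_le hn1).2 g7.le⟩, g1, by omega⟩,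
        g5.mono (by positivity) (by gcongr)⟩
    rw [← sum_div, div_lt_iff₀ hN'] at h6
    rw [card_split α a b hN hn1, div_lt_iff₀ hN']
    push_cast
    have h11 : ∑ k ∈ Ico 1 (2 * n), (#{p ∈ tri α a b N | p.1 * n / N = k} : ℝ) ≤
        ∑ k ∈ Ico 1 (2 * n), (#(sset α a b N (k / n) ((k + 1) / n)
          ((k + 1) / n * ((min (k : ℝ) (2 * n - k) + 1) / n))) : ℝ) :=
      sum_le_sum fun k _ => by exact_mod_cast card_le_card (fib_sub hN hn1)
    linarith

end Pool.Agent.Lib.MP_30b5ba_nt.P
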