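import Pool.Agent.Lib.MP_30b5ba_nt.P.L2A

/-! The mean square of the window difference. -/

namespace Pool.Agent.Lib.MP_30b5ba_nt.P

open Finset Filter Topology MeasureTheory

namespace L2

/-- the weight -/
noncomputable def wt (σ x : ℝ) : ℝ := x ^ (-(1 + σ))

/-- minus a primitive of the weight -/
noncomputable def pv (σ x : ℝ) : ℝ := x ^ (-σ) / σ

variable {σ : ℝ}

theorem wt_nonneg {x : ℝ} (hx : 0 ≤ x) : 0 ≤ wt σ x := Real.rpow_nonneg hx _

theorem wt_anti (hσ : 0 < σ) {x y : ℝ} (hx : 0 < x) (h : x ≤ y) : wt σ y ≤ wt σ x :=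
  Real.rpow_le_rpow_of_nonpos hx h (by linarith)

theorem pv_sub (hσ : 0 < σ) {x y : ℝ} (hx : 0 < x) (h : x ≤ y) :
    (y - x) * wt σ y ≤ pv σ x - pv σ y ∧ pv σ x - pv σ y ≤ (y - x) * wt σ x := by
  rcases h.eq_or_lt with rfl | h
  · simp
  have hd : ∀ z : ℝ, 0 < z → HasDerivAt (pv σ) (-wt σ z) z := fun z hz => by
    have := (Real.hasDerivAt_rpow_const (p := -σ) (Or.inl hz.ne')).div_const σ
    refine this.congr_deriv ?_
    rw [wt, show -σ - 1 = -(1 + σ) by ring]
    field_simp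
  obtain ⟨z, ⟨h1, h2⟩, h3⟩ := exists_hasDerivAt_eq_slope (pv σ) (fun z => -wt σ z) h
    (fun z hz => (hd z (hx.trans_le hz.1)).continuousAt.continuousWithinAt)
    (fun z hz => hd z (hx.trans hz.1))
  have h4 : pv σ x - pv σ y = (y - x) * wt σ z := by
    rw [eq_div_iff (sub_pos.2 h).ne'] at h3
    linarith
  rw [h4]
  exact ⟨mul_le_mul_of_nonneg_left (wt_anti hσ (hx.trans h1) h2.le) (sub_pos.2 h).le,
    mul_le_mul_of_nonneg_left (wt_anti hσ hx h1.le) (sub_pos.2 h).le⟩

theorem sum_Ico (hσ : 0 < σ) {m n : ℕ} (hm : 1 ≤ m) (h : m ≤ n) :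
    pv σ m - pv σ n ≤ ∑ e ∈ Ico m n, wt σ e ∧
      ∑ e ∈ Ico m n, wt σ e ≤ pv σ m - pv σ n + (wt σ m - wt σ n) := by
  induction n, h using Nat.le_induction with
  | base => simp
  | succ n hn ih =>
    have h0 : (0 : ℝ) < n := by exact_mod_cast hm.trans hn
    have h1 := pv_sub hσ h0 (show (n : ℝ) ≤ n + 1 by linarith)
    rw [add_sub_cancel_left, one_mul, one_mul] at h1
    rw [sum_Ico_succ_top hn]
    push_cast
    constructor <;> linarith [ih.1, ih.2, h1.1, h1.2]

theorem sum_window (hσ : 0 < σ) {A B : ℝ} (hA : 0 < A) (h : A ≤ B) :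
    |∑ e ∈ Ico ⌈A⌉₊ ⌈B⌉₊, wt σ e - (pv σ A - pv σ B)| ≤ 2 * wt σ A := by
  have hB := hA.trans_le h
  obtain ⟨h1, h2⟩ := sum_Ico hσ (Nat.ceil_pos.2 hA) (Nat.ceil_mono h)
  obtain ⟨h3, h4⟩ := pv_sub hσ hA (Nat.le_ceil A)
  obtain ⟨h5, h6⟩ := pv_sub hσ hB (Nat.le_ceil B)
  have a1 := Nat.le_ceil A
  have a2 := Nat.ceil_lt_add_one hA.le
  have b1 := Nat.le_ceil B
  have b2 := Nat.ceil_lt_add_one hB.le
  have w1 : 0 ≤ wt σ ⌈B⌉₊ := wt_nonneg (by positivity)
  have w2 := wt_anti hσ hA a1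
  have w3 := wt_anti hσ hA h
  have w4 : 0 ≤ wt σ ⌈A⌉₊ := wt_nonneg (by positivity)
  have w5 : 0 ≤ wt σ B := wt_nonneg hB.le
  have c1 : 0 ≤ (⌈A⌉₊ - A) * wt σ ⌈A⌉₊ := mul_nonneg (by linarith) w4
  have c2 : (⌈A⌉₊ - A) * wt σ A ≤ wt σ A := mul_le_of_le_one_left (w4.trans w2) (by linarith)
  have c3 : 0 ≤ (⌈B⌉₊ - B) * wt σ ⌈B⌉₊ := mul_nonneg (by linarith) w1
  have c4 : (⌈B⌉₊ - B) * wt σ B ≤ wt σ B := mul_le_of_le_one_left w5 (by linarith)
  rw [abs_le]
  constructor <;> linarith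

theorem wt_zero (hσ : 0 < σ) : wt σ ((0 : ℕ) : ℝ) = 0 := by
  rw [wt, Nat.cast_zero, Real.zero_rpow (by linarith)]

theorem summable_wt (hσ : 0 < σ) : Summable fun n : ℕ => wt σ n :=
  Real.summable_nat_rpow.2 (by linarith)

theorem tsum_wt_le (hσ : 0 < σ) (h1 : σ ≤ 1) : ∑' n : ℕ, wt σ n ≤ 2 / σ := by
  refine Real.tsum_le_of_sum_range_le (fun n => wt_nonneg (by positivity)) fun n => ?_
  rcases Nat.eq_zero_or_pos n with rfl | hn
  · rw [sum_range_zero]
    positivity
  rw [range_eq_Ico, sum_eq_sum_Ico_succ_bot hn, wt_zero hσ, zero_add, zero_add]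
  have h2 := (sum_Ico hσ le_rfl hn).2
  have h3 : 0 ≤ pv σ n := div_nonneg (Real.rpow_nonneg (by positivity) _) hσ.le
  have h4 : 0 ≤ wt σ n := wt_nonneg (by positivity)
  have h5 : 1 ≤ 1 / σ := by rwa [le_div_iff₀ hσ, one_mul]
  simp only [pv, wt, Nat.cast_one, Real.one_rpow] at h2 h3 h4 ⊢
  rw [show 2 / σ = 1 / σ + 1 / σ by ring]
  linarith

theorem win_mem (β x : ℝ) : 0 ≤ win β x ∧ win β x ≤ 1 := by
  rw [win]
  by_cases h : x ∈ Set.Ico 0 β <;> simp [h]

theorem abs_psi_le (β l x : ℝ) : |psi β l x| ≤ 1 := by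
  have h1 := win_mem β x
  have h2 := win_mem β (x + l)
  rw [psi, abs_le]
  constructor <;> linarith [h1.1, h1.2, h2.1, h2.2]

theorem integrable_win (β : ℝ) : Integrable (win β) :=
  (integrable_indicator_iff measurableSet_Ico).2 (integrableOn_const (by simp))

theorem integrable_psi (β l c : ℝ) : Integrable fun s => psi β l (c - s) :=
  ((integrable_win β).sub ((integrable_win β).comp_add_right l)).comp_sub_left c

theorem integrable_mul (β l c c' : ℝ) :
    Integrable fun s => psi β l (c - s) * psi β l (c' - s) :=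
  (integrable_psi β l c').bdd_mul (integrable_psi β l c).1
    (Eventually.of_forall fun _ => abs_psi_le _ _ _)

/-- the windowed sum of the weights -/
theorem tsum_win (hσ : 0 < σ) (β s : ℝ) : ∑' e : ℕ, wt σ e * win β (Real.log e - s) =
    ∑ e ∈ Ico ⌈Real.exp s⌉₊ ⌈Real.exp (s + β)⌉₊, wt σ e := by
  have key : ∀ e : ℕ, e ≠ 0 → (Real.log e - s ∈ Set.Ico 0 β ↔
      e ∈ Ico ⌈Real.exp s⌉₊ ⌈Real.exp (s + β)⌉₊) := fun e he => by
    have h0 : (0 : ℝ) < e := by positivity
    rw [Set.mem_Ico, mem_Ico, Nat.ceil_le, Nat.lt_ceil, ← Real.le_log_iff_exp_le h0,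
      ← Real.log_lt_iff_lt_exp h0, sub_nonneg, sub_lt_iff_lt_add']
  rw [tsum_eq_sum (s := Ico ⌈Real.exp s⌉₊ ⌈Real.exp (s + β)⌉₊)]
  · refine sum_congr rfl fun e he => ?_
    rcases eq_or_ne e 0 with rfl | h
    · rw [wt_zero hσ, zero_mul]
    · rw [win, Set.indicator_of_mem ((key e h).2 he), Pi.one_apply, mul_one]
  · intro e he
    rcases eq_or_ne e 0 with rfl | h
    · rw [wt_zero hσ, zero_mul]
    · rw [win, Set.indicator_of_notMem (fun h' => he ((key e h).1 h')), mul_zero]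

theorem summable_win (hσ : 0 < σ) (β s : ℝ) :
    Summable fun e : ℕ => wt σ e * win β (Real.log e - s) :=
  Summable.of_nonneg_of_le (fun _ => mul_nonneg (wt_nonneg (by positivity)) (win_mem _ _).1)
    (fun _ => mul_le_of_le_one_right (wt_nonneg (by positivity)) (win_mem _ _).2)
    (summable_wt hσ)

theorem tsum_psi (hσ : 0 < σ) (β l s : ℝ) : ∑' e : ℕ, wt σ e * psi β l (Real.log e - s) =
    ∑ e ∈ Ico ⌈Real.exp s⌉₊ ⌈Real.exp (s + β)⌉₊, wt σ e -
      ∑ e ∈ Ico ⌈Real.exp (s - l)⌉₊ ⌈Real.exp (s - l + β)⌉₊, wt σ e := by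
  rw [← tsum_win hσ, ← tsum_win hσ,
    ← (summable_win hσ β s).tsum_sub (summable_win hσ β (s - l))]
  refine tsum_congr fun e => ?_
  rw [psi, mul_sub, show Real.log e - s + l = Real.log e - (s - l) by ring]

theorem tsum_psi_zero (hσ : 0 < σ) {β l s : ℝ} (hl : 0 ≤ l) (hs : s ≤ -β) :
    ∑' e : ℕ, wt σ e * psi β l (Real.log e - s) = 0 := by
  have key : ∀ x : ℝ, x + β ≤ 0 → Ico ⌈Real.exp x⌉₊ ⌈Real.exp (x + β)⌉₊ = ∅ := fun x hx =>
    Ico_eq_empty_of_le ((Nat.ceil_le.2 (by simpa using hx)).trans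
      (Nat.ceil_pos.2 (Real.exp_pos x)))
  rw [tsum_psi hσ, key s (by linarith), key (s - l) (by linarith), sub_self]

theorem abs_tsum_psi (hσ : 0 < σ) (h1 : σ ≤ 1) {β l s : ℝ} (hβ : 0 < β) (hl : 0 ≤ l)
    (hs : -β ≤ s) : |∑' e : ℕ, wt σ e * psi β l (Real.log e - s)| ≤
      β * l * Real.exp l * σ * Real.exp (-σ * s) +
        4 * Real.exp (β + 2 * l) * Real.exp (-1 * s) := by
  have e1 : ∀ x, wt σ (Real.exp x) = Real.exp (-(1 + σ) * x) := fun x => by
    rw [wt, ← Real.exp_mul, mul_comm]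
  have e2 : ∀ x, pv σ (Real.exp x) - pv σ (Real.exp (x + β)) =
      Real.exp (-σ * x) * ((1 - Real.exp (-(σ * β))) / σ) := fun x => by
    rw [pv, pv, ← Real.exp_mul, ← Real.exp_mul, show (x + β) * -σ = -σ * x + -(σ * β) by ring,
      Real.exp_add, mul_comm x]
    ring
  have a1 := sum_window hσ (Real.exp_pos s) (Real.exp_le_exp.2 (show s ≤ s + β by linarith))
  have a2 := sum_window hσ (Real.exp_pos (s - l))
    (Real.exp_le_exp.2 (show s - l ≤ s - l + β by linarith))
  rw [e1, e2] at a1 a2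
  have b1 : Real.exp (-(1 + σ) * s) ≤ Real.exp (β + 2 * l) * Real.exp (-1 * s) := by
    rw [← Real.exp_add, Real.exp_le_exp]
    nlinarith
  have b2 : Real.exp (-(1 + σ) * (s - l)) ≤ Real.exp (β + 2 * l) * Real.exp (-1 * s) := by
    rw [← Real.exp_add, Real.exp_le_exp]
    nlinarith
  set q := (1 - Real.exp (-(σ * β))) / σ
  have q0 : 0 ≤ q := div_nonneg (sub_nonneg.2 (Real.exp_le_one_iff.2 (by
    have := mul_pos hσ hβ; linarith))) hσ.le
  have q1 : q ≤ β := by
    rw [div_le_iff₀ hσ]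
    linarith [Real.add_one_le_exp (-(σ * β))]
  have c0 : Real.exp (-σ * (s - l)) = Real.exp (-σ * s) * Real.exp (σ * l) := by
    rw [← Real.exp_add]
    congr 1
    ring
  have c1 : 1 ≤ Real.exp (σ * l) := Real.one_le_exp (by positivity)
  have c2 : Real.exp (σ * l) - 1 ≤ σ * l * Real.exp l := by
    have d1 := Real.add_one_le_exp (-(σ * l))
    have d2 : Real.exp (σ * l) * Real.exp (-(σ * l)) = 1 := by rw [← Real.exp_add]; simp
    have d3 : Real.exp (σ * l) ≤ Real.exp l := Real.exp_le_exp.2 (by nlinarith)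
    have d4 : 0 ≤ σ * l := by positivity
    nlinarith
  have c3 : Real.exp (-σ * s) * ((Real.exp (σ * l) - 1) * q) ≤
      Real.exp (-σ * s) * (σ * l * Real.exp l * β) := by gcongr
  have c4 : 0 ≤ Real.exp (-σ * s) * ((Real.exp (σ * l) - 1) * q) := by
    have := sub_nonneg.2 c1
    positivity
  rw [c0] at a2
  rw [tsum_psi hσ]
  rw [abs_le] at a1 a2 ⊢
  constructor <;> nlinarith [a1.1, a1.2, a2.1, a2.2]

theorem integral_sq_le (hσ : 0 < σ) (h1 : σ ≤ 1) {β l : ℝ} (hβ : 0 < β) (hl : 0 ≤ l) :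
    ∫ s, (∑' e : ℕ, wt σ e * psi β l (Real.log e - s)) ^ 2 ≤
      ((β * l * Real.exp l) ^ 2 + (4 * Real.exp (β + 2 * l)) ^ 2) * Real.exp (2 * β) := by
  set c₁ := β * l * Real.exp l
  set c₂ := 4 * Real.exp (β + 2 * l)
  have i1 := (integrableOn_exp_mul_Ioi (a := -(2 * σ)) (by linarith) (-β)).const_mul
    (2 * (c₁ * σ) ^ 2)
  have i2 := (integrableOn_exp_mul_Ioi (a := -2) (by norm_num) (-β)).const_mul (2 * c₂ ^ 2)
  calc ∫ s, (∑' e : ℕ, wt σ e * psi β l (Real.log e - s)) ^ 2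
      ≤ ∫ s, (Set.Ioi (-β)).indicator (fun s => 2 * (c₁ * σ) ^ 2 * Real.exp (-(2 * σ) * s) +
          2 * c₂ ^ 2 * Real.exp (-2 * s)) s := by
        refine integral_mono_of_nonneg (Eventually.of_forall fun s => sq_nonneg _)
          ((integrable_indicator_iff measurableSet_Ioi).2 (i1.add i2))
          (Eventually.of_forall fun s => ?_)
        rcases le_or_gt s (-β) with h | h
        · simp only [tsum_psi_zero hσ hl h]
          rw [Set.indicator_of_notMem (by simpa using h)]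
          simp
        · have a := abs_tsum_psi hσ h1 hβ hl h.le
          have b1 : Real.exp (-(2 * σ) * s) = Real.exp (-σ * s) ^ 2 := by
            rw [sq, ← Real.exp_add]
            congr 1
            ring
          have b2 : Real.exp (-2 * s) = Real.exp (-1 * s) ^ 2 := by
            rw [sq, ← Real.exp_add]
            congr 1
            ring
          simp only
          rw [Set.indicator_of_mem (by simpa using h), b1, b2, ← sq_abs]
          have b3 := pow_le_pow_left₀ (abs_nonneg _) a 2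
          nlinarith [sq_nonneg (c₁ * σ * Real.exp (-σ * s) - c₂ * Real.exp (-1 * s))]
    _ = c₁ ^ 2 * σ * Real.exp (2 * σ * β) + c₂ ^ 2 * Real.exp (2 * β) := by
        rw [integral_indicator measurableSet_Ioi, integral_add i1 i2, integral_const_mul,
          integral_const_mul, integral_exp_mul_Ioi (by linarith),
          integral_exp_mul_Ioi (by norm_num), show -(2 * σ) * -β = 2 * σ * β by ring,
          show -2 * -β = 2 * β by ring]
        field_simp
    _ ≤ _ := by
        have : Real.exp (2 * σ * β) ≤ Real.exp (2 * β) := Real.exp_le_exp.2 (by nlinarith)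
        have h2 : c₁ ^ 2 * σ * Real.exp (2 * σ * β) ≤ c₁ ^ 2 * 1 * Real.exp (2 * β) := by gcongr
        linarith

end L2

open L2 in
theorem l2 : L2Stmt := by
  intro β l hβ hl
  set c := ((β * l * Real.exp l) ^ 2 + (4 * Real.exp (β + 2 * l)) ^ 2) * Real.exp (2 * β)
  refine ⟨4 * c, by positivity, fun σ hσ h1 𝒜 => ?_⟩
  set K : ℕ × ℕ → ℝ := fun p =>
    ∫ s, psi β l (Real.log p.1 - s) * psi β l (Real.log p.2 - s) with hK
  have e1 : ∀ a : ℕ, ∫ s, dv β l a s ^ 2 = ∑ d ∈ a.divisors, ∑ d' ∈ a.divisors, K (d, d') := by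
    intro a
    simp only [dv, sq, sum_mul_sum, hK]
    rw [integral_finsetSum _ fun d _ => integrable_finsetSum _ fun d' _ => integrable_mul ..]
    exact sum_congr rfl fun d _ => integral_finsetSum _ fun d' _ => integrable_mul ..
  have wn : ∀ n : ℕ, 0 ≤ wt σ n := fun n => wt_nonneg (by positivity)
  have hs : HasSum (fun p : ℕ × ℕ => wt σ p.1 * wt σ p.2 * K p)
      (∫ s, (∑' e : ℕ, wt σ e * psi β l (Real.log e - s)) ^ 2) := by
    have hsum : ∀ s, Summable fun e : ℕ => ‖wt σ e * psi β l (Real.log e - s)‖ := fun s =>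
      Summable.of_nonneg_of_le (fun _ => norm_nonneg _) (fun e => by
        rw [norm_mul, Real.norm_of_nonneg (wn e)]
        exact mul_le_of_le_one_right (wn e) (abs_psi_le _ _ _)) (summable_wt hσ)
    have h2 := hasSum_integral_of_summable_integral_norm (μ := volume)
      (F := fun (p : ℕ × ℕ) s => wt σ p.1 * wt σ p.2 *
        (psi β l (Real.log p.1 - s) * psi β l (Real.log p.2 - s)))
      (fun p => (integrable_mul ..).const_mul _) (by
        refine Summable.of_nonneg_of_le (fun p => integral_nonneg fun _ => norm_nonneg _)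
          (fun p => ?_) ((summable_mul_of_summable_norm (summable_wt hσ).norm
            (summable_wt hσ).norm).mul_right (∫ s, ‖psi β l s‖))
        rw [← integral_sub_left_eq_self (fun s => ‖psi β l s‖) volume (Real.log p.2),
          ← integral_const_mul]
        refine integral_mono ((integrable_mul ..).const_mul _).norm
          ((integrable_psi ..).norm.const_mul _) fun s => ?_
        simp only
        rw [norm_mul, norm_mul (psi ..), Real.norm_of_nonneg (mul_nonneg (wn _) (wn _))]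
        exact mul_le_mul_of_nonneg_left
          (mul_le_of_le_one_left (norm_nonneg _) (abs_psi_le _ _ _)) (mul_nonneg (wn _) (wn _)))
    simp only [integral_const_mul] at h2
    rw [integral_congr_ae (g := fun s => ∑' p : ℕ × ℕ, wt σ p.1 * wt σ p.2 *
      (psi β l (Real.log p.1 - s) * psi β l (Real.log p.2 - s))) (Eventually.of_forall fun s => ?_)]
    · exact h2
    simp only
    rw [sq, tsum_mul_tsum_of_summable_norm (hsum s) (hsum s)]
    exact tsum_congr fun p => by ring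
  have h3 := kernel_le (w := fun n => wt σ n) (summable_wt hσ) (wt_zero hσ) (by simp [wt]) wn
    (fun a b => by
      rw [wt, Nat.cast_mul, Real.mul_rpow (by positivity) (by positivity)]
      rfl)
    (fun g e e' hg he he' => by
      simp only [hK]
      rw [← integral_add_right_eq_self _ (Real.log g)]
      push_cast
      rw [Real.log_mul (by positivity) (by positivity),
        Real.log_mul (by positivity) (by positivity)]
      refine integral_congr_ae (Eventually.of_forall fun s => ?_)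
      simp only
      congr 2 <;> ring)
    hs (integral_nonneg fun _ => sq_nonneg _)
    (fun a => e1 a ▸ integral_nonneg fun _ => sq_nonneg _) 𝒜
  simp only [e1]
  refine h3.trans ?_
  calc _ ≤ (2 / σ) ^ 2 * c := mul_le_mul (pow_le_pow_left₀ (tsum_nonneg wn) (tsum_wt_le hσ h1) 2)
        (integral_sq_le hσ h1 hβ hl) (integral_nonneg fun _ => sq_nonneg _) (sq_nonneg _)
    _ = _ := by ring

end Pool.Agent.Lib.MP_30b5ba_nt.P
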