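import Pool.Agent.Lib.MP_30b5ba_nt.P.Param

/-! Sums over pairs of integers of kernels that only depend on the ratio. -/

namespace Pool.Agent.Lib.MP_30b5ba_nt.P.L2

open Finset Filter Topology

theorem gcd_sum {f : ℕ → ℝ} {F : ℕ × ℕ → ℝ} (hf : Summable f) (hF : Summable F) (f0 : f 0 = 0)
    (hc : ∀ p : ℕ × ℕ, ¬p.1.Coprime p.2 → F p = 0) :
    HasSum (fun p : ℕ × ℕ => f (p.1.gcd p.2) * F (p.1 / p.1.gcd p.2, p.2 / p.1.gcd p.2))
      ((∑' n, f n) * ∑' p, F p) := by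
  have h1 := hf.hasSum.mul hF.hasSum (summable_mul_of_summable_norm hf.norm hF.norm)
  let ι : ℕ × ℕ → ℕ × (ℕ × ℕ) := fun p =>
    (p.1.gcd p.2, (p.1 / p.1.gcd p.2, p.2 / p.1.gcd p.2))
  have hι : Function.Injective ι := by
    rintro ⟨a, b⟩ ⟨c, d⟩ h
    simp only [ι, Prod.mk.injEq] at h
    obtain ⟨h1, h2, h3⟩ := h
    have e1 := Nat.mul_div_cancel' (Nat.gcd_dvd_left a b)
    have e2 := Nat.mul_div_cancel' (Nat.gcd_dvd_right a b)
    have e3 := Nat.mul_div_cancel' (Nat.gcd_dvd_left c d)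
    have e4 := Nat.mul_div_cancel' (Nat.gcd_dvd_right c d)
    rw [h2, h1, e3] at e1
    rw [h3, h1, e4] at e2
    rw [e1, e2]
  refine (hι.hasSum_iff ?_).2 h1
  rintro ⟨g, e, e'⟩ hx
  by_contra hne
  have hg : g ≠ 0 := by
    rintro rfl
    exact hne (by simp [f0])
  have hco : e.Coprime e' := by
    by_contra h
    exact hne (by simp [hc (e, e') h])
  refine hx ⟨(g * e, g * e'), ?_⟩
  have e1 : (g * e).gcd (g * e') = g := by rw [Nat.gcd_mul_left, hco, mul_one]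
  simp only [ι, e1, Nat.mul_div_cancel_left _ (Nat.pos_of_ne_zero hg)]

theorem lcm_sum {w : ℕ → ℝ} {K : ℕ × ℕ → ℝ} {s : ℝ} (hw : Summable w) (w0 : w 0 = 0)
    (wm : ∀ a b, w (a * b) = w a * w b)
    (hK : HasSum (fun p : ℕ × ℕ => w (p.1.lcm p.2) * K p) s) :
    HasSum (fun a => w a * ∑ d ∈ a.divisors, ∑ d' ∈ a.divisors, K (d, d'))
      ((∑' n, w n) * s) := by
  have h1 := hw.hasSum.mul hK (summable_mul_of_summable_norm hw.norm hK.summable.norm)
  have h2 := h1.tsum_fiberwise (fun x : ℕ × (ℕ × ℕ) => x.1 * x.2.1.lcm x.2.2)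
  refine h2.congr_fun fun a => ?_
  rw [tsum_subtype ((fun x : ℕ × (ℕ × ℕ) => x.1 * x.2.1.lcm x.2.2) ⁻¹' {a})
    (fun x : ℕ × (ℕ × ℕ) => w x.1 * (w (x.2.1.lcm x.2.2) * K x.2)),
    tsum_eq_sum (s := (a.divisors ×ˢ a.divisors).image fun p => (a / p.1.lcm p.2, p)),
    sum_image (fun p _ q _ h => (Prod.mk.inj h).2), ← sum_product', mul_sum]
  · refine sum_congr rfl fun p hp => ?_
    obtain ⟨h3, h4⟩ := mem_product.1 hp
    have h5 := Nat.div_mul_cancel
      (Nat.lcm_dvd (Nat.dvd_of_mem_divisors h3) (Nat.dvd_of_mem_divisors h4))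
    rw [Set.indicator_of_mem (by simpa using h5), ← mul_assoc, ← wm, h5]
  · rintro ⟨k, p⟩ hx
    by_cases h : k * p.1.lcm p.2 = a
    · rcases eq_or_ne a 0 with rfl | ha
      · rw [Set.indicator_of_mem (by simpa using h), ← mul_assoc, ← wm, h, w0, zero_mul]
      · refine absurd (mem_image.2 ⟨p, mem_product.2 ⟨Nat.mem_divisors.2 ⟨?_, ha⟩,
          Nat.mem_divisors.2 ⟨?_, ha⟩⟩, ?_⟩) hx
        · exact h ▸ (Nat.dvd_lcm_left _ _).mul_left _
        · exact h ▸ (Nat.dvd_lcm_right _ _).mul_left _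
        · have h6 : 0 < p.1.lcm p.2 := Nat.pos_of_ne_zero fun h0 => ha (by rw [← h, h0, mul_zero])
          rw [← h, Nat.mul_div_cancel _ h6]
    · exact Set.indicator_of_notMem (by simpa using h) _

/-- the mean square identity, as an inequality -/
theorem kernel_le {w : ℕ → ℝ} {K : ℕ × ℕ → ℝ} {s : ℝ} (hw : Summable w) (w0 : w 0 = 0)
    (w1 : w 1 = 1) (wn : ∀ a, 0 ≤ w a) (wm : ∀ a b, w (a * b) = w a * w b)
    (hK : ∀ g e e', g ≠ 0 → e ≠ 0 → e' ≠ 0 → K (g * e, g * e') = K (e, e'))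
    (hs : HasSum (fun p : ℕ × ℕ => w p.1 * w p.2 * K p) s) (hs0 : 0 ≤ s)
    (hp : ∀ a : ℕ, 0 ≤ ∑ d ∈ a.divisors, ∑ d' ∈ a.divisors, K (d, d')) (𝒜 : Finset ℕ) :
    ∑ a ∈ 𝒜, w a * ∑ d ∈ a.divisors, ∑ d' ∈ a.divisors, K (d, d') ≤ (∑' n, w n) ^ 2 * s := by
  classical
  set F : ℕ × ℕ → ℝ := fun p => if p.1.Coprime p.2 then w p.1 * w p.2 * K p else 0 with hF
  have hFs : Summable F := by
    refine Summable.of_norm_bounded hs.summable.norm fun p => ?_
    simp only [hF]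
    split_ifs
    · exact le_rfl
    · rw [norm_zero]
      exact norm_nonneg _
  have hFc : ∀ p : ℕ × ℕ, ¬p.1.Coprime p.2 → F p = 0 := fun p h => if_neg h
  have key : ∀ p : ℕ × ℕ, ∃ g e e', p = (g * e, g * e') ∧ p.1.gcd p.2 = g ∧
      (g ≠ 0 → w g * F (p.1 / g, p.2 / g) = w (p.1.lcm p.2) * K p ∧
        w g ^ 2 * F (p.1 / g, p.2 / g) = w p.1 * w p.2 * K p) := by
    rintro ⟨d, d'⟩
    obtain ⟨e, e', hco, h1, h2⟩ := Nat.exists_coprime d d'
    refine ⟨d.gcd d', e, e', by rw [mul_comm _ e, mul_comm _ e', ← h1, ← h2], rfl, fun hg => ?_⟩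
    set g := d.gcd d'
    have g0 := Nat.pos_of_ne_zero hg
    have e1 : d / g = e := by rw [h1, Nat.mul_div_cancel _ g0]
    have e2 : d' / g = e' := by rw [h2, Nat.mul_div_cancel _ g0]
    have e3 : d.lcm d' = g * (e * e') := by
      rw [h1, h2, Nat.lcm_mul_right, hco.lcm_eq_mul, mul_comm]
    have e4 : w e * w e' * K (d, d') = w e * w e' * K (e, e') := by
      rcases eq_or_ne e 0 with rfl | he
      · simp [w0]
      rcases eq_or_ne e' 0 with rfl | he'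
      · simp [w0]
      rw [h1, h2, mul_comm e g, mul_comm e' g, hK g e e' hg he he']
    have e5 : w d * w d' = w g ^ 2 * (w e * w e') := by
      rw [h1, h2, wm, wm]
      ring
    simp only [e1, e2, e3, e5, hF, if_pos hco, wm, ← e4]
    constructor <;> ring
  have zero : ∀ p : ℕ × ℕ, p.1.gcd p.2 = 0 → p = (0, 0) := by
    rintro ⟨d, d'⟩ h
    obtain ⟨rfl, rfl⟩ := Nat.gcd_eq_zero_iff.1 h
    rfl
  have hw2 : Summable fun n => w n ^ 2 := by
    refine Summable.of_nonneg_of_le (fun n => sq_nonneg _) (fun n => ?_)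
      (hw.mul_left (∑' n, w n))
    rw [sq]
    exact mul_le_mul_of_nonneg_right (hw.le_tsum n fun _ _ => wn _) (wn n)
  have s1 : HasSum (fun p : ℕ × ℕ => w (p.1.lcm p.2) * K p) ((∑' n, w n) * ∑' p, F p) := by
    refine (gcd_sum hw hFs w0 hFc).congr_fun fun p => ?_
    obtain ⟨g, e, e', -, h2, h3⟩ := key p
    rcases eq_or_ne g 0 with rfl | hg
    · rw [zero p h2]
      simp [w0]
    · rw [h2, (h3 hg).1]
  have s2 : HasSum (fun p : ℕ × ℕ => w p.1 * w p.2 * K p) ((∑' n, w n ^ 2) * ∑' p, F p) := by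
    refine (gcd_sum (f := fun n => w n ^ 2) hw2 hFs (by simp [w0]) hFc).congr_fun fun p => ?_
    obtain ⟨g, e, e', -, h2, h3⟩ := key p
    rcases eq_or_ne g 0 with rfl | hg
    · rw [zero p h2]
      simp [w0]
    · rw [h2, (h3 hg).2]
  have s3 := hs.unique s2
  have z2 : 1 ≤ ∑' n, w n ^ 2 := by
    have := hw2.le_tsum 1 fun _ _ => sq_nonneg _
    rwa [w1, one_pow] at this
  have s4 : ∑' p, F p ≤ s := by
    rcases le_total (∑' p, F p) 0 with h | h
    · exact h.trans hs0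
    · rw [s3]
      exact le_mul_of_one_le_left h z2
  refine (sum_le_hasSum 𝒜 (fun a _ => mul_nonneg (wn a) (hp a)) (lcm_sum hw w0 wm s1)).trans ?_
  rw [← mul_assoc, ← sq]
  exact mul_le_mul_of_nonneg_left s4 (sq_nonneg _)

end Pool.Agent.Lib.MP_30b5ba_nt.P.L2
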