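import Pool.Agent.Lib.MP_30b5ba_nt.P.Param

/-!
Points of a rotation in an arc.
-/

namespace Pool.Agent.Lib.MP_30b5ba_nt.P

open Finset Filter Topology MeasureTheory
open scoped Classical

namespace LC

/-- number of points of a window in an arc. -/
noncomputable def cnt (β a b : ℝ) (w₀ n : ℕ) : ℕ :=
  #{w ∈ Ioc w₀ (w₀ + n) | Arc a b (β * ((w : ℕ) : ℝ))}

theorem cnt_add (β a b : ℝ) (w₀ n m : ℕ) :
    cnt β a b w₀ (n + m) = cnt β a b w₀ n + cnt β a b (w₀ + n) m := by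
  unfold cnt
  rw [← card_union_of_disjoint, ← filter_union, Ioc_union_Ioc_eq_Ioc (by omega) (by omega),
    add_assoc]
  exact disjoint_filter_filter (Ioc_disjoint_Ioc_of_le le_rfl)

theorem block_up {β a b : ℝ} (hab : a ≤ b) {p : ℤ} {q : ℕ} (hq : 0 < q)
    (hpq : IsCoprime (q : ℤ) p) (h : |β * q - p| ≤ 1 / q) (w₁ : ℕ) :
    (cnt β a b w₁ q : ℝ) ≤ q * (b - a) + 3 := by
  have hq' : (0 : ℝ) < q := by exact_mod_cast hq
  obtain ⟨k, hk⟩ : ∃ k : ℕ → ℤ, ∀ w : ℕ, Arc a b (β * w) → β * w - k w ∈ Set.Icc a b :=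
    ⟨fun w => if h : Arc a b (β * w) then h.choose else 0, fun w hw => by
      simp only [dif_pos hw]; exact hw.choose_spec⟩
  have hcard : cnt β a b w₁ q ≤ #(Icc ⌈q * (a - β * w₁) - 1⌉ ⌊q * (b - β * w₁) + 1⌋) := by
    refine card_le_card_of_injOn (fun w : ℕ => ((w : ℤ) - w₁) * p - k w * q) ?_ ?_
    · intro w hw
      rw [mem_coe, mem_filter, mem_Ioc] at hw
      obtain ⟨⟨h1, h2⟩, h3⟩ := hw
      obtain ⟨h4, h5⟩ := hk w h3
      have h1' : (w₁ : ℝ) ≤ w := by exact_mod_cast h1.le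
      have h2' : (w : ℝ) ≤ w₁ + q := by exact_mod_cast h2
      have h6 : |((w : ℝ) - w₁) * (β * q - p)| ≤ 1 := by
        rw [abs_mul, abs_of_nonneg (by linarith)]
        calc ((w : ℝ) - w₁) * |β * q - p| ≤ q * (1 / q) := by gcongr; linarith
          _ = 1 := by field_simp
      obtain ⟨h7, h8⟩ := abs_le.1 h6
      have h9 := mul_le_mul_of_nonneg_left h4 hq'.le
      have h10 := mul_le_mul_of_nonneg_left h5 hq'.le
      rw [mem_coe, mem_Icc, Int.ceil_le, Int.le_floor]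
      push_cast
      constructor <;> nlinarith
    · intro w hw w' hw' he
      rw [mem_coe, mem_filter, mem_Ioc] at hw hw'
      have h1 : (q : ℤ) ∣ ((w : ℤ) - w') * p := ⟨k w - k w', by simp only at he; linarith⟩
      have h2 := hpq.dvd_of_dvd_mul_right h1
      have h3 : (w : ℤ) - w' = 0 := Int.eq_zero_of_abs_lt_dvd h2 (abs_lt.2 ⟨by omega, by omega⟩)
      omega
  rw [Int.card_Icc] at hcard
  have h1 := Int.le_ceil (q * (a - β * w₁) - 1)
  have h2 := Int.floor_le (q * (b - β * w₁) + 1)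
  have h3 : 0 ≤ (q : ℝ) * (b - a) := mul_nonneg hq'.le (by linarith)
  rcases le_total 0 (⌊q * (b - β * w₁) + 1⌋ + 1 - ⌈q * (a - β * w₁) - 1⌉) with h4 | h4
  · have h5 : (cnt β a b w₁ q : ℤ) ≤ ⌊q * (b - β * w₁) + 1⌋ + 1 - ⌈q * (a - β * w₁) - 1⌉ := by
      rw [← Int.toNat_of_nonneg h4]; exact_mod_cast hcard
    have h6 : (cnt β a b w₁ q : ℝ) ≤
        (⌊q * (b - β * w₁) + 1⌋ : ℝ) + 1 - (⌈q * (a - β * w₁) - 1⌉ : ℝ) := by exact_mod_cast h5
    nlinarith
  · rw [Int.toNat_of_nonpos h4] at hcard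
    have h5 : cnt β a b w₁ q = 0 := by omega
    rw [h5, Nat.cast_zero]
    linarith

theorem block_low {β a b : ℝ} (hab : b - a ≤ 1) {p : ℤ} {q : ℕ} (hq : 0 < q)
    (hpq : IsCoprime (q : ℤ) p) (h : |β * q - p| ≤ 1 / q) (w₁ : ℕ) :
    q * (b - a) - 3 ≤ (cnt β a b w₁ q : ℝ) := by
  have h1 := block_up (a := b) (b := a + 1) (by linarith) hq hpq h w₁
  have h2 : q ≤ cnt β a b w₁ q + cnt β b (a + 1) w₁ q := by
    unfold cnt
    refine le_trans ?_ (card_union_le _ _)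
    refine le_trans (le_of_eq ?_) (card_le_card (s := Ioc w₁ (w₁ + q)) fun w hw => ?_)
    · simp
    · rw [mem_union, mem_filter, mem_filter]
      have h3 := Int.floor_le (β * w - a)
      have h4 := Int.lt_floor_add_one (β * w - a)
      rcases le_total (β * w - ⌊β * w - a⌋) b with h5 | h5
      · exact Or.inl ⟨hw, ⌊β * w - a⌋, by linarith, h5⟩
      · exact Or.inr ⟨hw, ⌊β * w - a⌋, h5, by linarith⟩
  have h3 : (q : ℝ) ≤ cnt β a b w₁ q + cnt β b (a + 1) w₁ q := by exact_mod_cast h2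
  nlinarith

theorem blocks {β a b L U : ℝ} {q : ℕ} (hL : ∀ w₁, L ≤ (cnt β a b w₁ q : ℝ))
    (hU : ∀ w₁, (cnt β a b w₁ q : ℝ) ≤ U) (w₀ s : ℕ) :
    s * L ≤ (cnt β a b w₀ (s * q) : ℝ) ∧ (cnt β a b w₀ (s * q) : ℝ) ≤ s * U := by
  induction s with
  | zero => simp [cnt]
  | succ s ih =>
    rw [add_mul, one_mul, cnt_add]
    push_cast
    have h1 := hL (w₀ + s * q)
    have h2 := hU (w₀ + s * q)
    constructor <;> nlinarith [ih.1, ih.2]

end LC

theorem lc : LCStmt := by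
  intro β W η t a b w₀ n hW hη hηt hab hab1 hS
  change |(LC.cnt β a b w₀ n : ℝ) - n * (b - a)| ≤ _
  have ht : 0 < t := lt_of_lt_of_le hη hηt
  have h1 : (1 : ℝ) ≤ t / η := (one_le_div hη).2 hηt
  obtain ⟨r, hr1, hr2⟩ := Real.exists_rat_abs_sub_le_and_den_le β (Nat.floor_pos.2 h1)
  have hq : 0 < r.den := r.pos
  have hq' : (0 : ℝ) < r.den := by exact_mod_cast hq
  have hr2' : (r.den : ℝ) ≤ ⌊t / η⌋₊ := by exact_mod_cast hr2
  have hqt : (r.den : ℝ) ≤ t / η := hr2'.trans (Nat.floor_le (by linarith))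
  have h2 : |β * r.den - r.num| ≤ 1 / ((⌊t / η⌋₊ : ℝ) + 1) := by
    have e : β * r.den - r.num = (β - r) * r.den := by
      rw [Rat.cast_def]; field_simp
    rw [e, abs_mul, abs_of_pos hq']
    calc |β - r| * r.den ≤ 1 / (((⌊t / η⌋₊ : ℝ) + 1) * r.den) * r.den := by gcongr
      _ = _ := by field_simp
  have h3 : |β * r.den - r.num| ≤ 1 / r.den :=
    h2.trans (one_div_le_one_div_of_le hq' (by linarith))
  have h4 : |β * r.den - r.num| ≤ η / t := by
    refine h2.trans ?_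
    rw [← one_div_div t η]
    exact one_div_le_one_div_of_le (by linarith) (Nat.lt_floor_add_one _).le
  have h5 : W / t < r.den := by
    by_contra hc
    exact hS ⟨r.den, hq, not_lt.1 hc, r.num, h4⟩
  have hcop : IsCoprime (r.den : ℤ) r.num := by
    rw [Int.isCoprime_iff_gcd_eq_one, Int.gcd_comm]
    exact r.reduced
  have hU := LC.block_up hab hq hcop h3
  have hL := LC.block_low hab1 hq hcop h3
  obtain ⟨q, hqd⟩ : ∃ q, q = r.den := ⟨_, rfl⟩
  rw [← hqd] at hU hL h5 hqt hq hq'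
  have e1 : n = n / q * q + n % q := (Nat.div_add_mod' n q).symm
  have hm : n % q < q := Nat.mod_lt n hq
  have e2 : (n / q + 1) * q = n + (q - n % q) := by rw [add_mul, one_mul]; omega
  have hlow : LC.cnt β a b w₀ (n / q * q) ≤ LC.cnt β a b w₀ n := by
    conv_rhs => rw [e1, LC.cnt_add]
    omega
  have hup : LC.cnt β a b w₀ n ≤ LC.cnt β a b w₀ ((n / q + 1) * q) := by
    rw [e2, LC.cnt_add]; omega
  have h6 := (LC.blocks hL hU w₀ (n / q)).1
  have h7 := (LC.blocks hL hU w₀ (n / q + 1)).2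
  have hlow' : (LC.cnt β a b w₀ (n / q * q) : ℝ) ≤ LC.cnt β a b w₀ n := by exact_mod_cast hlow
  have hup' : (LC.cnt β a b w₀ n : ℝ) ≤ LC.cnt β a b w₀ ((n / q + 1) * q) := by
    exact_mod_cast hup
  obtain ⟨s, hs⟩ : ∃ s, s = n / q := ⟨_, rfl⟩
  rw [← hs] at h6 h7 hlow' hup' e1
  have hs1 : (s : ℝ) * q ≤ n := by exact_mod_cast (by omega : s * q ≤ n)
  have hs2 : (n : ℝ) ≤ s * q + q := by exact_mod_cast (by omega : n ≤ s * q + q)
  have hs3 : (s : ℝ) ≤ t * n / W := by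
    rw [le_div_iff₀ hW]
    rw [div_lt_iff₀ ht] at h5
    have hs0 : (0 : ℝ) ≤ s := Nat.cast_nonneg s
    nlinarith [mul_le_mul_of_nonneg_left h5.le hs0, mul_le_mul_of_nonneg_left hs1 ht.le]
  have hba : 0 ≤ b - a := by linarith
  have h8 : (q : ℝ) * (b - a) ≤ t * (b - a) / η := by
    rw [mul_div_right_comm]; exact mul_le_mul_of_nonneg_right hqt hba
  have h9 : 0 ≤ (q : ℝ) * (b - a) := by positivity
  have h10 := mul_le_mul_of_nonneg_right hs1 hba
  have h11 := mul_le_mul_of_nonneg_right hs2 hba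
  have e3 : 3 * t * n / W = 3 * (t * n / W) := by ring
  have e4 : 2 * t * (b - a) / η = 2 * (t * (b - a) / η) := by ring
  push_cast at h7
  rw [e3, e4, abs_le]
  constructor <;> nlinarith

end Pool.Agent.Lib.MP_30b5ba_nt.P
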