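import Pool.Agent.Lib.MP_30b5ba_nt.P.Param

/-!
Moving a divisor from one variable to the other.
-/

namespace Pool.Agent.Lib.MP_30b5ba_nt.P

open Finset Filter Topology MeasureTheory
open scoped Classical

namespace Move

theorem mem_pset {α Y W η : ℝ} {p : ℕ × ℕ} :
    p ∈ pset α Y W η ↔ (1 ≤ p.1 ∧ (p.1 : ℝ) ≤ Y) ∧ (1 ≤ p.2 ∧ (p.2 : ℝ) ≤ W) ∧
      ∃ z : ℤ, IsCoprime ((p.1 * p.2 : ℕ) : ℤ) z ∧ |α * ((p.1 * p.2 : ℕ) : ℝ) - z| ≤ η := by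
  rw [pset, mem_filter, mem_product, mem_Icc, mem_Icc]
  constructor
  · rintro ⟨⟨⟨h1, h2⟩, h3, h4⟩, h5⟩
    exact ⟨⟨h1, (Nat.le_floor_iff' (by omega)).1 h2⟩, ⟨h3, (Nat.le_floor_iff' (by omega)).1 h4⟩, h5⟩
  · rintro ⟨⟨h1, h2⟩, ⟨h3, h4⟩, h5⟩
    exact ⟨⟨⟨h1, (Nat.le_floor_iff' (by omega)).2 h2⟩, h3, (Nat.le_floor_iff' (by omega)).2 h4⟩, h5⟩

theorem card_pset (h1 : PrimStmt) (α Y W η : ℝ) (hY : 0 ≤ Y) (hW : 0 < W) (hη : 0 < η) :
    (#(pset α Y W η) : ℝ) ≤ Y * (3 + 4 * W * η) := by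
  have hsub : pset α Y W η ⊆ (Icc 1 ⌊Y⌋₊).biUnion fun y =>
      ({w ∈ Icc 1 ⌊W⌋₊ | ∃ z : ℤ, IsCoprime ((w : ℕ) : ℤ) z ∧
        |(α * y) * ((w : ℕ) : ℝ) - z| ≤ η}).image fun w => (y, w) := by
    intro p hp
    rw [pset, mem_filter, mem_product] at hp
    obtain ⟨⟨hp1, hp2⟩, z, hz1, hz2⟩ := hp
    rw [mem_biUnion]
    refine ⟨p.1, hp1, mem_image.2 ⟨p.2, mem_filter.2 ⟨hp2, z, ?_, ?_⟩, rfl⟩⟩
    · rw [Nat.cast_mul] at hz1
      exact hz1.of_mul_left_right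
    · rw [Nat.cast_mul, ← mul_assoc] at hz2
      exact hz2
  have h2 : (#(pset α Y W η) : ℝ) ≤ ∑ _y ∈ Icc 1 ⌊Y⌋₊, (3 + 4 * W * η) := by
    refine le_trans (Nat.cast_le.2 ((card_le_card hsub).trans card_biUnion_le)) ?_
    rw [Nat.cast_sum]
    refine sum_le_sum fun y _ => ?_
    exact le_trans (Nat.cast_le.2 card_image_le) (h1 (α * y) W η hW hη)
  rw [sum_const, Nat.card_Icc, nsmul_eq_mul, Nat.add_sub_cancel] at h2
  refine h2.trans (mul_le_mul_of_nonneg_right (Nat.floor_le hY) (by positivity))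

theorem exists_n0 {K Q D : ℝ} (hK : 1 ≤ K)
    (hD : ∀ n : ℕ, 1 ≤ n → (n : ℝ) ≤ K ^ 2 → (#n.divisors : ℝ) ≤ D) {m : ℕ} (hm : 1 ≤ m)
    (h : ¬Exc K Q m) :
    ∃ n : ℕ, n ∣ m ∧ K ^ 2 < n ∧ (n : ℝ) ≤ K ^ 2 * Q ∧ (#n.divisors : ℝ) ≤ 2 * D := by
  have hne : ({d ∈ m.divisors | ((d : ℕ) : ℝ) ≤ K ^ 2} : Finset ℕ).Nonempty :=
    ⟨1, mem_filter.2 ⟨Nat.one_mem_divisors.2 (by omega), by
      rw [Nat.cast_one]; exact one_le_pow₀ hK⟩⟩
  obtain ⟨n, hn, hmax⟩ := exists_max_image _ (fun d : ℕ => d) hne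
  obtain ⟨hn1, hn2⟩ := mem_filter.1 hn
  obtain ⟨b, hb⟩ := Nat.dvd_of_mem_divisors hn1
  have hn0 : 0 < n := Nat.pos_of_mem_divisors hn1
  have h2 : ∃ p : ℕ, p.Prime ∧ p ∣ b ∧ (p : ℝ) ≤ Q := by
    by_contra hc
    refine h ⟨n, b, hb, hn2, fun p hp hpb => ?_⟩
    by_contra hlt
    exact hc ⟨p, hp, hpb, not_lt.1 hlt⟩
  obtain ⟨p, hp, hpb, hpQ⟩ := h2
  have hdvd : n * p ∣ m := hb ▸ Nat.mul_dvd_mul_left n hpb
  refine ⟨n * p, hdvd, ?_, ?_, ?_⟩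
  · by_contra hc
    have h3 := hmax (n * p) (mem_filter.2 ⟨Nat.mem_divisors.2 ⟨hdvd, by omega⟩, not_lt.1 hc⟩)
    have h4 := hp.two_le
    nlinarith
  · rw [Nat.cast_mul]
    exact mul_le_mul hn2 hpQ (by positivity) (by positivity)
  · have h3 : #(n * p).divisors ≤ #n.divisors * 2 := by
      rw [Nat.divisors_mul]
      refine card_mul_le.trans ?_
      rw [hp.divisors, card_pair hp.one_lt.ne]
    have h4 := hD n hn0 hn2
    have h5 : (#(n * p).divisors : ℝ) ≤ #n.divisors * 2 := by exact_mod_cast h3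
    linarith

/-- the first coordinate has a large divisor in the given set. -/
def Big (T : ℕ → Finset ℕ) (K : ℝ) (p : ℕ × ℕ) : Prop := ∃ d ∈ T (p.1 * p.2), d ∣ p.1 ∧ K < d

/-- the first coordinate has a large divisor of given size in the given set. -/
def BigJ (T : ℕ → Finset ℕ) (K : ℝ) (j : ℕ) (p : ℕ × ℕ) : Prop :=
  ∃ d ∈ T (p.1 * p.2), d ∣ p.1 ∧ K < d ∧ Nat.log 2 d = j

theorem layer (h1 : PrimStmt) (α Y W η K E : ℝ) (hY : 0 < Y) (hW : 0 < W) (hη : 0 < η)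
    (hE : 0 ≤ E) (hKW : 1 ≤ K * W * η) (T : ℕ → Finset ℕ) (hT : ∀ m, (#(T m) : ℝ) ≤ E) (j : ℕ) :
    (#{p ∈ pset α Y W η | BigJ T K j p} : ℝ) ≤
      14 * E * (Y * W * η) := by
  rcases Finset.eq_empty_or_nonempty
    ({p ∈ pset α Y W η | BigJ T K j p}) with h0 | h0
  · rw [h0, card_empty, Nat.cast_zero]
    positivity
  have hK : K ≤ 2 ^ (j + 1) := by
    obtain ⟨p, hp⟩ := h0
    obtain ⟨-, d, -, -, hd3, hd4⟩ := mem_filter.1 hp
    have h2 : d < 2 ^ (j + 1) := hd4 ▸ Nat.lt_pow_succ_log_self (by norm_num) d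
    have h3 : (d : ℝ) < 2 ^ (j + 1) := by exact_mod_cast h2
    linarith
  have hsub : ({p ∈ pset α Y W η | BigJ T K j p}) ⊆
      (pset α (Y / 2 ^ j) (2 ^ (j + 1) * W) η).biUnion fun q =>
        (T (q.1 * q.2)).image fun d => (d * q.1, q.2 / d) := by
    intro p hp
    obtain ⟨hp1, d, hd1, ⟨y, hy⟩, -, hd4⟩ := mem_filter.1 hp
    obtain ⟨⟨a1, a2⟩, ⟨a3, a4⟩, a5⟩ := mem_pset.1 hp1
    have hd0 : 0 < d := Nat.pos_of_ne_zero fun h => by rw [h, zero_mul] at hy; omega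
    have hy0 : 0 < y := Nat.pos_of_ne_zero fun h => by rw [h, mul_zero] at hy; omega
    have hprod : y * (d * p.2) = p.1 * p.2 := by rw [hy]; ring
    have h2 : d < 2 ^ (j + 1) := hd4 ▸ Nat.lt_pow_succ_log_self (by norm_num) d
    have h3 : (d : ℝ) < 2 ^ (j + 1) := by exact_mod_cast h2
    have h4 : 2 ^ j ≤ d := hd4 ▸ Nat.pow_log_le_self 2 hd0.ne'
    have h5 : (2 : ℝ) ^ j ≤ d := by exact_mod_cast h4
    rw [mem_biUnion]
    refine ⟨(y, d * p.2), mem_pset.2 ⟨⟨hy0, ?_⟩, ⟨Nat.mul_pos hd0 a3, ?_⟩, ?_⟩, mem_image.2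
      ⟨d, ?_, ?_⟩⟩
    · rw [le_div_iff₀ (by positivity)]
      rw [hy, Nat.cast_mul] at a2
      have : (y : ℝ) * 2 ^ j ≤ y * d := mul_le_mul_of_nonneg_left h5 (by positivity)
      simp only
      linarith
    · simp only [Nat.cast_mul]
      exact mul_le_mul h3.le a4 (by positivity) (by positivity)
    · simp only [hprod]
      exact a5
    · simp only [hprod]
      exact hd1
    · simp only [Nat.mul_div_cancel_left _ hd0, ← hy]
  have h2 : (#{p ∈ pset α Y W η | BigJ T K j p} : ℝ) ≤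
      ∑ _q ∈ pset α (Y / 2 ^ j) (2 ^ (j + 1) * W) η, E := by
    refine le_trans (Nat.cast_le.2 ((card_le_card hsub).trans card_biUnion_le)) ?_
    rw [Nat.cast_sum]
    refine sum_le_sum fun q _ => ?_
    exact le_trans (Nat.cast_le.2 card_image_le) (hT _)
  rw [sum_const, nsmul_eq_mul] at h2
  have h3 := card_pset h1 α (Y / 2 ^ j) (2 ^ (j + 1) * W) η (by positivity) (by positivity) hη
  have h4 : 1 ≤ 2 ^ (j + 1) * W * η :=
    hKW.trans (mul_le_mul_of_nonneg_right (mul_le_mul_of_nonneg_right hK hW.le) hη.le)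
  have h5 : Y / 2 ^ j * (3 + 4 * (2 ^ (j + 1) * W) * η) ≤ 14 * (Y * W * η) := by
    have h6 : Y / 2 ^ j * (7 * (2 ^ (j + 1) * W * η)) = 14 * (Y * W * η) := by
      field_simp
      ring
    rw [← h6]
    refine mul_le_mul_of_nonneg_left ?_ (by positivity)
    linarith
  calc _ ≤ _ := h2
    _ ≤ 14 * (Y * W * η) * E := mul_le_mul_of_nonneg_right (h3.trans h5) hE
    _ = _ := by ring

theorem side (h1 : PrimStmt) (α Y W η K E R : ℝ) (hY : 0 < Y) (hW : 0 < W) (hη : 0 < η)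
    (hE : 0 ≤ E) (hR : 1 ≤ R) (hKW : 1 ≤ K * W * η) (T : ℕ → Finset ℕ)
    (hT : ∀ m, (#(T m) : ℝ) ≤ E) (hTR : ∀ m, ∀ d ∈ T m, (d : ℝ) ≤ R) :
    (#{p ∈ pset α Y W η | Big T K p} : ℝ) ≤
      14 * E * (1 + Real.log R / Real.log 2) * (Y * W * η) := by
  have hsub : ({p ∈ pset α Y W η | Big T K p}) ⊆
      (range (Nat.log 2 ⌊R⌋₊ + 1)).biUnion fun j =>
        {p ∈ pset α Y W η | BigJ T K j p} := by
    intro p hp
    obtain ⟨hp1, d, hd1, hd2, hd3⟩ := mem_filter.1 hp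
    rw [mem_biUnion]
    refine ⟨Nat.log 2 d, mem_range.2 (Nat.lt_succ_of_le (Nat.log_mono_right ?_)),
      mem_filter.2 ⟨hp1, d, hd1, hd2, hd3, rfl⟩⟩
    exact Nat.le_floor (hTR _ d hd1)
  have h2 : (#{p ∈ pset α Y W η | Big T K p} : ℝ) ≤
      ∑ _j ∈ range (Nat.log 2 ⌊R⌋₊ + 1), 14 * E * (Y * W * η) := by
    refine le_trans (Nat.cast_le.2 ((card_le_card hsub).trans card_biUnion_le)) ?_
    rw [Nat.cast_sum]
    exact sum_le_sum fun j _ => layer h1 α Y W η K E hY hW hη hE hKW T hT j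
  rw [sum_const, card_range, nsmul_eq_mul] at h2
  have h3 : ((Nat.log 2 ⌊R⌋₊ + 1 : ℕ) : ℝ) ≤ 1 + Real.log R / Real.log 2 := by
    have h4 : 2 ^ Nat.log 2 ⌊R⌋₊ ≤ ⌊R⌋₊ :=
      Nat.pow_log_le_self 2 (Nat.floor_pos.2 hR).ne'
    have h5 : (2 : ℝ) ^ Nat.log 2 ⌊R⌋₊ ≤ R :=
      le_trans (by exact_mod_cast h4) (Nat.floor_le (by linarith))
    have h6 := Real.log_le_log (by positivity) h5
    rw [Real.log_pow] at h6
    have h7 : (Nat.log 2 ⌊R⌋₊ : ℝ) ≤ Real.log R / Real.log 2 := by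
      rw [le_div_iff₀ (Real.log_pos (by norm_num))]
      exact h6
    push_cast
    linarith
  calc _ ≤ _ := h2
    _ ≤ (1 + Real.log R / Real.log 2) * (14 * E * (Y * W * η)) :=
      mul_le_mul_of_nonneg_right h3 (by positivity)
    _ = _ := by ring

end Move

theorem move (h1 : PrimStmt) : MoveStmt := by
  intro α Y W η K Q D hY hW hη hK hQ hKY hKW hD
  have hD0 : 0 ≤ D := le_trans (by positivity) (hD 1 le_rfl (by
    rw [Nat.cast_one]; exact one_le_pow₀ hK))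
  have hR : 1 ≤ K ^ 2 * Q := one_le_mul_of_one_le_of_one_le (one_le_pow₀ hK) hQ
  have hex : ∀ m : ℕ, ∃ T : Finset ℕ, (#T : ℝ) ≤ 2 * D ∧ (∀ d ∈ T, (d : ℝ) ≤ K ^ 2 * Q) ∧
      ∀ y w : ℕ, 1 ≤ y → 1 ≤ w → y * w = m → ¬Exc K Q m →
        (∃ d ∈ T, d ∣ y ∧ K < d) ∨ (∃ d ∈ T, d ∣ w ∧ K < d) := by
    intro m
    by_cases hm : 1 ≤ m ∧ ¬Exc K Q m
    · obtain ⟨n, hn1, hn2, hn3, hn4⟩ := Move.exists_n0 hK hD hm.1 hm.2
      have hn0 : n ≠ 0 := by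
        rintro rfl
        rw [Nat.cast_zero] at hn2
        exact absurd hn2 (not_lt.2 (by positivity))
      refine ⟨n.divisors, hn4, fun d hd => le_trans (Nat.cast_le.2 (Nat.divisor_le hd)) hn3, ?_⟩
      intro y w _ _ hyw _
      obtain ⟨d₁, d₂, e1, e2, e3⟩ := (Nat.dvd_mul).1 (hyw ▸ hn1)
      by_contra hc
      rw [not_or] at hc
      have c1 : (d₁ : ℝ) ≤ K := not_lt.1 fun h =>
        hc.1 ⟨d₁, Nat.mem_divisors.2 ⟨⟨d₂, e3.symm⟩, hn0⟩, e1, h⟩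
      have c2 : (d₂ : ℝ) ≤ K := not_lt.1 fun h =>
        hc.2 ⟨d₂, Nat.mem_divisors.2 ⟨⟨d₁, by rw [← e3, mul_comm]⟩, hn0⟩, e2, h⟩
      have c3 : (n : ℝ) ≤ K ^ 2 := by
        rw [← e3, Nat.cast_mul, sq]
        exact mul_le_mul c1 c2 (by positivity) (by linarith)
      linarith
    · refine ⟨∅, by rw [card_empty, Nat.cast_zero]; positivity, by simp, ?_⟩
      intro y w hy hw hyw hE
      exact absurd ⟨hyw ▸ Nat.mul_pos hy hw, hE⟩ hm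
  choose T hT1 hT2 hT3 using hex
  have s1 := Move.side h1 α Y W η K (2 * D) (K ^ 2 * Q) hY hW hη (by positivity) hR hKW T hT1 hT2
  have s2 := Move.side h1 α W Y η K (2 * D) (K ^ 2 * Q) hW hY hη (by positivity) hR hKY T hT1 hT2
  have hsub : ({p ∈ pset α Y W η | ¬Exc K Q (p.1 * p.2)}) ⊆
      {p ∈ pset α Y W η | Move.Big T K p} ∪
        ({p ∈ pset α W Y η | Move.Big T K p}).image Prod.swap := by
    intro p hp
    obtain ⟨hp1, hp2⟩ := mem_filter.1 hp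
    obtain ⟨a1, a2, a3⟩ := Move.mem_pset.1 hp1
    rcases hT3 _ p.1 p.2 a1.1 a2.1 rfl hp2 with h | h
    · exact mem_union_left _ (mem_filter.2 ⟨hp1, h⟩)
    · refine mem_union_right _ (mem_image.2 ⟨p.swap, mem_filter.2 ⟨Move.mem_pset.2
        ⟨a2, a1, ?_⟩, ?_⟩, Prod.swap_swap p⟩)
      · simp only [Prod.fst_swap, Prod.snd_swap, mul_comm p.2 p.1]
        exact a3
      · simp only [Move.Big, Prod.fst_swap, Prod.snd_swap, mul_comm p.2 p.1]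
        exact h
  have h2 := (card_le_card hsub).trans ((card_union_le _ _).trans
    (Nat.add_le_add_left card_image_le _))
  have h3 : (#{p ∈ pset α Y W η | ¬Exc K Q (p.1 * p.2)} : ℝ) ≤
      #{p ∈ pset α Y W η | Move.Big T K p} +
        #{p ∈ pset α W Y η | Move.Big T K p} := by exact_mod_cast h2
  have h4 : W * Y * η = Y * W * η := by ring
  rw [h4] at s2
  linarith

end Pool.Agent.Lib.MP_30b5ba_nt.P
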