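import Pool.Agent.Lib.MP_30b5ba_nt.P.Param
import Pool.Agent.Lib.MP_30b5ba_nt.Variance

/-! The number of primitive pairs. -/

namespace Pool.Agent.Lib.MP_30b5ba_nt.P

open Finset Filter Topology MeasureTheory
open scoped Classical

namespace PP

theorem mem_pset {α Y W η : ℝ} {p : ℕ × ℕ} : p ∈ pset α Y W η ↔
    (p.1 ∈ Icc 1 ⌊Y⌋₊ ∧ p.2 ∈ Icc 1 ⌊W⌋₊) ∧ ∃ z : ℤ, IsCoprime ((p.1 * p.2 : ℕ) : ℤ) z ∧
      |α * ((p.1 * p.2 : ℕ) : ℝ) - z| ≤ η := by
  rw [pset, mem_filter, mem_product]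

theorem swap_le (α Y W η : ℝ) : #(pset α Y W η) ≤ #(pset α W Y η) := by
  refine card_le_card_of_injOn Prod.swap (fun p hp => ?_) Prod.swap_injective.injOn
  obtain ⟨⟨h1, h2⟩, h3⟩ := mem_pset.1 hp
  refine mem_pset.2 ⟨⟨h2, h1⟩, ?_⟩
  rwa [Prod.fst_swap, Prod.snd_swap, mul_comm p.2]

theorem div_bound : ∃ C : ℝ, 1 ≤ C ∧ ∀ s : ℝ, 1 ≤ s → ∀ n : ℕ, 1 ≤ n → (n : ℝ) ≤ (s ^ 90) ^ 2 →
    (#n.divisors : ℝ) ≤ C * s ^ 3 := by
  obtain ⟨C, hC⟩ := card_divisors_pow_le 60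
  have h0 : (0 : ℝ) ≤ C := Nat.cast_nonneg C
  refine ⟨C + 1, by linarith, fun s hs n hn h => ?_⟩
  have h1 : (#n.divisors : ℝ) ^ 60 ≤ C * n := by exact_mod_cast hC n (by omega)
  refine le_of_pow_le_pow_left₀ (n := 60) (by norm_num) (by positivity) (h1.trans ?_)
  rw [mul_pow, ← pow_mul]
  rw [← pow_mul] at h
  have h2 : (C : ℝ) ≤ (C + 1) ^ 60 :=
    (by linarith : (C : ℝ) ≤ C + 1).trans (le_self_pow₀ (by linarith) (by norm_num))
  exact mul_le_mul h2 h (Nat.cast_nonneg n) (by positivity)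

theorem div_mul (a b : ℕ) : #(a * b).divisors ≤ #a.divisors * #b.divisors := by
  rw [Nat.divisors_mul]
  exact card_mul_le

theorem rough (Q : ℝ) (hQ : 0 ≤ Q) (b : ℕ) : b ≠ 0 → (∀ p : ℕ, p.Prime → p ∣ b → Q < p) →
    ∃ k : ℕ, #b.divisors ≤ 2 ^ k ∧ Q ^ k ≤ b := by
  induction b using Nat.recOnMul with
  | zero => exact fun h => absurd rfl h
  | one => exact fun _ _ => ⟨0, by simp, by simp⟩
  | prime p hp =>
    exact fun _ h => ⟨1, by rw [hp.divisors, pow_one]; exact card_le_two,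
      by rw [pow_one]; exact (h p hp dvd_rfl).le⟩
  | mul a b ha hb =>
    intro h0 h
    obtain ⟨k, h1, h2⟩ := ha (left_ne_zero_of_mul h0) fun p hp hd => h p hp (hd.mul_right b)
    obtain ⟨j, h3, h4⟩ := hb (right_ne_zero_of_mul h0) fun p hp hd => h p hp (hd.mul_left a)
    refine ⟨k + j, (div_mul a b).trans ?_, ?_⟩
    · rw [pow_add]
      exact Nat.mul_le_mul h1 h3
    · rw [pow_add, Nat.cast_mul]
      exact mul_le_mul h2 h4 (by positivity) (Nat.cast_nonneg a)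

/-- exceptional pairs, counted through their product -/
theorem exc_two (h2 : BohrStmt) {c α Y W η K Q D : ℝ} (hc : 0 < c) (hα : Bad c α) (hY : 0 < Y)
    (hW : 0 < W) (hη : 0 < η) (hQ : 1 < Q) (hD0 : 0 ≤ D) (hM : Y * W ≤ Q ^ 20)
    (hD : ∀ n : ℕ, 1 ≤ n → (n : ℝ) ≤ K ^ 2 → (#n.divisors : ℝ) ≤ D) :
    (#{p ∈ pset α Y W η | Exc K Q (p.1 * p.2)} : ℝ) ≤ D * 2 ^ 20 * (3 * (Y * W) * η / c) := by
  set B := {m ∈ Icc 1 ⌊Y * W⌋₊ | ∃ z : ℤ, |α * ((m : ℕ) : ℝ) - z| ≤ η} with hB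
  have hmap : ∀ p ∈ {p ∈ pset α Y W η | Exc K Q (p.1 * p.2)}, p.1 * p.2 ∈ B := by
    intro p hp
    obtain ⟨⟨a1, a2⟩, z, -, hz⟩ := mem_pset.1 (mem_filter.1 hp).1
    rw [mem_Icc] at a1 a2
    refine mem_filter.2 ⟨mem_Icc.2 ⟨Nat.mul_pos a1.1 a2.1, Nat.le_floor ?_⟩, z, hz⟩
    rw [Nat.cast_mul]
    exact mul_le_mul ((Nat.le_floor_iff hY.le).1 a1.2) ((Nat.le_floor_iff hW.le).1 a2.2)
      (Nat.cast_nonneg _) hY.le
  rw [card_eq_sum_card_fiberwise hmap, Nat.cast_sum]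
  refine (sum_le_card_nsmul _ _ (D * 2 ^ 20) fun m hm => ?_).trans ?_
  · rcases ({p ∈ {p ∈ pset α Y W η | Exc K Q (p.1 * p.2)} | p.1 * p.2 = m}).eq_empty_or_nonempty
      with h0 | ⟨p, hp⟩
    · rw [h0, card_empty, Nat.cast_zero]
      positivity
    obtain ⟨hp1, hp2⟩ := mem_filter.1 hp
    obtain ⟨a, b, e, ha, hb⟩ := (mem_filter.1 hp1).2
    obtain ⟨hm1, hm2⟩ := mem_Icc.1 (mem_filter.1 hm).1
    rw [hp2] at e
    have hab : a * b ≠ 0 := by omega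
    have ha1 : 1 ≤ a := Nat.pos_of_ne_zero (left_ne_zero_of_mul hab)
    obtain ⟨k, h3, h4⟩ := rough Q (by linarith) b (right_ne_zero_of_mul hab) hb
    have hbm : (b : ℝ) ≤ m := by
      rw [e]
      exact_mod_cast Nat.le_mul_of_pos_left b ha1
    have hk : k ≤ 20 := (pow_le_pow_iff_right₀ hQ).1
      (h4.trans (hbm.trans (((Nat.le_floor_iff (by positivity)).1 hm2).trans hM)))
    have h5 : #{p ∈ {p ∈ pset α Y W η | Exc K Q (p.1 * p.2)} | p.1 * p.2 = m} ≤ #m.divisors := by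
      refine card_le_card_of_injOn Prod.fst (fun q hq => ?_) fun q hq q' hq' hqq => ?_
      · exact Nat.mem_divisors.2 ⟨⟨q.2, (mem_filter.1 hq).2.symm⟩, by omega⟩
      · have e1 := (mem_filter.1 hq).2
        have e2 := (mem_filter.1 hq').2
        have e3 : q.1 ≠ 0 := left_ne_zero_of_mul (by omega : q.1 * q.2 ≠ 0)
        refine Prod.ext hqq (mul_left_cancel₀ e3 ?_)
        rw [e1, hqq, e2]
    have h6 : #m.divisors ≤ #a.divisors * 2 ^ 20 := by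
      rw [e]
      exact (div_mul a b).trans
        (Nat.mul_le_mul_left _ (h3.trans (Nat.pow_le_pow_right two_pos hk)))
    calc ((#{p ∈ {p ∈ pset α Y W η | Exc K Q (p.1 * p.2)} | p.1 * p.2 = m} : ℕ) : ℝ)
        ≤ ((#a.divisors * 2 ^ 20 : ℕ) : ℝ) := by exact_mod_cast h5.trans h6
      _ ≤ D * 2 ^ 20 := by
          rw [Nat.cast_mul, Nat.cast_pow, Nat.cast_ofNat]
          exact mul_le_mul_of_nonneg_right (hD a ha1 ha) (by positivity)
  · rw [nsmul_eq_mul, mul_comm]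
    exact mul_le_mul_of_nonneg_left (h2 c α (Y * W) η hc hα (by positivity) hη) (by positivity)

/-- exceptional pairs, counted through the first coordinate -/
theorem exc_one (h1 : PrimStmt) {α Y W η K Q : ℝ} (hW : 0 < W) (hη : 0 < η) (hWη : W * η ≤ 1)
    {A : Finset ℕ} (hA : ∀ n ∈ Icc 1 ⌊Y⌋₊, (∀ p ∈ pr (K ^ 2) Q, ¬p ∣ n) → n ∈ A) :
    (#{p ∈ pset α Y W η | Exc K Q (p.1 * p.2)} : ℝ) ≤ 7 * #A := by
  have hmap : ∀ p ∈ {p ∈ pset α Y W η | Exc K Q (p.1 * p.2)}, p.1 ∈ A := by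
    intro p hp
    obtain ⟨hp1, a, b, e, ha, hb⟩ := mem_filter.1 hp
    obtain ⟨⟨a1, a2⟩, -⟩ := mem_pset.1 hp1
    refine hA _ a1 fun q hq hd => ?_
    obtain ⟨q1, q2, q3⟩ := mem_pr.1 hq
    have h0 : 0 < a * b := e ▸ Nat.mul_pos (mem_Icc.1 a1).1 (mem_Icc.1 a2).1
    rcases (q1.dvd_mul).1 (e ▸ hd.mul_right p.2) with h | h
    · have : (q : ℝ) ≤ a := by exact_mod_cast Nat.le_of_dvd (Nat.pos_of_mul_pos_right h0) h
      linarith
    · linarith [hb q q1 h]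
  rw [card_eq_sum_card_fiberwise hmap, Nat.cast_sum]
  refine (sum_le_card_nsmul _ _ 7 fun y _ => ?_).trans (by rw [nsmul_eq_mul, mul_comm])
  have h3 := h1 (α * y) W η hW hη
  refine le_trans ?_ (h3.trans (by linarith))
  refine Nat.cast_le.2 (card_le_card_of_injOn Prod.snd (fun q hq => ?_) fun q hq q' hq' hqq => ?_)
  · obtain ⟨hq1, hq2⟩ := mem_filter.1 hq
    obtain ⟨⟨-, a2⟩, z, z1, z2⟩ := mem_pset.1 (mem_filter.1 hq1).1
    rw [Nat.cast_mul] at z1 z2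
    refine mem_filter.2 ⟨a2, z, z1.of_mul_left_right, ?_⟩
    rwa [← hq2, mul_assoc]
  · exact Prod.ext ((mem_filter.1 hq).2.trans (mem_filter.1 hq').2.symm) hqq

theorem sieve (h3 : BrunStmt) {Y z₁ Q : ℝ} (hY : 0 < Y) (hQ : 1 ≤ Q) (h : ℕ) :
    ∃ A : Finset ℕ, (∀ n ∈ Icc 1 ⌊Y⌋₊, (∀ p ∈ pr z₁ Q, ¬p ∣ n) → n ∈ A) ∧ (#A : ℝ) ≤
      Y * Real.exp (-∑ p ∈ pr z₁ Q, 1 / (p : ℝ)) +
        (Y / 2 ^ (2 * h) + Q ^ (2 * h)) * Real.exp (2 * ∑ p ∈ pr z₁ Q, 1 / (p : ℝ)) := by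
  have hb := h3 (Icc 1 ⌊Y⌋₊) (pr z₁ Q) Y 1 Q (2 * h) (fun p hp => (mem_pr.1 hp).1)
    (fun p hp => (mem_pr.1 hp).2.2) hQ hY.le zero_le_one (even_two_mul h) fun D _ _ => by
      rw [show Icc 1 ⌊Y⌋₊ = Ioc 0 ⌊Y⌋₊ from rfl, Nat.Ioc_filter_dvd_card_eq_div,
        ← Nat.floor_div_natCast, ← Nat.cast_prod, abs_le]
      have h0 : 0 ≤ Y / ((∏ p ∈ D, p : ℕ) : ℝ) := by positivity
      constructor
      · linarith [Nat.lt_floor_add_one (Y / ((∏ p ∈ D, p : ℕ) : ℝ))]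
      · linarith [Nat.floor_le h0]
  rw [one_mul] at hb
  refine ⟨_, ?_, hb.trans (add_le_add (mul_le_mul_of_nonneg_left ?_ hY.le)
    (mul_le_mul_of_nonneg_left ?_ (by positivity)))⟩
  · exact fun n a b => mem_filter.2 ⟨a, b⟩
  · rw [← sum_neg_distrib, Real.exp_sum]
    refine prod_le_prod (fun p hp => ?_) fun p _ => ?_
    · have : (1 : ℝ) ≤ p := by exact_mod_cast (mem_pr.1 hp).1.one_lt.le
      rw [sub_nonneg]
      exact div_le_one_of_le₀ this (by linarith)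
    · linarith [Real.add_one_le_exp (-(1 / (p : ℝ)))]
  · rw [mul_sum, Real.exp_sum]
    refine prod_le_prod (fun p _ => by positivity) fun p _ => ?_
    rw [mul_one_div]
    linarith [Real.add_one_le_exp (2 / (p : ℝ))]

theorem div_pow_le {X s : ℝ} (hX : 0 ≤ X) (hs : 1 ≤ s) {a b : ℕ} (h : a ≤ b) :
    X / s ^ b ≤ X / s ^ a :=
  div_le_div_of_nonneg_left hX (by positivity) (pow_le_pow_right₀ hs h)

theorem main (h1 : PrimStmt) (h2 : BohrStmt) (h3 : BrunStmt) (h4 : MertensStmt) (h5 : MoveStmt)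
    {c α : ℝ} (hc : 0 < c) (hα : Bad c α) : ∃ C : ℝ, 0 < C ∧ ∀ X s Y W : ℝ, 1 < X → 1 ≤ s →
      2 ≤ s ^ 30 → 0 < Y → Y ≤ W → Y * W = X ^ 2 / s ^ 30 → 1 / (s ^ 30) ^ 3 ≤ Y / (s ^ 30 * X) →
      W / (s ^ 30 * X) ≤ 1 → (#(pset α Y W (1 / (s ^ 30 * X))) : ℝ) ≤ C * (X / s ^ 33) := by
  obtain ⟨C1, hC1, hD⟩ := div_bound
  obtain ⟨C, hC, m1, m2, -, -⟩ := h4
  refine ⟨22680 * C1 + 7 * (180 * Real.exp C + 2 * Real.exp (2 * C)) + 3 * 2 ^ 20 * C1 / c,
    by positivity, ?_⟩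
  intro X s Y W hX hs hs2 hY hYW hM hYl hWu
  have hs0 : 0 < s := by linarith
  have hX0 : 0 < X := by linarith
  have hW : 0 < W := hY.trans_le hYW
  have hη : 0 < 1 / (s ^ 30 * X) := by positivity
  have hR : 0 ≤ X / s ^ 33 := by positivity
  have eM : Y * W * (1 / (s ^ 30 * X)) = X / s ^ 60 := by
    rw [hM]
    field_simp
  have hlog : Real.log s ≤ s := (Real.log_le_sub_one_of_pos hs0).trans (by linarith)
  have hs21 : s ≤ s ^ 21 := le_self_pow₀ hs (by norm_num)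
  have hKY : 1 ≤ s ^ 90 * Y * (1 / (s ^ 30 * X)) := by
    rw [← pow_mul, div_le_iff₀ (by positivity)] at hYl
    calc (1 : ℝ) ≤ Y / (s ^ 30 * X) * s ^ (30 * 3) := hYl
      _ = _ := by ring
  have hKW : 1 ≤ s ^ 90 * W * (1 / (s ^ 30 * X)) := hKY.trans (by gcongr)
  have move : ∀ Q : ℝ, 1 ≤ Q → Real.log Q ≤ 22 * s ^ 21 →
      (#{p ∈ pset α Y W (1 / (s ^ 30 * X)) | ¬Exc (s ^ 90) Q (p.1 * p.2)} : ℝ) ≤
        22680 * C1 * (X / s ^ 33) := by
    intro Q hQ hQl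
    refine (h5 α Y W _ (s ^ 90) Q (C1 * s ^ 3) hY hW hη (one_le_pow₀ hs) hQ hKY hKW
      (hD s hs)).trans ?_
    have a1 : Real.log ((s ^ 90) ^ 2 * Q) ≤ 202 * s ^ 21 := by
      rw [Real.log_mul (by positivity) (by positivity), ← pow_mul, Real.log_pow]
      push_cast
      linarith
    have a2 : Real.log ((s ^ 90) ^ 2 * Q) / Real.log 2 ≤ 404 * s ^ 21 := by
      have := Real.log_two_gt_d9
      rw [div_le_iff₀ (by linarith)]
      nlinarith
    rw [eM]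
    calc 56 * (C1 * s ^ 3) * (1 + Real.log ((s ^ 90) ^ 2 * Q) / Real.log 2) * (X / s ^ 60)
        ≤ 56 * (C1 * s ^ 3) * (405 * s ^ 21) * (X / s ^ 60) := by
          gcongr
          linarith
      _ = 22680 * C1 * (X / s ^ 36) := by field_simp; ring
      _ ≤ _ := mul_le_mul_of_nonneg_left (div_pow_le hX0.le hs (by norm_num)) (by positivity)
  have split : ∀ Q : ℝ, (#(pset α Y W (1 / (s ^ 30 * X))) : ℝ) =
      #{p ∈ pset α Y W (1 / (s ^ 30 * X)) | Exc (s ^ 90) Q (p.1 * p.2)} +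
      #{p ∈ pset α Y W (1 / (s ^ 30 * X)) | ¬Exc (s ^ 90) Q (p.1 * p.2)} := by
    intro Q
    rw [← Nat.cast_add, card_filter_add_card_filter_not]
  have t1 : 0 ≤ 7 * (180 * Real.exp C + 2 * Real.exp (2 * C)) * (X / s ^ 33) := by positivity
  have t2 : 0 ≤ 3 * 2 ^ 20 * C1 / c * (X / s ^ 33) := by positivity
  rcases le_or_gt (212 * s ^ 21) (Real.log X) with hreg | hreg
  · set Q := Real.exp (s ^ 20) with hQ
    have hs20 : 1 ≤ s ^ 20 := one_le_pow₀ hs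
    have hQ2 : 2 ≤ Q := by linarith [Real.add_one_le_exp (s ^ 20)]
    have hlQ : Real.log Q = s ^ 20 := Real.log_exp _
    have hs2021 : s ^ 20 ≤ s ^ 21 := pow_le_pow_right₀ hs (by norm_num)
    have b1 := move Q (by linarith) (by rw [hlQ]; linarith)
    obtain ⟨A, hA, b3⟩ := sieve h3 (z₁ := (s ^ 90) ^ 2) hY (by linarith : 1 ≤ Q) ⌈60 * s⌉₊
    have b2 := exc_one h1 (α := α) hW hη (by rwa [mul_one_div]) hA
    have hK2 : 2 ≤ (s ^ 90) ^ 2 := by
      rw [← pow_mul]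
      exact hs2.trans (pow_le_pow_right₀ hs (by norm_num))
    have hlK : Real.log ((s ^ 90) ^ 2) ≤ 180 * s := by
      rw [← pow_mul, Real.log_pow]
      push_cast
      linarith
    have hlK0 : 0 < Real.log ((s ^ 90) ^ 2) := Real.log_pos (by linarith)
    have hYs : Y ≤ X / s ^ 15 := by
      refine le_of_pow_le_pow_left₀ (n := 2) (by norm_num) (by positivity) ?_
      rw [div_pow, ← pow_mul, ← hM, sq]
      gcongr
    have c1 : Real.exp (-∑ p ∈ pr ((s ^ 90) ^ 2) Q, 1 / (p : ℝ)) ≤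
        Real.exp C * (180 * s / s ^ 20) := by
      rcases le_total ((s ^ 90) ^ 2) Q with h | h
      · have d1 := (abs_le.1 (m1 _ _ hK2 h)).1
        rw [hlQ] at d1
        calc Real.exp (-∑ p ∈ pr ((s ^ 90) ^ 2) Q, 1 / (p : ℝ))
            ≤ Real.exp (C - Real.log (s ^ 20 / Real.log ((s ^ 90) ^ 2))) :=
              Real.exp_le_exp.2 (by linarith)
          _ = Real.exp C * (Real.log ((s ^ 90) ^ 2) / s ^ 20) := by
              rw [Real.exp_sub, Real.exp_log (by positivity)]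
              field_simp
          _ ≤ _ := by gcongr
      · have d1 : s ^ 20 ≤ 180 * s := by
          rw [← hlQ]
          exact (Real.log_le_log (by linarith) h).trans hlK
        calc Real.exp (-∑ p ∈ pr ((s ^ 90) ^ 2) Q, 1 / (p : ℝ)) ≤ 1 :=
              Real.exp_le_one_iff.2 (neg_nonpos.2 (sum_nonneg fun p _ => by positivity))
          _ ≤ _ := one_le_mul_of_one_le_of_one_le (Real.one_le_exp hC.le)
              ((one_le_div (by positivity)).2 d1)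
    have c2 : Real.exp (2 * ∑ p ∈ pr ((s ^ 90) ^ 2) Q, 1 / (p : ℝ)) ≤
        Real.exp (2 * C) * s ^ 40 := by
      have d1 := (abs_le.1 (m2 Q hQ2)).2
      rw [hlQ] at d1
      have d2 : ∑ p ∈ pr ((s ^ 90) ^ 2) Q, 1 / (p : ℝ) ≤ ∑ p ∈ pr 0 Q, 1 / (p : ℝ) := by
        refine sum_le_sum_of_subset_of_nonneg (fun p hp => ?_) fun p _ _ => by positivity
        obtain ⟨q1, q2, q3⟩ := mem_pr.1 hp
        exact mem_pr.2 ⟨q1, by linarith, q3⟩
      calc Real.exp (2 * ∑ p ∈ pr ((s ^ 90) ^ 2) Q, 1 / (p : ℝ))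
          ≤ Real.exp (2 * C + Real.log (s ^ 20) + Real.log (s ^ 20)) :=
            Real.exp_le_exp.2 (by linarith)
        _ = _ := by
            rw [Real.exp_add, Real.exp_add, Real.exp_log (by positivity)]
            ring
    have hse : ∀ n : ℕ, s ^ n ≤ Real.exp (n * s) := fun n => by
      rw [Real.exp_nat_mul]
      exact pow_le_pow_left₀ hs0.le (by linarith [Real.add_one_le_exp s]) n
    have c3 : s ^ 60 ≤ 2 ^ (2 * ⌈60 * s⌉₊) := by
      refine (hse 60).trans ?_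
      calc Real.exp ((60 : ℕ) * s) ≤ Real.exp ((⌈60 * s⌉₊ : ℕ) * 1) := by
            rw [Real.exp_le_exp, mul_one]
            exact_mod_cast Nat.le_ceil (60 * s)
        _ ≤ _ := by
            rw [Real.exp_nat_mul, pow_mul]
            exact pow_le_pow_left₀ (Real.exp_pos 1).le (by linarith [Real.exp_one_lt_d9]) _
    have c4 : Q ^ (2 * ⌈60 * s⌉₊) ≤ X / s ^ 90 := by
      rw [le_div_iff₀ (by positivity), hQ, ← Real.exp_nat_mul]
      refine (mul_le_mul_of_nonneg_left (hse 90) (Real.exp_pos _).le).trans ?_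
      rw [← Real.exp_add, ← Real.le_log_iff_exp_le hX0]
      have d1 : (⌈60 * s⌉₊ : ℝ) ≤ 61 * s := by
        linarith [Nat.ceil_lt_add_one (by positivity : 0 ≤ 60 * s)]
      have d2 : (⌈60 * s⌉₊ : ℝ) * s ^ 20 ≤ 61 * s ^ 21 := by
        calc (⌈60 * s⌉₊ : ℝ) * s ^ 20 ≤ 61 * s * s ^ 20 := by gcongr
          _ = _ := by ring
      push_cast
      linarith
    have c5 : Y * Real.exp (-∑ p ∈ pr ((s ^ 90) ^ 2) Q, 1 / (p : ℝ)) ≤
        180 * Real.exp C * (X / s ^ 33) := by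
      calc Y * Real.exp (-∑ p ∈ pr ((s ^ 90) ^ 2) Q, 1 / (p : ℝ))
          ≤ X / s ^ 15 * (Real.exp C * (180 * s / s ^ 20)) := by gcongr
        _ = 180 * Real.exp C * (X / s ^ 34) := by field_simp
        _ ≤ _ := mul_le_mul_of_nonneg_left (div_pow_le hX0.le hs (by norm_num)) (by positivity)
    have c6 : (Y / 2 ^ (2 * ⌈60 * s⌉₊) + Q ^ (2 * ⌈60 * s⌉₊)) *
        Real.exp (2 * ∑ p ∈ pr ((s ^ 90) ^ 2) Q, 1 / (p : ℝ)) ≤
        2 * Real.exp (2 * C) * (X / s ^ 33) := by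
      calc (Y / 2 ^ (2 * ⌈60 * s⌉₊) + Q ^ (2 * ⌈60 * s⌉₊)) *
            Real.exp (2 * ∑ p ∈ pr ((s ^ 90) ^ 2) Q, 1 / (p : ℝ))
          ≤ (X / s ^ 15 / s ^ 60 + X / s ^ 90) * (Real.exp (2 * C) * s ^ 40) := by gcongr
        _ = Real.exp (2 * C) * (X / s ^ 35 + X / s ^ 50) := by field_simp
        _ ≤ Real.exp (2 * C) * (X / s ^ 33 + X / s ^ 33) :=
            mul_le_mul_of_nonneg_left (add_le_add (div_pow_le hX0.le hs (by norm_num))
              (div_pow_le hX0.le hs (by norm_num))) (by positivity)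
        _ = _ := by ring
    rw [split Q]
    linarith
  · set Q := X ^ (1 / 10 : ℝ) with hQ
    have hQ1 : 1 < Q := Real.one_lt_rpow hX (by norm_num)
    have b1 := move Q hQ1.le (by rw [hQ, Real.log_rpow hX0]; linarith)
    have hQ20 : Q ^ 20 = X ^ 2 := by
      rw [hQ, ← Real.rpow_natCast, ← Real.rpow_mul hX0.le, ← Real.rpow_natCast]
      norm_num
    have b2 := exc_two h2 (K := s ^ 90) (D := C1 * s ^ 3) hc hα hY hW hη hQ1 (by positivity)
      (by rw [hQ20, hM]; exact div_le_self (by positivity) (by linarith)) (hD s hs)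
    have b3 : C1 * s ^ 3 * 2 ^ 20 * (3 * (Y * W) * (1 / (s ^ 30 * X)) / c) ≤
        3 * 2 ^ 20 * C1 / c * (X / s ^ 33) := by
      rw [mul_assoc 3, eM]
      calc C1 * s ^ 3 * 2 ^ 20 * (3 * (X / s ^ 60) / c) = 3 * 2 ^ 20 * C1 / c * (X / s ^ 57) := by
            field_simp
        _ ≤ _ := mul_le_mul_of_nonneg_left (div_pow_le hX0.le hs (by norm_num)) (by positivity)
    rw [split Q]
    linarith

end PP

theorem pp (h1 : PrimStmt) (h2 : BohrStmt) (h3 : BrunStmt) (h4 : MertensStmt) (h5 : MoveStmt) :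
    PStmt := by
  intro c α hc hα
  obtain ⟨C, hC, h⟩ := PP.main h1 h2 h3 h4 h5 hc hα
  refine ⟨C, hC, ?_⟩
  filter_upwards [eventually_gt_atTop 1] with X hX x Y W hx hY hW hM y1 y2 w1 w2
  have hx0 : 0 < x := by linarith
  have hs : 1 ≤ x ^ (1 / 30 : ℝ) := Real.one_le_rpow (by linarith) (by norm_num)
  have e1 : (x ^ (1 / 30 : ℝ)) ^ 30 = x := by
    rw [← Real.rpow_natCast, ← Real.rpow_mul hx0.le]
    norm_num
  have e2 : C * X * x ^ (-1.1 : ℝ) = C * (X / (x ^ (1 / 30 : ℝ)) ^ 33) := by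
    rw [← Real.rpow_natCast, ← Real.rpow_mul hx0.le, Real.rpow_neg hx0.le, mul_assoc,
      div_eq_mul_inv X]
    norm_num
  have h' := fun Y W => h X _ Y W hX hs
  rw [e1] at h'
  rw [e2]
  rcases le_total Y W with hYW | hYW
  · exact h' Y W hx hY hYW hM y1 w2
  · exact (Nat.cast_le.2 (PP.swap_le α Y W _)).trans
      (h' W Y hx hW hYW (by rw [mul_comm, hM]) w1 y2)

end Pool.Agent.Lib.MP_30b5ba_nt.P
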