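import Pool.Agent.Lib.MP_30b5ba_nt.P.Stmt

/-! Growth of the parameters. -/

namespace Pool.Agent.Lib.MP_30b5ba_nt.P

open Filter Topology Asymptotics

theorem tendsto_logN : Tendsto (fun N : ℕ => Real.log N) atTop atTop :=
  Real.tendsto_log_atTop.comp tendsto_natCast_atTop_atTop

theorem tendsto_loglogN : Tendsto (fun N : ℕ => Real.log (Real.log N)) atTop atTop :=
  Real.tendsto_log_atTop.comp tendsto_logN

/-- powers of the logarithm are eventually below any positive power -/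
theorem ev_log_pow (C : ℝ) (k : ℕ) {δ : ℝ} (hδ : 0 < δ) :
    ∀ᶠ x : ℝ in atTop, C * (1 + Real.log x) ^ k ≤ x ^ δ := by
  have h := (isLittleO_log_rpow_rpow_atTop (k : ℝ) hδ).bound
    (c := 1 / ((|C| + 1) * 2 ^ k)) (by positivity)
  filter_upwards [h, Real.tendsto_log_atTop.eventually_ge_atTop 1, eventually_ge_atTop 0]
    with x h1 h2 h3
  rw [Real.rpow_natCast, Real.norm_of_nonneg (by positivity),
    Real.norm_of_nonneg (by positivity), one_div, inv_mul_eq_div, le_div_iff₀ (by positivity)]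
    at h1
  have h4 : (1 + Real.log x) ^ k ≤ (2 * Real.log x) ^ k := by gcongr; linarith
  calc C * (1 + Real.log x) ^ k ≤ (|C| + 1) * (2 * Real.log x) ^ k := by
        have := le_abs_self C
        gcongr
        linarith
    _ = Real.log x ^ k * ((|C| + 1) * 2 ^ k) := by rw [mul_pow]; ring
    _ ≤ _ := h1

/-- a larger exponent absorbs a constant -/
theorem ev_rpow (C : ℝ) {a b : ℝ} (h : a < b) : ∀ᶠ x : ℝ in atTop, C * x ^ a ≤ x ^ b := by
  filter_upwards [(tendsto_rpow_atTop (sub_pos.2 h)).eventually_ge_atTop C,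
    eventually_gt_atTop 0] with x h1 h2
  calc C * x ^ a ≤ x ^ (b - a) * x ^ a := by gcongr
    _ = x ^ b := by rw [← Real.rpow_add h2]; ring_nf

theorem rpow_le_TT {δ : ℝ} (hδ : 0 < δ) : ∀ᶠ N : ℕ in atTop, Real.log N ^ (1 - δ) ≤ TT N := by
  filter_upwards [tendsto_logN.eventually (ev_log_pow 1 2 hδ),
    tendsto_loglogN.eventually_gt_atTop 0, tendsto_logN.eventually_gt_atTop 0] with N h1 h2 h3
  rw [TT, le_div_iff₀ (by positivity)]
  calc Real.log N ^ (1 - δ) * Real.log (Real.log N) ^ 2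
      ≤ Real.log N ^ (1 - δ) * Real.log N ^ δ := by
        gcongr
        refine le_trans ?_ h1
        rw [one_mul]
        gcongr
        linarith
    _ = Real.log N := by rw [← Real.rpow_add h3]; simp

theorem tendsto_TT : Tendsto TT atTop atTop :=
  tendsto_atTop_mono' _ (rpow_le_TT (δ := 1 / 2) (by norm_num))
    ((tendsto_rpow_atTop (by norm_num)).comp tendsto_logN)

theorem tendsto_tt : Tendsto tt atTop atTop := Real.tendsto_log_atTop.comp tendsto_TT

theorem TT_le : ∀ᶠ N : ℕ in atTop, TT N ≤ Real.log N := by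
  filter_upwards [tendsto_loglogN.eventually_ge_atTop 1, tendsto_logN.eventually_ge_atTop 0]
    with N h1 h2
  exact div_le_self h2 (one_le_pow₀ h1)

theorem log_le_TT {δ : ℝ} (hδ : 0 < δ) : ∀ᶠ N : ℕ in atTop, Real.log N ≤ TT N ^ (1 + δ) := by
  filter_upwards [rpow_le_TT (δ := δ / (1 + δ)) (by positivity),
    tendsto_logN.eventually_ge_atTop 0] with N h1 h2
  have h3 := Real.rpow_le_rpow (by positivity) h1 (show 0 ≤ 1 + δ by positivity)
  rwa [← Real.rpow_mul h2, show (1 - δ / (1 + δ)) * (1 + δ) = 1 by field_simp; ring,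
    Real.rpow_one] at h3

theorem tt_le : ∀ᶠ N : ℕ in atTop, tt N ≤ Real.log (Real.log N) := by
  filter_upwards [TT_le, tendsto_TT.eventually_gt_atTop 0] with N h1 h2
  exact Real.log_le_log h2 h1

theorem loglog_le : ∀ᶠ N : ℕ in atTop, Real.log (Real.log N) ≤ 2 * tt N := by
  filter_upwards [log_le_TT one_pos, tendsto_TT.eventually_gt_atTop 0,
    tendsto_logN.eventually_gt_atTop 0] with N h1 h2 h3
  have h4 := Real.log_le_log h3 h1
  rwa [Real.log_rpow h2, one_add_one_eq_two] at h4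

/-- powers of `t` are eventually below any positive power of `T` -/
theorem ev_tt_pow (C : ℝ) (k : ℕ) {δ : ℝ} (hδ : 0 < δ) :
    ∀ᶠ N : ℕ in atTop, C * (1 + tt N) ^ k ≤ TT N ^ δ :=
  tendsto_TT.eventually (ev_log_pow C k hδ)

theorem ev_TT_rpow (C : ℝ) {a b : ℝ} (h : a < b) :
    ∀ᶠ N : ℕ in atTop, C * TT N ^ a ≤ TT N ^ b :=
  tendsto_TT.eventually (ev_rpow C h)

theorem two_rpow_tt {N : ℕ} (h : 0 < TT N) (x : ℝ) :
    (2 : ℝ) ^ (x * tt N) = TT N ^ (x * Real.log 2) := by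
  rw [Real.rpow_def_of_pos two_pos, Real.rpow_def_of_pos h, tt]
  congr 1
  ring

theorem exp_mul_tt {N : ℕ} (h : 0 < TT N) (x : ℝ) : Real.exp (x * tt N) = TT N ^ x := by
  rw [Real.rpow_def_of_pos h, tt, mul_comm]

/-- the cut-off points are ordered -/
theorem ordered : ∀ᶠ N : ℕ in atTop, 2 ≤ ww N ∧ ww N ≤ y0 N ∧ y0 N ≤ yy N := by
  filter_upwards [tendsto_logN.eventually_ge_atTop 2, loglog_le,
    ev_tt_pow 8 1 (δ := 0.3) (by norm_num), tendsto_TT.eventually_ge_atTop 1] with N h1 h2 h3 h4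
  refine ⟨?_, ?_, ?_⟩
  · rw [ww]
    calc (2 : ℝ) ≤ 2 ^ 4 := by norm_num
      _ ≤ _ := by gcongr
  · rw [ww, y0, ← Real.log_le_iff_le_exp (by positivity), Real.log_pow]
    push_cast
    linarith
  · rw [y0, yy, Real.exp_le_exp]
    calc TT N ^ (0.3 : ℝ) ≤ TT N ^ (1 : ℝ) := Real.rpow_le_rpow_of_exponent_le h4 (by norm_num)
      _ = _ := Real.rpow_one _

theorem Arc.mono {a b a' b' x : ℝ} (h : Arc a b x) (ha : a' ≤ a) (hb : b ≤ b') : Arc a' b' x := by
  obtain ⟨k, h1, h2⟩ := h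
  exact ⟨k, ha.trans h1, h2.trans hb⟩

theorem Short.mono {β W η W' η' : ℝ} (h : Short β W η) (hW : W ≤ W') (hη : η ≤ η') :
    Short β W' η' := by
  obtain ⟨w, h1, h2, z, h3⟩ := h
  exact ⟨w, h1, h2.trans hW, z, h3.trans hη⟩

end Pool.Agent.Lib.MP_30b5ba_nt.P
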