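import Pool.Agent.Lib.MP_30b5ba_nt.P.Param
import Pool.Agent.Shared.BrunSieve

/-!
Primitive points in a box, the size of a Bohr set, and the pure sieve of Brun.
-/

namespace Pool.Agent.Lib.MP_30b5ba_nt.P

open Finset Filter Topology MeasureTheory
open scoped Classical

namespace Prim

/-- well spaced points in an interval. -/
lemma gap {ι : Type*} (s : Finset ι) (f : ι → ℝ) (a l d : ℝ) (hd : 0 < d) (hl : 0 ≤ l)
    (hf : ∀ i ∈ s, a ≤ f i ∧ f i ≤ a + l)
    (hgap : ∀ i ∈ s, ∀ j ∈ s, i ≠ j → d ≤ |f i - f j|) : (#s : ℝ) ≤ 1 + l / d := by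
  have h1 : #s ≤ #(range (⌊l / d⌋₊ + 1)) := by
    refine card_le_card_of_injOn (fun i => ⌊(f i - a) / d⌋₊) (fun i hi => ?_) fun i hi j hj h => ?_
    · refine mem_coe.2 (mem_range.2 (Nat.lt_succ_of_le (Nat.floor_le_floor ?_)))
      exact div_le_div_of_nonneg_right (by linarith [(hf i (mem_coe.1 hi)).2]) hd.le
    · by_contra hne
      have g := hgap i (mem_coe.1 hi) j (mem_coe.1 hj) hne
      have a1 : 0 ≤ (f i - a) / d := div_nonneg (by linarith [(hf i (mem_coe.1 hi)).1]) hd.le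
      have a2 : 0 ≤ (f j - a) / d := div_nonneg (by linarith [(hf j (mem_coe.1 hj)).1]) hd.le
      have b1 := Nat.floor_le a1
      have b2 := Nat.floor_le a2
      have c1 := Nat.lt_floor_add_one ((f i - a) / d)
      have c2 := Nat.lt_floor_add_one ((f j - a) / d)
      have h' : (⌊(f i - a) / d⌋₊ : ℝ) = ⌊(f j - a) / d⌋₊ := by exact_mod_cast h
      have e1 : |(f i - a) / d - (f j - a) / d| < 1 := abs_lt.2 ⟨by linarith, by linarith⟩
      rw [← sub_div, abs_div, abs_of_pos hd, div_lt_one hd, sub_sub_sub_cancel_right] at e1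
      linarith
  rw [card_range] at h1
  have h2 : (#s : ℝ) ≤ (⌊l / d⌋₊ : ℝ) + 1 := by exact_mod_cast h1
  have h3 := Nat.floor_le (div_nonneg hl hd.le)
  linarith

/-- two different reduced fractions have a determinant at least one. -/
lemma one_le_det {w w' : ℕ} {z z' : ℤ} (h : IsCoprime (w : ℤ) z) (h' : IsCoprime (w' : ℤ) z')
    (hne : w ≠ w') : (1 : ℝ) ≤ |(w : ℝ) * z' - w' * z| := by
  have h0 : (w : ℤ) * z' - w' * z ≠ 0 := by
    intro h0
    have e : (w : ℤ) * z' = w' * z := sub_eq_zero.1 h0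
    have a1 : (w : ℤ) ∣ w' := h.dvd_of_dvd_mul_right ⟨z', e.symm⟩
    have a2 : (w' : ℤ) ∣ w := h'.dvd_of_dvd_mul_right ⟨z, e⟩
    exact hne (Nat.dvd_antisymm (Int.natCast_dvd_natCast.1 a1) (Int.natCast_dvd_natCast.1 a2))
  have h1 : (1 : ℤ) ≤ |(w : ℤ) * z' - w' * z| := Int.one_le_abs h0
  exact_mod_cast h1

end Prim

open Prim

theorem prim : PrimStmt := by
  intro β W η hW hη
  set S := {w ∈ Icc 1 ⌊W⌋₊ | ∃ z : ℤ, IsCoprime ((w : ℕ) : ℤ) z ∧ |β * ((w : ℕ) : ℝ) - z| ≤ η}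
    with hS
  have hz : ∀ w ∈ S, ∃ z : ℤ, IsCoprime (w : ℤ) z ∧ |β * (w : ℝ) - z| ≤ η :=
    fun w hw => (mem_filter.1 hw).2
  choose! z hz1 hz2 using hz
  have hw1 : ∀ w ∈ S, (1 : ℝ) ≤ w := fun w hw => by
    exact_mod_cast (mem_Icc.1 (mem_filter.1 hw).1).1
  have hw2 : ∀ w ∈ S, (w : ℝ) ≤ W := fun w hw =>
    (Nat.cast_le.2 (mem_Icc.1 (mem_filter.1 hw).1).2).trans (Nat.floor_le hW.le)
  have h1 : (#{w ∈ S | |β * ((w : ℕ) : ℝ) - z w| * W ≤ w * η} : ℝ) ≤
      1 + (2 * η / W) / (1 / W ^ 2) := by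
    refine gap _ (fun w : ℕ => (z w : ℝ) / w) (β - η / W) _ _ (by positivity) (by positivity)
      (fun w hw => ?_) fun w hw w' hw' hne => ?_
    · obtain ⟨a1, a2⟩ := mem_filter.1 hw
      have a3 : (0 : ℝ) < w := by linarith [hw1 w a1]
      have a4 : |β - (z w : ℝ) / w| ≤ η / W := by
        have e : β - (z w : ℝ) / w = (β * w - z w) / w := by field_simp
        rw [e, abs_div, abs_of_pos a3, div_le_div_iff₀ a3 hW]
        linarith
      have a5 := abs_le.1 a4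
      have e2 : 2 * η / W = η / W + η / W := by ring
      constructor <;> linarith [a5.1, a5.2]
    · have a1 := (mem_filter.1 hw).1
      have b1 := (mem_filter.1 hw').1
      have a3 : (0 : ℝ) < w := by linarith [hw1 w a1]
      have b3 : (0 : ℝ) < w' := by linarith [hw1 w' b1]
      have e : (z w : ℝ) / w - (z w' : ℝ) / w' = ((w' : ℝ) * z w - w * z w') / (w * w') := by
        field_simp
      rw [e, abs_div, abs_of_pos (mul_pos a3 b3)]
      refine div_le_div₀ (abs_nonneg _) (one_le_det (hz1 w' b1) (hz1 w a1) hne.symm)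
        (mul_pos a3 b3) ?_
      rw [sq]
      exact mul_le_mul (hw2 w a1) (hw2 w' b1) b3.le hW.le
  have h2 : (#{w ∈ S | ¬ |β * ((w : ℕ) : ℝ) - z w| * W ≤ w * η} : ℝ) ≤
      1 + (2 * W / η) / (1 / η ^ 2) := by
    have hpos : ∀ w ∈ {w ∈ S | ¬ |β * ((w : ℕ) : ℝ) - z w| * W ≤ w * η},
        0 < |β * ((w : ℕ) : ℝ) - z w| := by
      intro w hw
      obtain ⟨a1, a2⟩ := mem_filter.1 hw
      have a3 : (0 : ℝ) < w := by linarith [hw1 w a1]
      have a4 : 0 < |β * (w : ℝ) - z w| * W := lt_trans (mul_pos a3 hη) (not_le.1 a2)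
      exact (mul_pos_iff_of_pos_right hW).1 a4
    refine gap _ (fun w : ℕ => (w : ℝ) / (β * (w : ℝ) - z w)) (-(W / η)) _ _ (by positivity)
      (by positivity) (fun w hw => ?_) fun w hw w' hw' hne => ?_
    · obtain ⟨a1, a2⟩ := mem_filter.1 hw
      have a3 : (0 : ℝ) < w := by linarith [hw1 w a1]
      have a4 : |(w : ℝ) / (β * (w : ℝ) - z w)| ≤ W / η := by
        rw [abs_div, abs_of_pos a3, div_le_div_iff₀ (hpos w hw) hη]
        linarith [not_le.1 a2]
      have a5 := abs_le.1 a4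
      have e2 : 2 * W / η = W / η + W / η := by ring
      constructor <;> linarith [a5.1, a5.2]
    · have a1 := (mem_filter.1 hw).1
      have b1 := (mem_filter.1 hw').1
      have a3 := hpos w hw
      have b3 := hpos w' hw'
      have a4 := abs_pos.1 a3
      have b4 := abs_pos.1 b3
      have e : (w : ℝ) / (β * (w : ℝ) - z w) - (w' : ℝ) / (β * (w' : ℝ) - z w') =
          ((w' : ℝ) * z w - w * z w') / ((β * (w : ℝ) - z w) * (β * (w' : ℝ) - z w')) := by
        rw [div_sub_div _ _ a4 b4]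
        congr 1
        ring
      rw [e, abs_div, abs_mul]
      refine div_le_div₀ (abs_nonneg _) (one_le_det (hz1 w' b1) (hz1 w a1) hne.symm)
        (mul_pos a3 b3) ?_
      rw [sq]
      exact mul_le_mul (hz2 w a1) (hz2 w' b1) b3.le hη.le
  have h3 : (#S : ℝ) = #{w ∈ S | |β * ((w : ℕ) : ℝ) - z w| * W ≤ w * η} +
      #{w ∈ S | ¬ |β * ((w : ℕ) : ℝ) - z w| * W ≤ w * η} := by
    exact_mod_cast (card_filter_add_card_filter_not _).symm
  have e1 : (2 * η / W) / (1 / W ^ 2) = 2 * W * η := by field_simp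
  have e2 : (2 * W / η) / (1 / η ^ 2) = 2 * W * η := by field_simp
  rw [e1] at h1
  rw [e2] at h2
  linarith

theorem bohr : BohrStmt := by
  intro c α M η hc hα hM hη
  set S := {m ∈ Icc 1 ⌊M⌋₊ | ∃ z : ℤ, |α * ((m : ℕ) : ℝ) - z| ≤ η} with hS
  have hz : ∀ m ∈ S, ∃ z : ℤ, |α * (m : ℝ) - z| ≤ η := fun w hw => (mem_filter.1 hw).2
  choose! z hz using hz
  have hw1 : ∀ w ∈ S, 1 ≤ w := fun w hw => (mem_Icc.1 (mem_filter.1 hw).1).1
  have hw2 : ∀ w ∈ S, (w : ℝ) ≤ M := fun w hw =>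
    (Nat.cast_le.2 (mem_Icc.1 (mem_filter.1 hw).1).2).trans (Nat.floor_le hM.le)
  rcases S.eq_empty_or_nonempty with h0 | ⟨m0, hm0⟩
  · rw [h0, card_empty, Nat.cast_zero]
    positivity
  have h1 : c ≤ M * η := (hα m0 (hw1 m0 hm0) (z m0)).trans
    (mul_le_mul (hw2 m0 hm0) (hz m0 hm0) (abs_nonneg _) hM.le)
  have key : ∀ m ∈ S, ∀ m' ∈ S, m' < m → c / M ≤ |α * (m : ℝ) - z m - (α * (m' : ℝ) - z m')| := by
    intro m hm m' _ hlt
    have a1 := hα (m - m') (by omega) (z m - z m')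
    rw [Nat.cast_sub hlt.le, Int.cast_sub] at a1
    have e : α * ((m : ℝ) - m') - ((z m : ℝ) - z m') =
        α * (m : ℝ) - z m - (α * (m' : ℝ) - z m') := by ring
    rw [e] at a1
    rw [div_le_iff₀ hM, mul_comm]
    refine a1.trans (mul_le_mul_of_nonneg_right ?_ (abs_nonneg _))
    have := hw2 m hm
    have : (0 : ℝ) ≤ m' := Nat.cast_nonneg _
    linarith
  have h2 : (#S : ℝ) ≤ 1 + (2 * η) / (c / M) := by
    refine gap _ (fun m : ℕ => α * (m : ℝ) - z m) (-η) _ _ (by positivity) (by positivity)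
      (fun m hm => ?_) fun m hm m' hm' hne => ?_
    · have := abs_le.1 (hz m hm)
      constructor <;> linarith [this.1, this.2]
    · rcases lt_or_gt_of_ne hne with h | h
      · rw [abs_sub_comm]
        exact key m' hm' m hm h
      · exact key m hm m' hm' h
  have e1 : (2 * η) / (c / M) = 2 * (M * η / c) := by field_simp
  have e2 : 3 * M * η / c = 3 * (M * η / c) := by ring
  have h3 : 1 ≤ M * η / c := (one_le_div hc).2 h1
  rw [e2]
  linarith

theorem brun : BrunStmt := by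
  intro 𝒜 P X E z h hP hz hz1 hX hE hh hD
  have hp0 : ∀ r ∈ P, (0 : ℝ) < r := fun r hr => by exact_mod_cast (hP r hr).pos
  have hg0 : ∀ r ∈ P, (0 : ℝ) ≤ 1 / r := fun r hr => by positivity
  have step1 : (#{n ∈ 𝒜 | ∀ r ∈ P, ¬ r ∣ n} : ℝ) ≤ ∑ D ∈ P.powerset,
      (if #D ≤ h then (-1 : ℝ) ^ #D else 0) * #{n ∈ 𝒜 | (∏ p ∈ D, p) ∣ n} := by
    have e1 : ∀ D ∈ P.powerset, (if #D ≤ h then (-1 : ℝ) ^ #D else 0) *
        #{n ∈ 𝒜 | (∏ p ∈ D, p) ∣ n} = ∑ n ∈ 𝒜,
          if D ∈ (P.filter (fun r => r ∣ n)).powerset then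
            (if #D ≤ h then (-1 : ℝ) ^ #D else 0) else 0 := by
      intro D hD
      rw [← sum_filter, sum_const, nsmul_eq_mul, mul_comm]
      congr 3
      refine filter_congr fun n _ => ?_
      simp only [mem_powerset] at hD ⊢
      exact ⟨fun H r hr => mem_filter.2 ⟨hD hr, (dvd_prod_of_mem (fun p : ℕ => p) hr).trans H⟩,
        fun H => prod_primes_dvd n (fun r hr => (hP r (hD hr)).prime)
          fun r hr => (mem_filter.1 (H hr)).2⟩
    rw [sum_congr rfl e1, sum_comm, card_filter]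
    push_cast
    refine sum_le_sum fun n _ => ?_
    have hsub : (P.filter (fun r => r ∣ n)).powerset ⊆ P.powerset :=
      powerset_mono.2 (filter_subset _ _)
    rw [← sum_filter, filter_mem_eq_inter, inter_eq_right.2 hsub]
    refine le_trans (le_of_eq ?_) (Pool.Agent.Shared.BrunSieve.bonf _ h hh)
    congr 1
    rw [filter_eq_empty_iff]
  have step2 : ∀ D ∈ P.powerset, (if #D ≤ h then (-1 : ℝ) ^ #D else 0) *
      #{n ∈ 𝒜 | (∏ p ∈ D, p) ∣ n} ≤ X * ∏ r ∈ D, (-(1 / (r : ℝ))) +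
        (X / 2 ^ h + E * z ^ h) * ∏ r ∈ D, (2 * (1 / (r : ℝ))) := by
    intro D hD'
    have hDP : D ⊆ P := mem_powerset.1 hD'
    have hG0 : 0 ≤ ∏ r ∈ D, (1 / (r : ℝ)) := prod_nonneg fun r hr => hg0 r (hDP hr)
    have e1 : ∏ r ∈ D, (-(1 / (r : ℝ))) = (-1) ^ #D * ∏ r ∈ D, (1 / (r : ℝ)) := by
      rw [← prod_const, ← prod_mul_distrib]
      exact prod_congr rfl fun r _ => by ring
    have e2 : ∏ r ∈ D, (2 * (1 / (r : ℝ))) = 2 ^ #D * ∏ r ∈ D, (1 / (r : ℝ)) := by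
      rw [prod_mul_distrib, prod_const]
    have habs : |(-1 : ℝ) ^ #D| = 1 := by rw [abs_pow, abs_neg, abs_one, one_pow]
    have hzh : (0 : ℝ) ≤ E * z ^ h := by positivity
    rw [e1, e2]
    split_ifs with hc
    · have hap := hD D hDP hc
      have e0 : X / ∏ p ∈ D, (p : ℝ) = X * ∏ r ∈ D, (1 / (r : ℝ)) := by
        rw [prod_div_distrib, prod_const_one, mul_one_div]
      rw [e0] at hap
      have e3 : 1 ≤ z ^ h * ∏ r ∈ D, (1 / (r : ℝ)) := by
        calc (1 : ℝ) ≤ ∏ r ∈ D, (z * (1 / (r : ℝ))) := by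
              refine one_le_prod fun r hr => ?_
              rw [mul_one_div, one_le_div (hp0 r (hDP hr))]
              exact hz r (hDP hr)
          _ = z ^ #D * ∏ r ∈ D, (1 / (r : ℝ)) := by rw [prod_mul_distrib, prod_const]
          _ ≤ _ := mul_le_mul_of_nonneg_right (pow_le_pow_right₀ hz1 hc) hG0
      have e4 : (-1 : ℝ) ^ #D * (#{n ∈ 𝒜 | (∏ p ∈ D, p) ∣ n} - X * ∏ r ∈ D, (1 / (r : ℝ))) ≤
          E * z ^ h * ∏ r ∈ D, (1 / (r : ℝ)) := by
        refine (le_abs_self _).trans ?_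
        rw [abs_mul, habs, one_mul, mul_assoc]
        exact hap.trans (le_mul_of_one_le_right hE e3)
      have e5 : (1 : ℝ) ≤ 2 ^ #D := one_le_pow₀ (by norm_num)
      have e6 : (0 : ℝ) ≤ X / 2 ^ h * (2 ^ #D * ∏ r ∈ D, (1 / (r : ℝ))) := by positivity
      have e7 : E * z ^ h * ∏ r ∈ D, (1 / (r : ℝ)) ≤
          E * z ^ h * (2 ^ #D * ∏ r ∈ D, (1 / (r : ℝ))) :=
        mul_le_mul_of_nonneg_left (le_mul_of_one_le_left hG0 e5) hzh
      rw [add_mul]
      rw [mul_sub, ← mul_left_comm] at e4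
      linarith
    · have e5 : (1 : ℝ) ≤ 2 ^ #D / 2 ^ h := by
        rw [le_div_iff₀ (by positivity), one_mul]
        exact pow_le_pow_right₀ (by norm_num) (by omega)
      have e6 : (0 : ℝ) ≤ E * z ^ h * (2 ^ #D * ∏ r ∈ D, (1 / (r : ℝ))) := by positivity
      have e7 : -1 ≤ (-1 : ℝ) ^ #D := by have := abs_le.1 habs.le; exact this.1
      have e8 : 0 ≤ (X * ∏ r ∈ D, (1 / (r : ℝ))) * ((-1 : ℝ) ^ #D + 2 ^ #D / 2 ^ h) :=
        mul_nonneg (by positivity) (by linarith)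
      have e9 : X * ((-1 : ℝ) ^ #D * ∏ r ∈ D, (1 / (r : ℝ))) + (X / 2 ^ h + E * z ^ h) *
          (2 ^ #D * ∏ r ∈ D, (1 / (r : ℝ))) =
          (X * ∏ r ∈ D, (1 / (r : ℝ))) * ((-1 : ℝ) ^ #D + 2 ^ #D / 2 ^ h) +
            E * z ^ h * (2 ^ #D * ∏ r ∈ D, (1 / (r : ℝ))) := by ring
      rw [e9, zero_mul]
      linarith
  refine step1.trans ((sum_le_sum step2).trans (le_of_eq ?_))
  rw [sum_add_distrib, ← mul_sum, ← mul_sum, ← prod_one_add, ← prod_one_add]
  simp only [sub_eq_add_neg, mul_one_div]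

end Pool.Agent.Lib.MP_30b5ba_nt.P
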