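import Pool.Agent.Lib.MP_30b5ba_nt.P.Param

/-!
The count in an unbalanced box.
-/

namespace Pool.Agent.Lib.MP_30b5ba_nt.P

open Finset Filter Topology MeasureTheory
open scoped Classical

namespace Shift

theorem harm_nat {m M : ℕ} (hm : 1 ≤ m) (h : m ≤ M) :
    0 ≤ ∑ u ∈ Ico m M, (1 / (u : ℝ)) - (Real.log M - Real.log m) ∧
      ∑ u ∈ Ico m M, (1 / (u : ℝ)) - (Real.log M - Real.log m) ≤ 1 / m - 1 / M := by
  induction M, h using Nat.le_induction with
  | base => simp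
  | succ M h ih =>
    rw [sum_Ico_succ_top h]
    have hM : (0 : ℝ) < M := by exact_mod_cast (by omega : 0 < M)
    have e1 : Real.log ((M : ℝ) + 1) - Real.log M ≤ 1 / M := by
      rw [← Real.log_div (by positivity) hM.ne']
      have := Real.log_le_sub_one_of_pos (show 0 < ((M : ℝ) + 1) / M by positivity)
      calc _ ≤ ((M : ℝ) + 1) / M - 1 := this
        _ = 1 / M := by field_simp; ring
    have e2 : 1 / ((M : ℝ) + 1) ≤ Real.log ((M : ℝ) + 1) - Real.log M := by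
      have := Real.log_le_sub_one_of_pos (show 0 < (M : ℝ) / (M + 1) by positivity)
      rw [Real.log_div hM.ne' (by positivity)] at this
      have e : (M : ℝ) / (M + 1) - 1 = -(1 / (M + 1)) := by field_simp; ring
      linarith
    push_cast
    constructor <;> linarith [ih.1, ih.2]

theorem log_ceil {P : ℝ} (hP : 0 < P) :
    0 ≤ Real.log (⌈P⌉₊ : ℝ) - Real.log P ∧ Real.log (⌈P⌉₊ : ℝ) - Real.log P ≤ 1 / P := by
  have h1 : P ≤ (⌈P⌉₊ : ℝ) := Nat.le_ceil P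
  have h2 : (⌈P⌉₊ : ℝ) < P + 1 := Nat.ceil_lt_add_one hP.le
  refine ⟨sub_nonneg.2 (Real.log_le_log hP h1), ?_⟩
  rw [← Real.log_div (by linarith) hP.ne']
  calc _ ≤ (⌈P⌉₊ : ℝ) / P - 1 := Real.log_le_sub_one_of_pos (div_pos (by linarith) hP)
    _ ≤ (P + 1) / P - 1 := by gcongr
    _ = 1 / P := by field_simp; ring

theorem harm {P R : ℝ} (hP : 0 < P) (h : P ≤ R) :
    |∑ u ∈ Ico ⌈P⌉₊ ⌈R⌉₊, (1 / (u : ℝ)) - Real.log (R / P)| ≤ 2 / P := by
  have hR : 0 < R := hP.trans_le h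
  have hm : 1 ≤ ⌈P⌉₊ := Nat.ceil_pos.2 hP
  obtain ⟨h1, h2⟩ := harm_nat hm (Nat.ceil_mono h)
  obtain ⟨h3, h4⟩ := log_ceil hP
  obtain ⟨h5, h6⟩ := log_ceil hR
  have h7 : 1 / R ≤ 1 / P := one_div_le_one_div_of_le hP h
  have h8 : 1 / (⌈P⌉₊ : ℝ) ≤ 1 / P := one_div_le_one_div_of_le hP (Nat.le_ceil P)
  have h9 : 0 ≤ 1 / (⌈R⌉₊ : ℝ) := by positivity
  have h10 : 0 ≤ 1 / P := by positivity
  have e : 2 / P = 1 / P + 1 / P := by ring
  rw [Real.log_div hR.ne' hP.ne', abs_le]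
  constructor <;> linarith

/-- the box count as a sum over the first coordinate. -/
theorem box_eq (α a b : ℝ) (N : ℕ) {A B : ℝ} (μ : ℝ) (hA : 0 < A * N) :
    box α a b N A B μ = ∑ u ∈ Ico ⌈A * N⌉₊ ⌈B * N⌉₊,
      #{w ∈ Ioc 0 (0 + ⌊μ * N ^ 2 / u⌋₊) | Arc (a / N) (b / N) (α * u * ((w : ℕ) : ℝ))} := by
  rw [box, card_eq_sum_card_fiberwise (f := Prod.fst) (t := Ico ⌈A * N⌉₊ ⌈B * N⌉₊)]
  · refine sum_congr rfl fun u hu => ?_
    rw [mem_Ico, Nat.ceil_le, Nat.lt_ceil] at hu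
    have hu0 : (0 : ℝ) < u := hA.trans_le hu.1
    have hu1 : 1 ≤ u := by exact_mod_cast hu0
    refine card_bij (fun p _ => p.2) ?_ ?_ ?_
    · rintro ⟨x, y⟩ hp
      simp only [mem_filter, mem_hyp] at hp
      obtain ⟨⟨⟨-, h2, h3⟩, -, -, h4⟩, rfl⟩ := hp
      simp only [mem_filter, mem_Ioc, zero_add]
      refine ⟨⟨h2, ?_⟩, ?_⟩
      · rw [Nat.le_floor_iff' (by omega), le_div_iff₀ hu0]
        push_cast at h3
        linarith
      · push_cast at h4
        rwa [mul_assoc]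
    · rintro ⟨x, y⟩ hp ⟨x', y'⟩ hp' h
      simp only [mem_filter] at hp hp' h
      rw [hp.2, hp'.2, h]
    · intro w hw
      simp only [mem_filter, mem_Ioc, zero_add] at hw
      obtain ⟨⟨h1, h2⟩, h3⟩ := hw
      refine ⟨(u, w), ?_, rfl⟩
      simp only [mem_filter, mem_hyp]
      refine ⟨⟨⟨hu1, h1, ?_⟩, hu.1, hu.2, ?_⟩, trivial⟩
      · rw [Nat.le_floor_iff' (by omega), le_div_iff₀ hu0] at h2
        push_cast
        linarith
      · push_cast
        rwa [← mul_assoc]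
  · rintro ⟨x, y⟩ hp
    simp only [coe_filter, Set.mem_ofPred_eq] at hp
    simp only [coe_Ico, Set.mem_Ico, Nat.ceil_le, Nat.lt_ceil]
    exact ⟨hp.2.1, hp.2.2.1⟩

theorem choose_tau (C D ε : ℝ) (hε : 0 < ε) :
    ∃ τ : ℕ, 1 ≤ τ ∧ D * (((τ : ℝ) + 1) / (τ : ℝ) ^ 2 + C * (τ : ℝ) ^ (-0.1 : ℝ)) ≤ ε := by
  have h1 : Tendsto (fun x : ℝ => (x + 1) / x ^ 2) atTop (𝓝 0) := by
    have a1 : Tendsto (fun x : ℝ => x⁻¹ + x⁻¹ ^ 2) atTop (𝓝 (0 + 0 ^ 2)) :=
      tendsto_inv_atTop_zero.add (tendsto_inv_atTop_zero.pow 2)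
    rw [show (0 : ℝ) + 0 ^ 2 = 0 by norm_num] at a1
    refine a1.congr' ?_
    filter_upwards [eventually_gt_atTop 0] with x hx
    field_simp
  have h2 : Tendsto (fun x : ℝ => x ^ (-0.1 : ℝ)) atTop (𝓝 0) :=
    tendsto_rpow_neg_atTop (by norm_num)
  have h3 : Tendsto (fun x : ℝ => D * ((x + 1) / x ^ 2 + C * x ^ (-0.1 : ℝ))) atTop
      (𝓝 (D * (0 + C * 0))) := (h1.add (h2.const_mul C)).const_mul D
  rw [show D * (0 + C * 0) = 0 by ring] at h3
  have h4 := (h3.comp tendsto_natCast_atTop_atTop).eventually (ge_mem_nhds hε)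
  obtain ⟨τ, h5, h6⟩ := ((eventually_ge_atTop 1).and h4).exists
  exact ⟨τ, h5, h6⟩

end Shift

open Shift in
theorem shift (h1 : LCStmt) (h2 : TailStmt) : ShiftStmt := by
  intro c α hc hb a b A B μ ε ha hab hb1 hA hAB hμ hε
  obtain ⟨C, hC, hT⟩ := h2 c α hc hb
  have hB : 0 < B := hA.trans hAB
  set K : ℝ := Real.exp 1 * B + μ / A + 1 with hK
  have hK1 : 1 ≤ K := by
    have : 0 ≤ Real.exp 1 * B + μ / A := by positivity
    linarith
  have hK2 : Real.exp 1 * B ≤ K := by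
    have : 0 ≤ μ / A := by positivity
    linarith
  have hK3 : μ / A ≤ K := by
    have : 0 ≤ Real.exp 1 * B := by positivity
    linarith
  have hK0 : 0 < K := by linarith
  obtain ⟨τ, hτ, hτε⟩ := choose_tau C ((6 + 2 * K) * K) (ε / 2) (by positivity)
  have hτ1 : (1 : ℝ) ≤ τ := by exact_mod_cast hτ
  set L : ℝ := (τ : ℝ) ^ 2 with hL
  have hL1 : 1 ≤ L := one_le_pow₀ hτ1
  have hL0 : 0 < L := by linarith
  refine ⟨L, hL1, ?_⟩
  have hX : Tendsto (fun N : ℕ => K * N) atTop atTop :=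
    tendsto_natCast_atTop_atTop.const_mul_atTop hK0
  have hE : Tendsto (fun N : ℕ => ε / 2 * N) atTop atTop :=
    tendsto_natCast_atTop_atTop.const_mul_atTop (by positivity)
  filter_upwards [hX.eventually (hT L τ hL1 le_rfl), eventually_ge_atTop 1,
    hE.eventually_ge_atTop (K + 2 * μ * L / A)] with N ⟨t, ht, hsum⟩ hN hbig s hs
  have hN1 : (1 : ℝ) ≤ N := by exact_mod_cast hN
  have hN0 : (0 : ℝ) < N := by linarith
  have hs1 : 1 ≤ Real.exp s := Real.one_le_exp hs.1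
  have hs2 : Real.exp s ≤ Real.exp 1 := Real.exp_le_exp.2 hs.2
  set P : ℝ := A * Real.exp s / L * N with hP
  set R : ℝ := B * Real.exp s / L * N with hR
  have hP0 : 0 < P := by positivity
  have hPR : P ≤ R := by rw [hP, hR]; gcongr
  have hPA : A * N / L ≤ P := by
    rw [hP]
    calc A * N / L = A * 1 / L * N := by ring
      _ ≤ _ := by gcongr
  have hRX : R ≤ K * N / L := by
    rw [hR]
    calc B * Real.exp s / L * N ≤ B * Real.exp 1 / L * N := by gcongr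
      _ = Real.exp 1 * B * N / L := by ring
      _ ≤ _ := by gcongr
  set U := Ico ⌈P⌉₊ ⌈R⌉₊ with hU
  have hmem : ∀ u ∈ U, P ≤ u ∧ (u : ℝ) < R := by
    intro u hu
    rwa [hU, mem_Ico, Nat.ceil_le, Nat.lt_ceil] at hu
  have hsub : U ⊆ Icc 1 ⌊K * N / L⌋₊ := by
    intro u hu
    obtain ⟨u1, u2⟩ := hmem u hu
    have hu0 : (0 : ℝ) < u := hP0.trans_le u1
    rw [mem_Icc]
    exact ⟨by exact_mod_cast hu0, Nat.le_floor (by linarith)⟩
  have hcard : (#U : ℝ) ≤ K * N / L := by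
    have := card_le_card hsub
    rw [Nat.card_Icc, Nat.add_sub_cancel] at this
    exact le_trans (by exact_mod_cast this) (Nat.floor_le (by positivity))
  have hd0 : 0 ≤ b - a := by linarith
  have hd1 : b - a ≤ 1 := by linarith
  -- the error for one value of the first coordinate
  have hone : ∀ u ∈ U,
      |(#{w ∈ Ioc 0 (0 + ⌊μ * N ^ 2 / u⌋₊) | Arc (a / N) (b / N) (α * u * ((w : ℕ) : ℝ))} : ℝ) -
        μ * (b - a) * N * (1 / (u : ℝ))| ≤ (6 + 2 * K) * t u + 1 / N := by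
    intro u hu
    obtain ⟨u1, u2⟩ := hmem u hu
    have hu0 : (0 : ℝ) < u := hP0.trans_le u1
    obtain ⟨t1, t2⟩ := ht u
    have hKN : 1 ≤ K * N := one_le_mul_of_one_le_of_one_le hK1 hN1
    have e0 : b / N - a / N = (b - a) / N := by ring
    have hLC := h1 (α * u) (L * (K * N)) (1 / (K * N)) (t u) (a / N) (b / N) 0
      ⌊μ * N ^ 2 / u⌋₊ (by positivity) (by positivity)
      (le_trans (by rw [div_le_one (by positivity)]; exact hKN) t1) (by gcongr)
      (by rw [e0, div_le_one hN0]; linarith) t2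
    set n := ⌊μ * N ^ 2 / u⌋₊ with hn
    have n1 : (n : ℝ) ≤ μ * N ^ 2 / u := Nat.floor_le (by positivity)
    have n2 : μ * N ^ 2 / u < n + 1 := Nat.lt_floor_add_one _
    have n3 : (n : ℝ) ≤ L * (K * N) := by
      calc (n : ℝ) ≤ μ * N ^ 2 / u := n1
        _ ≤ μ * N ^ 2 / (A * N / L) := by gcongr; exact hPA.trans u1
        _ = L * (μ / A * N) := by field_simp
        _ ≤ _ := by gcongr
    have b1 : 3 * t u * n / (L * (K * N)) ≤ 3 * t u := by
      rw [div_le_iff₀ (by positivity)]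
      gcongr
    have b2 : 2 * t u * (b / N - a / N) / (1 / (K * N)) ≤ 2 * K * t u := by
      have : 2 * t u * (b / N - a / N) / (1 / (K * N)) = 2 * K * t u * (b - a) := by
        rw [e0]; field_simp
      rw [this]
      calc _ ≤ 2 * K * t u * 1 := by gcongr
        _ = _ := by ring
    have b3 : |(n : ℝ) * (b / N - a / N) - μ * (b - a) * N * (1 / (u : ℝ))| ≤ 1 / N := by
      have : (n : ℝ) * (b / N - a / N) - μ * (b - a) * N * (1 / (u : ℝ)) =
          -((μ * N ^ 2 / u - n) * (b - a) / N) := by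
        rw [e0]; field_simp; ring
      rw [this, abs_neg, abs_of_nonneg (div_nonneg (mul_nonneg (by linarith) hd0) hN0.le)]
      gcongr
      exact mul_le_one₀ (by linarith) hd0 hd1
    refine le_trans (abs_sub_le _ ((n : ℝ) * (b / N - a / N)) _) ?_
    linarith
  have hh := harm hP0 hPR
  have eRP : R / P = B / A := by
    rw [hR, hP]; field_simp
  rw [eRP, ← hU] at hh
  rw [box_eq α a b N μ hP0, ← hP, ← hR, ← hU]
  push_cast
  set F : ℕ → ℝ := fun u =>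
    (#{w ∈ Ioc 0 (0 + ⌊μ * N ^ 2 / u⌋₊) | Arc (a / N) (b / N) (α * u * ((w : ℕ) : ℝ))} : ℝ)
    with hF
  have s1 : |∑ u ∈ U, F u - μ * (b - a) * N * ∑ u ∈ U, (1 / (u : ℝ))| ≤ ε / 2 * N + K := by
    rw [mul_sum, ← sum_sub_distrib]
    refine (abs_sum_le_sum_abs _ _).trans ((sum_le_sum hone).trans ?_)
    rw [sum_add_distrib, ← mul_sum, sum_const, nsmul_eq_mul]
    have c1 : (#U : ℝ) * (1 / N) ≤ K := by
      calc (#U : ℝ) * (1 / N) ≤ K * N / L * (1 / N) := by gcongr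
        _ = K / L := by field_simp
        _ ≤ K := div_le_self hK0.le hL1
    have c2 : ∑ u ∈ U, t u ≤ K * (((τ : ℝ) + 1) / L + C * (τ : ℝ) ^ (-0.1 : ℝ)) * N := by
      calc ∑ u ∈ U, t u ≤ (τ + 1) * #U + C * (K * N) * (τ : ℝ) ^ (-0.1 : ℝ) := hsum U hsub
        _ ≤ (τ + 1) * (K * N / L) + C * (K * N) * (τ : ℝ) ^ (-0.1 : ℝ) := by gcongr
        _ = _ := by ring
    have c3 : (6 + 2 * K) * ∑ u ∈ U, t u ≤ ε / 2 * N := by
      calc _ ≤ (6 + 2 * K) * (K * (((τ : ℝ) + 1) / L + C * (τ : ℝ) ^ (-0.1 : ℝ)) * N) := by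
            gcongr
        _ = (6 + 2 * K) * K * (((τ : ℝ) + 1) / L + C * (τ : ℝ) ^ (-0.1 : ℝ)) * N := by ring
        _ ≤ _ := by gcongr
    linarith
  have s2 : |μ * (b - a) * N * ∑ u ∈ U, (1 / (u : ℝ)) - Real.log (B / A) * μ * (b - a) * N| ≤
      2 * μ * L / A := by
    have : μ * (b - a) * N * ∑ u ∈ U, (1 / (u : ℝ)) - Real.log (B / A) * μ * (b - a) * N =
        μ * (b - a) * N * (∑ u ∈ U, (1 / (u : ℝ)) - Real.log (B / A)) := by ring
    rw [this, abs_mul, abs_of_nonneg (by positivity)]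
    calc _ ≤ μ * 1 * N * (2 / P) := by gcongr
      _ ≤ μ * 1 * N * (2 / (A * N / L)) := by gcongr
      _ = _ := by field_simp
  refine le_trans (abs_sub_le _ (μ * (b - a) * N * ∑ u ∈ U, (1 / (u : ℝ))) _) ?_
  linarith

end Pool.Agent.Lib.MP_30b5ba_nt.P
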