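import Pool.Agent.Lib.MP_30b5ba_nt.P.Param

/-! Multiples in a Bohr set, without and with sieving. -/

namespace Pool.Agent.Lib.MP_30b5ba_nt.P

open Finset Filter Topology MeasureTheory
open scoped Classical

namespace Sieve

theorem card_mul (n d : ℕ) (hd : 0 < d) (Q : ℕ → Prop) :
    #{b ∈ Ioc 0 n | Q b ∧ d ∣ b} = #{w ∈ Ioc 0 (n / d) | Q (d * w)} := by
  rw [← card_image_of_injective {w ∈ Ioc 0 (n / d) | Q (d * w)} (mul_right_injective₀ hd.ne')]
  congr 1
  ext b
  simp only [mem_filter, mem_Ioc, mem_image, Nat.le_div_iff_mul_le hd]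
  constructor
  · rintro ⟨⟨h1, h2⟩, h3, w, rfl⟩
    exact ⟨w, ⟨⟨Nat.pos_of_mul_pos_left h1, by rwa [mul_comm]⟩, h3⟩, rfl⟩
  · rintro ⟨w, ⟨⟨h1, h2⟩, h3⟩, rfl⟩
    exact ⟨⟨Nat.mul_pos hd h1, by rwa [mul_comm]⟩, h3, w, rfl⟩

theorem count (h1 : LCStmt) {c α μ : ℝ} (hc : 0 < c) (hα : Bad c α) (hμ : 0 < μ) {N D : ℕ}
    (hN : 1 ≤ N) (hD : 1 ≤ D) :
    |(#{w ∈ Ioc 0 (⌊μ * N ^ 2⌋₊ / D) | Arc 0 (1 / N) (α * ((D * w : ℕ) : ℝ))} : ℝ) - μ * N / D| ≤
      (5 * √(μ / c) + 9) * √N := by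
  have hN' : (1 : ℝ) ≤ N := by exact_mod_cast hN
  have hD' : (0 : ℝ) < D := by exact_mod_cast hD
  have hs : 1 ≤ √(N : ℝ) := Real.one_le_sqrt.2 hN'
  obtain ⟨t, ht⟩ : ∃ t, t = √(μ / c) * √N + 1 := ⟨_, rfl⟩
  have ht1 : 1 ≤ t := by rw [ht]; exact le_add_of_nonneg_left (by positivity)
  have ht2 : μ * N < c * t ^ 2 := by
    have e : μ * N = c * (√(μ / c) * √N) ^ 2 := by
      rw [mul_pow, Real.sq_sqrt (by positivity), Real.sq_sqrt (by positivity)]
      field_simp
    rw [e, ht]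
    gcongr
    exact lt_add_one _
  have hη : 1 / (N : ℝ) ≤ 1 := div_le_one_of_le₀ hN' (by positivity)
  have h2 := h1 (α * D) (μ * N ^ 2 / D) (1 / N) t 0 (1 / N) 0 (⌊μ * N ^ 2⌋₊ / D) (by positivity)
    (by positivity) (hη.trans ht1) (by positivity) (by rwa [sub_zero]) (by
      rintro ⟨w, a1, a2, z, a3⟩
      have a4 := hα (D * w) (Nat.mul_pos hD a1) z
      rw [Nat.cast_mul, ← mul_assoc] at a4
      have a5 : (D : ℝ) * w * |α * D * w - z| ≤ D * (μ * N ^ 2 / D / t) * (1 / N / t) := by gcongr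
      have a6 : D * (μ * N ^ 2 / D / t) * (1 / N / t) = μ * N / t ^ 2 := by field_simp
      have a7 := (a4.trans a5).trans_eq a6
      rw [le_div_iff₀ (by positivity)] at a7
      linarith)
  simp only [zero_add, sub_zero, Nat.cast_mul, ← mul_assoc] at h2 ⊢
  rw [← Nat.floor_div_natCast] at h2 ⊢
  have hW : 0 < μ * N ^ 2 / D := by positivity
  have e : μ * N / D = μ * N ^ 2 / D * (1 / N) := by field_simp
  rw [e]
  generalize μ * N ^ 2 / D = W at *
  have h3 := Nat.floor_le hW.le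
  have h4 := Nat.lt_floor_add_one W
  have h5 : 3 * t * ⌊W⌋₊ / W ≤ 3 * t := by
    rw [div_le_iff₀ hW]
    gcongr
  rw [mul_div_cancel_right₀ _ (by positivity)] at h2
  have h6 : |⌊W⌋₊ * (1 / (N : ℝ)) - W * (1 / N)| ≤ 1 * 1 := by
    rw [← sub_mul, abs_mul]
    exact mul_le_mul (abs_le.2 ⟨by linarith, by linarith⟩) (by rwa [abs_of_pos (by positivity)])
      (abs_nonneg _) zero_le_one
  refine (abs_sub_le _ _ _).trans ((add_le_add h2 h6).trans ?_)
  rw [add_mul, mul_assoc 5]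
  linarith

theorem prods {C : ℝ} {N : ℕ} (hT : 0 < TT N)
    (h : |∑ p ∈ pr 0 (yy N), 1 / (p : ℝ) - Real.log (Real.log (yy N))| ≤ C) :
    ∏ p ∈ pr 0 (yy N), (1 - 1 / (p : ℝ)) ≤ Real.exp C / TT N ∧
      ∏ p ∈ pr 0 (yy N), (1 + 2 / (p : ℝ)) ≤ Real.exp C ^ 2 * TT N ^ 2 := by
  rw [yy, Real.log_exp, ← yy, abs_le] at h
  constructor
  · calc _ ≤ ∏ p ∈ pr 0 (yy N), Real.exp (-(1 / (p : ℝ))) :=
          prod_le_prod (fun p hp => sub_nonneg.2 (div_le_one_of_le₀
            (by exact_mod_cast (mem_pr.1 hp).1.one_le) (by positivity))) fun p _ => by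
              linarith [Real.add_one_le_exp (-(1 / (p : ℝ)))]
      _ ≤ Real.exp (C - Real.log (TT N)) := by
          rw [← Real.exp_sum, sum_neg_distrib]
          exact Real.exp_le_exp.2 (by linarith [h.1])
      _ = _ := by rw [Real.exp_sub, Real.exp_log hT]
  · calc _ ≤ ∏ p ∈ pr 0 (yy N), Real.exp (1 / (p : ℝ)) ^ 2 :=
          prod_le_prod (fun p hp => by positivity) fun p _ => by
            rw [← Real.exp_nat_mul]
            refine le_trans (le_of_eq ?_) (Real.add_one_le_exp _)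
            push_cast
            ring
      _ ≤ Real.exp (C + Real.log (TT N)) ^ 2 := by
          rw [prod_pow, ← Real.exp_sum]
          gcongr
          linarith [h.2]
      _ = _ := by rw [Real.exp_add, Real.exp_log hT, mul_pow]

theorem params : ∀ᶠ N : ℕ in atTop, ∃ h : ℕ, Even h ∧ TT N ^ 3 ≤ 2 ^ h ∧
    yy N ^ h * TT N ^ 3 ≤ Real.exp (Real.log N * 0.4) := by
  filter_upwards [tendsto_natCast_atTop_atTop.eventually (ev_log_pow 1 3 (δ := 0.3) (by norm_num)),
    tendsto_loglogN.eventually_ge_atTop 80, tt_le, TT_le, tendsto_TT.eventually_ge_atTop 1,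
    eventually_gt_atTop 0] with N h1 h2 h3 h4 h5 h6
  have h7 : 0 ≤ tt N := Real.log_nonneg h5
  refine ⟨2 * ⌈3 * tt N⌉₊, even_two_mul _, ?_, ?_⟩
  · calc TT N ^ 3 = Real.exp (3 * tt N) := by rw [exp_mul_tt (by linarith)]; norm_cast
      _ ≤ Real.exp 1 ^ ⌈3 * tt N⌉₊ := by
          rw [← Real.exp_nat_mul, mul_one]
          exact Real.exp_le_exp.2 (Nat.le_ceil _)
      _ ≤ _ := by
          rw [pow_mul]
          gcongr
          linarith [Real.exp_one_lt_d9]
  · have a1 : TT N ^ 3 ≤ Real.exp (Real.log N * 0.3) := by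
      rw [← Real.rpow_def_of_pos (by exact_mod_cast h6)]
      refine le_trans ?_ h1
      rw [one_mul]
      gcongr
      linarith
    have a2 : yy N ^ (2 * ⌈3 * tt N⌉₊) ≤ Real.exp (Real.log N * 0.1) := by
      rw [yy, ← Real.exp_nat_mul]
      refine Real.exp_le_exp.2 ?_
      have a3 := Nat.ceil_lt_add_one (by positivity : 0 ≤ 3 * tt N)
      have a4 : Real.log N = TT N * Real.log (Real.log N) ^ 2 := by
        rw [TT, div_mul_cancel₀ _ (by positivity)]
      generalize Real.log (Real.log N) = l at *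
      push_cast
      rw [a4, mul_comm, mul_assoc]
      exact mul_le_mul_of_nonneg_left (by nlinarith) (by linarith)
    calc _ ≤ Real.exp (Real.log N * 0.1) * Real.exp (Real.log N * 0.3) := by gcongr
      _ = _ := by rw [← Real.exp_add]; ring_nf

end Sieve

open Sieve in
theorem sieve (h1 : LCStmt) (h2 : BrunStmt) (h3 : MertensStmt) : SieveStmt := by
  intro c α hc hα μ hμ
  obtain ⟨C, -, -, hM, -⟩ := h3
  obtain ⟨K, hK⟩ : ∃ K, K = 5 * √(μ / c) + 9 := ⟨_, rfl⟩
  have hK0 : 0 < K := by rw [hK]; positivity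
  refine ⟨μ + K + μ * Real.exp C + (μ + K) * Real.exp C ^ 2, by positivity, ?_⟩
  filter_upwards [params, ordered, tendsto_TT.eventually_gt_atTop 0, eventually_ge_atTop 1]
    with N ⟨h, h4, h5, h6⟩ h7 hT hN a ha hla
  have hy : 2 ≤ yy N := h7.1.trans (h7.2.1.trans h7.2.2)
  obtain ⟨p1, p2⟩ := prods hT (hM _ hy)
  have hN' : (1 : ℝ) ≤ N := by exact_mod_cast hN
  have ha' : (0 : ℝ) < a := by exact_mod_cast ha
  have hI : ∀ n, Icc 1 n = Ioc 0 n := fun n => rfl
  have hs : √(N : ℝ) * Real.exp (Real.log N * 0.4) ≤ N / a := by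
    rw [le_div_iff₀ ha', Real.sqrt_eq_rpow, Real.rpow_def_of_pos (by positivity)]
    conv_lhs => rw [← Real.exp_log ha']
    conv_rhs => rw [← Real.exp_log (by positivity : (0 : ℝ) < N)]
    rw [← Real.exp_add, ← Real.exp_add]
    exact Real.exp_le_exp.2 (by linarith [Real.log_nonneg hN'])
  constructor
  · rw [hI, card_mul _ _ ha fun m => Arc 0 (1 / N) (α * (m : ℝ))]
    have a1 := (abs_le.1 (count h1 hc hα hμ hN ha)).2
    have a2 : √(N : ℝ) ≤ N / a := le_trans (le_mul_of_one_le_right (by positivity)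
      (Real.one_le_exp (by have := Real.log_nonneg hN'; positivity))) hs
    rw [← hK, mul_div_assoc] at a1
    rw [mul_div_assoc]
    have a3 : 0 ≤ (μ * Real.exp C + (μ + K) * Real.exp C ^ 2) * (N / a) := by positivity
    nlinarith [mul_le_mul_of_nonneg_left a2 hK0.le]
  · have a1 := h2 {b ∈ Ioc 0 (⌊μ * N ^ 2⌋₊ / a) | Arc 0 (1 / N) (α * ((a * b : ℕ) : ℝ))}
      (pr 0 (yy N)) (μ * N / a) (K * √N) (yy N) h (fun p hp => (mem_pr.1 hp).1)
      (fun p hp => (mem_pr.1 hp).2.2) (by linarith) (by positivity) (by positivity) h4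
      fun D hD _ => by
        have b1 : 0 < ∏ p ∈ D, p := prod_pos fun p hp => (mem_pr.1 (hD hp)).1.pos
        have b2 := count h1 hc hα hμ hN (Nat.mul_pos ha b1)
        rw [filter_filter, card_mul _ _ b1 fun b => Arc 0 (1 / N) (α * ((a * b : ℕ) : ℝ)),
          Nat.div_div_eq_div_mul, div_div, hK, ← Nat.cast_prod, ← Nat.cast_mul]
        simpa only [mul_assoc] using b2
    refine le_trans ?_ (a1.trans ?_)
    · refine Nat.cast_le.2 (le_trans (card_le_card fun m hm => ?_) (card_image_le (f := (a * ·))))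
      simp only [mem_filter, mem_Icc, mem_Ioc, mem_image] at hm ⊢
      obtain ⟨⟨b1, b2⟩, b3, b, rfl, b4⟩ := hm
      exact ⟨b, ⟨⟨⟨Nat.pos_of_mul_pos_left b1, (Nat.le_div_iff_mul_le ha).2 (by rwa [mul_comm])⟩,
        b3⟩, fun p hp hd => (b4 p (mem_pr.1 hp).1 hd).not_ge (mem_pr.1 hp).2.2⟩, rfl⟩
    · have b1 : μ * N / a / 2 ^ h ≤ μ * (N / a) / TT N ^ 3 := by
        rw [mul_div_assoc]
        gcongr
      have b2 : K * √N * yy N ^ h ≤ K * (N / a) / TT N ^ 3 := by
        rw [le_div_iff₀ (by positivity), mul_assoc, mul_assoc]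
        gcongr
        exact le_trans (by gcongr) hs
      calc _ ≤ μ * N / a * (Real.exp C / TT N) + (μ * (N / a) / TT N ^ 3 + K * (N / a) / TT N ^ 3) *
            (Real.exp C ^ 2 * TT N ^ 2) := by gcongr
        _ = (μ * Real.exp C + (μ + K) * Real.exp C ^ 2) * N / (TT N * a) := by field_simp
        _ ≤ _ := by
          gcongr
          linarith

end Pool.Agent.Lib.MP_30b5ba_nt.P
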