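import Pool.Agent.Lib.MP_30b5ba_nt.Defs

/-!
Poissonian pair correlation of `α n²` for badly approximable `α`: definitions and the statements
of the steps of the proof.
-/

namespace Pool.Agent.Lib.MP_30b5ba_nt.P

open Finset Filter Topology MeasureTheory
open scoped Classical

/-- `m ‖α m‖ ≥ c` for all `m ≥ 1`. -/
def Bad (c α : ℝ) : Prop := ∀ m : ℕ, 1 ≤ m → ∀ z : ℤ, c ≤ m * |α * m - z|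

/-- `x` lies in `[a, b]` modulo one. -/
def Arc (a b x : ℝ) : Prop := ∃ k : ℤ, x - k ∈ Set.Icc a b

/-- some `1 ≤ w ≤ W` has `‖β w‖ ≤ η`. -/
def Short (β W η : ℝ) : Prop := ∃ w : ℕ, 1 ≤ w ∧ (w : ℝ) ≤ W ∧ ∃ z : ℤ, |β * w - z| ≤ η

/-- the primes in `(z₁, z₂]`. -/
noncomputable def pr (z₁ z₂ : ℝ) : Finset ℕ :=
  (range (⌊z₂⌋₊ + 1)).filter fun p => p.Prime ∧ z₁ < p

theorem mem_pr {z₁ z₂ : ℝ} {p : ℕ} : p ∈ pr z₁ z₂ ↔ p.Prime ∧ z₁ < p ∧ (p : ℝ) ≤ z₂ := by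
  rw [pr, mem_filter, mem_range, Nat.lt_succ_iff]
  constructor
  · rintro ⟨h1, h2, h3⟩
    exact ⟨h2, h3, (Nat.le_floor_iff' h2.ne_zero).1 h1⟩
  · rintro ⟨h1, h2, h3⟩
    exact ⟨(Nat.le_floor_iff' h1.ne_zero).2 h3, h1, h2⟩

/-- the pairs of positive integers with product at most `Y`. -/
noncomputable def hyp (Y : ℝ) : Finset (ℕ × ℕ) :=
  (Icc 1 ⌊Y⌋₊ ×ˢ Icc 1 ⌊Y⌋₊).filter fun p => ((p.1 * p.2 : ℕ) : ℝ) ≤ Y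

theorem mem_hyp {Y : ℝ} {p : ℕ × ℕ} :
    p ∈ hyp Y ↔ 1 ≤ p.1 ∧ 1 ≤ p.2 ∧ ((p.1 * p.2 : ℕ) : ℝ) ≤ Y := by
  rw [hyp, mem_filter, mem_product, mem_Icc, mem_Icc]
  constructor
  · rintro ⟨⟨⟨h1, -⟩, h2, -⟩, h3⟩
    exact ⟨h1, h2, h3⟩
  · rintro ⟨h1, h2, h3⟩
    have h4 : p.1 * p.2 ≤ ⌊Y⌋₊ := (Nat.le_floor_iff' (by positivity)).2 h3
    exact ⟨⟨⟨h1, le_trans (Nat.le_mul_of_pos_right _ h2) h4⟩, h2,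
      le_trans (Nat.le_mul_of_pos_left _ h1) h4⟩, h3⟩

/-- pairs `(u, v)` with `A N ≤ u < B N`, `u v ≤ μ N²` and `α u v ∈ [a/N, b/N]` modulo one. -/
noncomputable def box (α a b : ℝ) (N : ℕ) (A B μ : ℝ) : ℕ :=
  #{p ∈ hyp (μ * N ^ 2) | A * N ≤ p.1 ∧ (p.1 : ℝ) < B * N ∧
    Arc (a / N) (b / N) (α * ((p.1 * p.2 : ℕ) : ℝ))}

/-- pairs `(y, w)` in a box such that `α y w` is within `η` of an integer prime to `y w`. -/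
noncomputable def pset (α Y W η : ℝ) : Finset (ℕ × ℕ) :=
  {p ∈ Icc 1 ⌊Y⌋₊ ×ˢ Icc 1 ⌊W⌋₊ | ∃ z : ℤ, IsCoprime ((p.1 * p.2 : ℕ) : ℤ) z ∧
    |α * ((p.1 * p.2 : ℕ) : ℝ) - z| ≤ η}

/-- `m` is a number `≤ K²` times a number without prime factors `≤ Q`. -/
def Exc (K Q : ℝ) (m : ℕ) : Prop :=
  ∃ a b : ℕ, m = a * b ∧ (a : ℝ) ≤ K ^ 2 ∧ ∀ p : ℕ, p.Prime → p ∣ b → Q < p

/-- the indicator function of `[0, β)`. -/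
noncomputable def win (β x : ℝ) : ℝ := (Set.Ico 0 β).indicator 1 x

/-- difference of two windows of the same length. -/
noncomputable def psi (β l x : ℝ) : ℝ := win β x - win β (x + l)

/-- `psi` summed over the logarithms of the divisors. -/
noncomputable def dv (β l : ℝ) (a : ℕ) (s : ℝ) : ℝ :=
  ∑ d ∈ a.divisors, psi β l (Real.log d - s)

/-- `psi` averaged over a short range of shifts. -/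
noncomputable def phi (β l η x₀ : ℝ) (u : ℕ) : ℝ :=
  ∫ s in (0 : ℝ)..η, psi β l (Real.log u - x₀ - s)

/-- `T = log N / (log log N)²`. -/
noncomputable def TT (N : ℕ) : ℝ := Real.log N / Real.log (Real.log N) ^ 2

/-- `t = log T`. -/
noncomputable def tt (N : ℕ) : ℝ := Real.log (TT N)

/-- `y = exp T`. -/
noncomputable def yy (N : ℕ) : ℝ := Real.exp (TT N)

/-- `y₀ = exp (T ^ 0.3)`. -/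
noncomputable def y0 (N : ℕ) : ℝ := Real.exp (TT N ^ (0.3 : ℝ))

/-- `w = (log N)⁴`. -/
noncomputable def ww (N : ℕ) : ℝ := Real.log N ^ 4

/-- integers with a typical factorisation. -/
def Typ (N u : ℕ) : Prop :=
  0.299 * tt N ≤ #{p ∈ pr (ww N) (y0 N) | p ∣ u} ∧
  0.699 * tt N ≤ #{p ∈ pr (y0 N) (yy N) | p ∣ u} ∧
  (∀ r ∈ pr (y0 N) (yy N), (4 : ℝ) ^ #{p ∈ pr (y0 N) r | p ∣ u} ≤ Real.log r) ∧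
  ∑ p ∈ pr 0 (y0 N), (u.factorization p : ℝ) * Real.log p ≤ TT N ^ (0.301 : ℝ) / 2 ∧
  ∑ p ∈ pr 0 (yy N), (u.factorization p : ℝ) * Real.log p ≤ Real.log N / 40 ∧
  ∑ p ∈ u.primeFactors with yy N < ((p : ℕ) : ℝ), (u.factorization p : ℝ) ≤ 0.001 * tt N

/-- sets of primes without too many small elements. -/
def Thin (S : Finset ℕ) : Prop := ∀ r ∈ S, (2 : ℝ) ^ #{p ∈ S | p ≤ r} ≤ Real.log r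

/-- the admissible small parts. -/
noncomputable def A0 (N : ℕ) : Finset ℕ :=
  {a ∈ Icc 1 ⌊Real.exp (TT N ^ (0.301 : ℝ))⌋₊ | (2 : ℝ) ^ (0.598 * tt N) ≤ #a.divisors}

/-- the admissible middle parts. -/
noncomputable def A1 (N : ℕ) : Finset (Finset ℕ) :=
  {S ∈ (pr (y0 N) (yy N)).powerset | 1.398 * tt N ≤ #S ∧ Thin S}

/-- products of two typical integers. -/
def Gd (N m : ℕ) : Prop :=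
  ∃ (a : ℕ) (S : Finset ℕ) (b : ℕ), m = a * (∏ p ∈ S, p) * b ∧ a ∈ A0 N ∧ S ∈ A1 N ∧
    (∀ p : ℕ, p.Prime → p ∣ a → (p : ℝ) ≤ y0 N) ∧ (∀ p : ℕ, p.Prime → p ∣ b → yy N < p) ∧
    Real.log ((a * ∏ p ∈ S, p : ℕ) : ℝ) ≤ Real.log N / 20 ∧
    (#b.divisors : ℝ) ≤ (2 : ℝ) ^ (0.002 * tt N)

/-! ### Statements -/

/-- points of a rotation in an arc. -/
def LCStmt : Prop :=
  ∀ (β W η t a b : ℝ) (w₀ n : ℕ), 0 < W → 0 < η → η ≤ t → a ≤ b → b - a ≤ 1 →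
    ¬Short β (W / t) (η / t) →
    |(#{w ∈ Ioc w₀ (w₀ + n) | Arc a b (β * ((w : ℕ) : ℝ))} : ℝ) - n * (b - a)| ≤
      3 * t * n / W + 2 * t * (b - a) / η + 3

/-- primitive points in a box. -/
def PrimStmt : Prop :=
  ∀ β W η : ℝ, 0 < W → 0 < η →
    (#{w ∈ Icc 1 ⌊W⌋₊ | ∃ z : ℤ, IsCoprime ((w : ℕ) : ℤ) z ∧ |β * ((w : ℕ) : ℝ) - z| ≤ η} : ℝ) ≤
      3 + 4 * W * η

/-- size of a Bohr set. -/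
def BohrStmt : Prop :=
  ∀ c α M η : ℝ, 0 < c → Bad c α → 0 < M → 0 < η →
    (#{m ∈ Icc 1 ⌊M⌋₊ | ∃ z : ℤ, |α * ((m : ℕ) : ℝ) - z| ≤ η} : ℝ) ≤ 3 * M * η / c

/-- the pure sieve of Brun. -/
def BrunStmt : Prop :=
  ∀ (𝒜 P : Finset ℕ) (X E z : ℝ) (h : ℕ), (∀ p ∈ P, p.Prime) → (∀ p ∈ P, (p : ℝ) ≤ z) → 1 ≤ z →
    0 ≤ X → 0 ≤ E → Even h →
    (∀ D ⊆ P, #D ≤ h → |(#{n ∈ 𝒜 | (∏ p ∈ D, p) ∣ n} : ℝ) - X / ∏ p ∈ D, (p : ℝ)| ≤ E) →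
    (#{n ∈ 𝒜 | ∀ p ∈ P, ¬p ∣ n} : ℝ) ≤ X * ∏ p ∈ P, (1 - 1 / (p : ℝ)) +
      (X / 2 ^ h + E * z ^ h) * ∏ p ∈ P, (1 + 2 / (p : ℝ))

/-- estimates of Mertens and Chebyshev. -/
def MertensStmt : Prop :=
  ∃ C : ℝ, 0 < C ∧
    (∀ z₁ z₂ : ℝ, 2 ≤ z₁ → z₁ ≤ z₂ →
      |∑ p ∈ pr z₁ z₂, 1 / (p : ℝ) - Real.log (Real.log z₂ / Real.log z₁)| ≤ C) ∧
    (∀ z : ℝ, 2 ≤ z → |∑ p ∈ pr 0 z, 1 / (p : ℝ) - Real.log (Real.log z)| ≤ C) ∧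
    (∀ z : ℝ, 2 ≤ z → ∑ p ∈ pr 0 z, Real.log p / ((p : ℝ) - 1) ≤ C * Real.log z) ∧
    (∀ (P : Finset ℕ) (r : ℝ) (j : ℤ), 2 ≤ r →
      (∀ p ∈ P, p.Prime ∧ r ≤ p ∧ ⌊Real.log p⌋ = j) → ∑ p ∈ P, 1 / (p : ℝ) ≤ C / Real.log r)

/-- moving a divisor from one variable to the other. -/
def MoveStmt : Prop :=
  ∀ α Y W η K Q D : ℝ, 0 < Y → 0 < W → 0 < η → 1 ≤ K → 1 ≤ Q → 1 ≤ K * Y * η → 1 ≤ K * W * η →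
    (∀ n : ℕ, 1 ≤ n → (n : ℝ) ≤ K ^ 2 → (#n.divisors : ℝ) ≤ D) →
    (#{p ∈ pset α Y W η | ¬Exc K Q (p.1 * p.2)} : ℝ) ≤
      56 * D * (1 + Real.log (K ^ 2 * Q) / Real.log 2) * (Y * W * η)

/-- primitive pairs. -/
def PStmt : Prop :=
  ∀ c α : ℝ, 0 < c → Bad c α → ∃ C : ℝ, 0 < C ∧ ∀ᶠ X : ℝ in atTop, ∀ x Y W : ℝ, 2 ≤ x → 0 < Y →
    0 < W → Y * W = X ^ 2 / x → 1 / x ^ 3 ≤ Y / (x * X) → Y / (x * X) ≤ 1 →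
    1 / x ^ 3 ≤ W / (x * X) → W / (x * X) ≤ 1 →
    (#(pset α Y W (1 / (x * X))) : ℝ) ≤ C * X * x ^ (-1.1 : ℝ)

/-- short vectors are rare. -/
def TailStmt : Prop :=
  ∀ c α : ℝ, 0 < c → Bad c α → ∃ C : ℝ, 0 < C ∧ ∀ (L : ℝ) (τ : ℕ), 1 ≤ L → L ≤ (τ : ℝ) ^ 2 →
    ∀ᶠ X : ℝ in atTop, ∃ t : ℕ → ℝ,
      (∀ y : ℕ, 1 ≤ t y ∧ ¬Short (α * y) (L * X / t y) (1 / X / t y)) ∧
      ∀ E ⊆ Icc 1 ⌊X / L⌋₊, ∑ y ∈ E, t y ≤ (τ + 1) * #E + C * X * (τ : ℝ) ^ (-0.1 : ℝ)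

/-- uniform integrability of the marginals. -/
def UIStmt : Prop :=
  ∀ c α : ℝ, 0 < c → Bad c α → ∀ K ε : ℝ, 1 ≤ K → 0 < ε → ∃ δ : ℝ, 0 < δ ∧
    ∀ᶠ N : ℕ in atTop, ∀ E ⊆ Icc 1 ⌊K * N⌋₊, (#E : ℝ) ≤ δ * N →
      (#{p ∈ E ×ˢ Icc 1 ⌊K * N⌋₊ | Arc 0 (1 / N) (α * ((p.1 * p.2 : ℕ) : ℝ))} : ℝ) ≤ ε * N

/-- the count in an unbalanced box. -/
def ShiftStmt : Prop :=
  ∀ c α : ℝ, 0 < c → Bad c α → ∀ a b A B μ ε : ℝ, 0 ≤ a → a ≤ b → b ≤ 1 → 0 < A → A < B →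
    0 < μ → 0 < ε → ∃ L : ℝ, 1 ≤ L ∧ ∀ᶠ N : ℕ in atTop, ∀ s ∈ Set.Icc (0 : ℝ) 1,
      |(box α a b N (A * Real.exp s / L) (B * Real.exp s / L) μ : ℝ) -
        Real.log (B / A) * μ * (b - a) * N| ≤ ε * N

/-- mean square of the window difference. -/
def L2Stmt : Prop :=
  ∀ β l : ℝ, 0 < β → 0 ≤ l → ∃ C : ℝ, 0 < C ∧ ∀ σ : ℝ, 0 < σ → σ ≤ 1 → ∀ 𝒜 : Finset ℕ,
    ∑ a ∈ 𝒜, (a : ℝ) ^ (-(1 + σ)) * ∫ s, dv β l a s ^ 2 ≤ C / σ ^ 2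

/-- moments of the concentration of subset sums. -/
def DeltaStmt : Prop :=
  ∀ (P : Finset ℕ) (k : ℕ → ℤ) (g : ℕ → ℝ) (G : Finset ℕ → Prop) (Θ : ℝ) (q : ℕ)
    (j : Finset ℕ → ℤ), (∀ p, 0 ≤ g p) → 0 ≤ Θ → 1 ≤ q →
    (∀ S S', G S → S' ⊆ S → G S') →
    (∀ S ⊆ P, G S → ∀ i : ℤ,
      2 ^ #S * ∑ p ∈ P with (∀ r ∈ S, r < p) ∧ k p = i, g p ≤ Θ) →
    ∑ S ∈ P.powerset with G S,
        (∏ p ∈ S, g p) * (#{D ∈ S.powerset | ∑ p ∈ D, k p = j S} : ℝ) ^ q ≤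
      ((1 + 2 * ∑ p ∈ P, g p) * (1 + 2 ^ (q + 1) * Θ)) ^ q * ∏ p ∈ P, (1 + 2 * g p)

/-- the sum over the small parts. -/
def A0Stmt : Prop :=
  ∀ β l : ℝ, 0 < β → 0 ≤ l → ∀ᶠ N : ℕ in atTop,
    ∑ a ∈ A0 N, (∫ s, |dv β l a s|) / a ≤ TT N ^ (0.546 : ℝ)

/-- the sum over the middle parts. -/
def A1Stmt : Prop :=
  ∀ᶠ N : ℕ in atTop, ∃ Δ : Finset ℕ → ℝ,
    (∀ S ∈ A1 N, ∀ s : ℝ,
      (#{d ∈ (∏ p ∈ S, p).divisors | Real.log ((d : ℕ) : ℝ) ∈ Set.Icc s (s + 1)} : ℝ) ≤ Δ S) ∧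
    ∑ S ∈ A1 N, Δ S / ∏ p ∈ S, (p : ℝ) ≤ TT N ^ (0.437 : ℝ)

/-- multiples in a Bohr set, without and with sieving. -/
def SieveStmt : Prop :=
  ∀ c α : ℝ, 0 < c → Bad c α → ∀ μ : ℝ, 0 < μ → ∃ C : ℝ, 0 < C ∧ ∀ᶠ N : ℕ in atTop,
    ∀ a : ℕ, 1 ≤ a → Real.log a ≤ Real.log N / 20 →
      (#{m ∈ Icc 1 ⌊μ * N ^ 2⌋₊ | Arc 0 (1 / N) (α * ((m : ℕ) : ℝ)) ∧ a ∣ m} : ℝ) ≤ C * N / a ∧
      (#{m ∈ Icc 1 ⌊μ * N ^ 2⌋₊ | Arc 0 (1 / N) (α * ((m : ℕ) : ℝ)) ∧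
        ∃ b : ℕ, m = a * b ∧ ∀ p : ℕ, p.Prime → p ∣ b → yy N < p} : ℝ) ≤ C * N / (TT N * a)

/-- almost all integers are typical. -/
def TypStmt : Prop :=
  ∀ K δ : ℝ, 1 ≤ K → 0 < δ → ∀ᶠ N : ℕ in atTop, (#{u ∈ Icc 1 ⌊K * N⌋₊ | ¬Typ N u} : ℝ) ≤ δ * N

/-- the product of two typical integers. -/
def GdStmt : Prop :=
  ∀ᶠ N : ℕ in atTop, ∀ u v : ℕ, 1 ≤ u → 1 ≤ v → Typ N u → Typ N v →
    (¬∃ q ∈ pr (ww N) (yy N), q ^ 2 ∣ u * v) → Gd N (u * v)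

/-- products divisible by the square of a large prime. -/
def SqStmt : Prop :=
  ∀ c α : ℝ, 0 < c → Bad c α → ∀ μ ε : ℝ, 0 < μ → 0 < ε → ∀ᶠ N : ℕ in atTop,
    (#{p ∈ hyp (μ * N ^ 2) | Typ N p.1 ∧ Typ N p.2 ∧
      (∃ q ∈ pr (ww N) (yy N), q ^ 2 ∣ p.1 * p.2) ∧
      Arc 0 (1 / N) (α * ((p.1 * p.2 : ℕ) : ℝ))} : ℝ) ≤ ε * N

/-- comparison of two windows on the good integers. -/
def GoodStmt : Prop :=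
  ∀ c α : ℝ, 0 < c → Bad c α → ∀ β l η μ ε : ℝ, 0 < β → 0 ≤ l → 0 ≤ η → η ≤ 1 → 0 < μ → 0 < ε →
    ∀ᶠ N : ℕ in atTop, ∀ x₀ : ℝ,
      ∑ m ∈ Icc 1 ⌊μ * N ^ 2⌋₊ with Arc 0 (1 / N) (α * ((m : ℕ) : ℝ)) ∧ Gd N m,
        |∑ u ∈ m.divisors, phi β l η x₀ u| ≤ ε * N

/-- comparison of two windows. -/
def CmpStmt : Prop :=
  ∀ c α : ℝ, 0 < c → Bad c α → ∀ a b A β l η μ ε : ℝ, 0 ≤ a → b ≤ 1 → 0 < A → 0 < β → 0 ≤ l →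
    0 ≤ η → η ≤ 1 → 0 < μ → 0 < ε → ∀ᶠ N : ℕ in atTop,
      |∑ p ∈ hyp (μ * N ^ 2) with Arc (a / N) (b / N) (α * ((p.1 * p.2 : ℕ) : ℝ)),
        phi β l η (Real.log (A * N)) p.1| ≤ ε * N

/-- the count in a balanced box. -/
def BoxStmt : Prop :=
  ∀ c α : ℝ, 0 < c → Bad c α → ∀ a b A B μ : ℝ, 0 ≤ a → a ≤ b → b ≤ 1 → 0 < A → A < B → 0 ≤ μ →
    Tendsto (fun N : ℕ => (box α a b N A B μ : ℝ) / N) atTop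
      (𝓝 (Real.log (B / A) * μ * (b - a)))

/-- the count over pairs `j < i`. -/
def HalfStmt : Prop :=
  ∀ c α : ℝ, 0 < c → Bad c α → ∀ a b : ℝ, 0 ≤ a → a ≤ b → b ≤ 1 →
    Tendsto (fun N : ℕ => (#{p ∈ Icc 1 N ×ˢ Icc 1 N | p.2 < p.1 ∧
      Arc (a / N) (b / N) (α * p.1 ^ 2 - α * p.2 ^ 2)} : ℝ) / N) atTop (𝓝 ((b - a) / 2))

end Pool.Agent.Lib.MP_30b5ba_nt.P
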