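import Pool.Agent.Lib.MP_30b5ba_nt.P.Param

/-!
Short vectors are rare, and uniform integrability of the marginals.
-/

namespace Pool.Agent.Lib.MP_30b5ba_nt.P

open Finset Filter Topology MeasureTheory
open scoped Classical

namespace Tail

theorem step (g : ℝ) (hg : 0 < g) :
    (g + 1) ^ (-1.1 : ℝ) ≤ 10 * (g ^ (-0.1 : ℝ) - (g + 1) ^ (-0.1 : ℝ)) := by
  have h1 : (0 : ℝ) < g + 1 := by linarith
  have hq : 0 < g / (g + 1) := div_pos hg h1
  have e1 : g ^ (-0.1 : ℝ) = (g + 1) ^ (-0.1 : ℝ) * (g / (g + 1)) ^ (-0.1 : ℝ) := by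
    rw [← Real.mul_rpow h1.le hq.le]
    congr 1
    field_simp
  have e2 : (g + 1) ^ (-1.1 : ℝ) = (g + 1) ^ (-0.1 : ℝ) / (g + 1) := by
    rw [← Real.rpow_sub_one h1.ne']
    norm_num
  have e3 : 1 + 0.1 / (g + 1) ≤ (g / (g + 1)) ^ (-0.1 : ℝ) := by
    rw [Real.rpow_def_of_pos hq]
    have a1 := Real.add_one_le_exp (Real.log (g / (g + 1)) * (-0.1))
    have a2 := Real.log_le_sub_one_of_pos hq
    have a3 : g / (g + 1) - 1 = -(1 / (g + 1)) := by
      field_simp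
      ring
    have a4 : (0.1 : ℝ) / (g + 1) = 0.1 * (1 / (g + 1)) := by ring
    rw [a3] at a2
    rw [a4]
    nlinarith
  have hp : 0 < (g + 1) ^ (-0.1 : ℝ) := Real.rpow_pos_of_pos h1 _
  have e4 := mul_le_mul_of_nonneg_left e3 hp.le
  have e5 : (g + 1) ^ (-0.1 : ℝ) * (1 + 0.1 / (g + 1)) =
      (g + 1) ^ (-0.1 : ℝ) + 0.1 * ((g + 1) ^ (-0.1 : ℝ) / (g + 1)) := by ring
  rw [e1, e2]
  linarith

theorem sum_tail (τ : ℕ) (hτ : 1 ≤ τ) (G : ℕ) :
    ∑ g ∈ Ioc τ G, (g : ℝ) ^ (-1.1 : ℝ) ≤ 10 * (τ : ℝ) ^ (-0.1 : ℝ) := by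
  have key : ∀ n : ℕ, ∑ g ∈ Ioc τ (τ + n), (g : ℝ) ^ (-1.1 : ℝ) ≤
      10 * ((τ : ℝ) ^ (-0.1 : ℝ) - ((τ + n : ℕ) : ℝ) ^ (-0.1 : ℝ)) := by
    intro n
    induction n with
    | zero => simp
    | succ n ih =>
      rw [← add_assoc, sum_Ioc_succ_top (by omega)]
      have h0 : (0 : ℝ) < ((τ + n : ℕ) : ℝ) := by exact_mod_cast (by omega : 0 < τ + n)
      have h1 := step _ h0
      have h2 : ((τ + n + 1 : ℕ) : ℝ) = ((τ + n : ℕ) : ℝ) + 1 := by push_cast; ring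
      rw [h2]
      linarith
  rcases le_total G τ with h | h
  · rw [Ioc_eq_empty (by omega), sum_empty]
    positivity
  · obtain ⟨n, rfl⟩ := Nat.exists_eq_add_of_le h
    have h1 := key n
    have h2 : (0 : ℝ) ≤ ((τ + n : ℕ) : ℝ) ^ (-0.1 : ℝ) := by positivity
    linarith

theorem sum_all (H : ℕ) : ∑ h ∈ Icc 1 H, (h : ℝ) ^ (-1.1 : ℝ) ≤ 11 := by
  rcases Nat.eq_zero_or_pos H with rfl | hH
  · simp
  · have h1 := sum_tail 1 le_rfl H
    have h2 : Icc 1 H = insert 1 (Ioc 1 H) := by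
      ext x
      simp only [mem_Icc, mem_insert, mem_Ioc]
      omega
    rw [h2, sum_insert (by simp)]
    simp only [Nat.cast_one, Real.one_rpow] at h1 ⊢
    linarith

/-- removing a common factor. -/
theorem reduce (w : ℕ) (hw : 1 ≤ w) (z : ℤ) :
    ∃ (d w' : ℕ) (z' : ℤ), 1 ≤ d ∧ 1 ≤ w' ∧ w = d * w' ∧ z = d * z' ∧ IsCoprime (w' : ℤ) z' := by
  have h0 : 0 < Int.gcd (w : ℤ) z := Int.gcd_pos_of_ne_zero_left _ (by omega)
  obtain ⟨m', n', h1, h2, h3⟩ := Int.exists_gcd_one h0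
  have hm : 0 < m' := by
    have h4 : (0 : ℤ) < m' * (Int.gcd (w : ℤ) z : ℤ) := by
      rw [← h2]
      omega
    have h5 : (0 : ℤ) < (Int.gcd (w : ℤ) z : ℤ) := by exact_mod_cast h0
    exact (mul_pos_iff_of_pos_right h5).1 h4
  refine ⟨Int.gcd (w : ℤ) z, m'.toNat, n', h0, by omega, ?_, ?_, ?_⟩
  · have h6 : ((m'.toNat : ℕ) : ℤ) = m' := Int.toNat_of_nonneg hm.le
    have h7 : (w : ℤ) = ((Int.gcd (w : ℤ) z * m'.toNat : ℕ) : ℤ) := by
      rw [Nat.cast_mul, h6, mul_comm]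
      exact h2
    exact_mod_cast h7
  · rw [mul_comm]
    exact h3
  · rw [Int.toNat_of_nonneg hm.le]
    exact Int.isCoprime_iff_gcd_eq_one.2 h1

theorem short_mem {α Y W η : ℝ} {y : ℕ} (hy : y ∈ Icc 1 ⌊Y⌋₊) (hs : Short (α * y) W η) :
    ∃ h ∈ Icc 1 ⌊Y⌋₊, ∃ p ∈ pset α (Y / h) W (η / h), h * p.1 = y := by
  obtain ⟨w, hw1, hw2, z, hz⟩ := hs
  rw [mem_Icc] at hy
  obtain ⟨d, w', z', hd, hw', rfl, rfl, hc⟩ := reduce w hw1 z
  obtain ⟨h, y', z'', hh, hy', rfl, rfl, hc'⟩ := reduce y hy.1 z'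
  have hY : ((h * y' : ℕ) : ℝ) ≤ Y := (Nat.le_floor_iff' (by positivity)).1 hy.2
  have hh' : (0 : ℝ) < h := by exact_mod_cast hh
  have hd' : (1 : ℝ) ≤ d := by exact_mod_cast hd
  have hw0 : (0 : ℝ) ≤ w' := by positivity
  refine ⟨h, mem_Icc.2 ⟨hh, le_trans (Nat.le_mul_of_pos_right _ hy') hy.2⟩, (y', w'), ?_, rfl⟩
  rw [pset, mem_filter, mem_product, mem_Icc, mem_Icc]
  refine ⟨⟨⟨hy', ?_⟩, hw', ?_⟩, z'', ?_, ?_⟩
  · apply Nat.le_floor
    rw [le_div_iff₀ hh']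
    push_cast at hY
    linarith
  · apply Nat.le_floor
    push_cast at hw2
    nlinarith
  · push_cast
    exact IsCoprime.mul_left hc' hc.of_mul_right_right
  · rw [le_div_iff₀ hh']
    have e : α * ((h * y' : ℕ) : ℝ) * ((d * w' : ℕ) : ℝ) - (((d : ℤ) * ((h : ℤ) * z'') : ℤ) : ℝ) =
        (α * ((y' * w' : ℕ) : ℝ) - z'') * h * d := by
      push_cast
      ring
    rw [e, abs_mul, abs_mul, abs_of_pos hh', abs_of_pos (by linarith : (0 : ℝ) < d)] at hz
    have h9 : 0 ≤ |α * ((y' * w' : ℕ) : ℝ) - z''| * h := by positivity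
    nlinarith

theorem card_short (α Y W η : ℝ) (E : Finset ℕ) (hE : E ⊆ Icc 1 ⌊Y⌋₊) :
    (#{y ∈ E | Short (α * ((y : ℕ) : ℝ)) W η} : ℝ) ≤
      ∑ h ∈ Icc 1 ⌊Y⌋₊, (#(pset α (Y / h) W (η / h)) : ℝ) := by
  have h1 : {y ∈ E | Short (α * ((y : ℕ) : ℝ)) W η} ⊆
      (Icc 1 ⌊Y⌋₊).biUnion fun h : ℕ => (pset α (Y / h) W (η / h)).image fun p => h * p.1 := by
    intro y hy
    rw [mem_filter] at hy
    obtain ⟨h, hh, p, hp, e⟩ := short_mem (hE hy.1) hy.2
    exact mem_biUnion.2 ⟨h, hh, mem_image.2 ⟨p, hp, e⟩⟩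
  have h2 := (card_le_card h1).trans (card_biUnion_le.trans (sum_le_sum fun h _ => card_image_le))
  exact_mod_cast h2

end Tail

theorem tail (h1 : PStmt) : TailStmt := by
  intro c α hc hb
  obtain ⟨C, hC, hP⟩ := h1 c α hc hb
  refine ⟨110 * C, by positivity, fun L τ hL hτ => ?_⟩
  have hτ1 : 1 ≤ τ := by
    rcases Nat.eq_zero_or_pos τ with rfl | h
    · norm_num at hτ
      linarith
    · exact h
  filter_upwards [hP, eventually_gt_atTop 0] with X hX hX0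
  have hL0 : 0 < L := by linarith
  set G : ℕ := ⌊L * X⌋₊ with hG
  refine ⟨fun y => τ + 1 +
    #{g ∈ Ioc τ G | Short (α * y) (L * X / ((g : ℕ) : ℝ)) (1 / X / ((g : ℕ) : ℝ))}, fun y => ?_, ?_⟩
  · set n :=
      #{g ∈ Ioc τ G | Short (α * y) (L * X / ((g : ℕ) : ℝ)) (1 / X / ((g : ℕ) : ℝ))} with hn
    have hn0 : (0 : ℝ) ≤ n := by positivity
    have hτ0 : (0 : ℝ) ≤ τ := by positivity
    refine ⟨by linarith, fun hs => ?_⟩
    have hpos : (0 : ℝ) < τ + 1 + n := by linarith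
    have hG1 : τ + 1 + n ≤ G := by
      obtain ⟨w, hw1, hw2, -⟩ := hs
      have hw3 : (1 : ℝ) ≤ w := by exact_mod_cast hw1
      have hw4 := hw3.trans hw2
      rw [le_div_iff₀ hpos] at hw4
      apply Nat.le_floor
      push_cast
      linarith
    have hsub : Ioc τ (τ + 1 + n) ⊆
        {g ∈ Ioc τ G | Short (α * y) (L * X / ((g : ℕ) : ℝ)) (1 / X / ((g : ℕ) : ℝ))} := by
      intro g hg
      rw [mem_Ioc] at hg
      have hg0 : (0 : ℝ) < g := by exact_mod_cast (by omega : 0 < g)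
      have hg1 : (g : ℝ) ≤ τ + 1 + n := by exact_mod_cast hg.2
      refine mem_filter.2 ⟨mem_Ioc.2 ⟨hg.1, hg.2.trans hG1⟩, hs.mono ?_ ?_⟩
      · exact div_le_div_of_nonneg_left (by positivity) hg0 hg1
      · exact div_le_div_of_nonneg_left (by positivity) hg0 hg1
    have hcard := card_le_card hsub
    rw [Nat.card_Ioc, ← hn] at hcard
    omega
  · intro E hE
    have e1 : ∑ y ∈ E, ((τ : ℝ) + 1 +
        (#{g ∈ Ioc τ G | Short (α * y) (L * X / ((g : ℕ) : ℝ)) (1 / X / ((g : ℕ) : ℝ))} : ℝ)) =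
        (τ + 1) * #E + ∑ g ∈ Ioc τ G,
          (#{y ∈ E | Short (α * ((y : ℕ) : ℝ)) (L * X / g) (1 / X / g)} : ℝ) := by
      rw [sum_add_distrib, sum_const, nsmul_eq_mul, mul_comm]
      congr 1
      simp only [card_filter, Nat.cast_sum]
      exact sum_comm
    rw [e1]
    have e2 : ∀ g ∈ Ioc τ G,
        (#{y ∈ E | Short (α * ((y : ℕ) : ℝ)) (L * X / g) (1 / X / g)} : ℝ) ≤
          11 * C * X * (g : ℝ) ^ (-1.1 : ℝ) := by
      intro g hg
      rw [mem_Ioc] at hg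
      have hg2 : (2 : ℝ) ≤ g := by exact_mod_cast (by omega : 2 ≤ g)
      have hg0 : (0 : ℝ) < g := by linarith
      have hLg : L ≤ (g : ℝ) ^ 2 := by
        have : (τ : ℝ) ≤ g := by exact_mod_cast hg.1.le
        exact hτ.trans (pow_le_pow_left₀ (by positivity) this 2)
      refine (Tail.card_short α (X / L) _ _ E hE).trans ?_
      have e3 : ∀ h ∈ Icc 1 ⌊X / L⌋₊, (#(pset α (X / L / h) (L * X / g) (1 / X / g / h)) : ℝ) ≤
          C * X * (g : ℝ) ^ (-1.1 : ℝ) * (h : ℝ) ^ (-1.1 : ℝ) := by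
        intro h hh
        rw [mem_Icc] at hh
        have hh1 : (1 : ℝ) ≤ h := by exact_mod_cast hh.1
        have hh0 : (0 : ℝ) < h := by linarith
        have a1 : X / L / h / (g * h * X) = 1 / (L * g * h ^ 2) := by field_simp
        have a2 : L * X / g / (g * h * X) = L / (g ^ 2 * h) := by field_simp
        have a3 : 1 / X / g / h = 1 / (g * h * X) := by field_simp
        have b1 : L ≤ (g : ℝ) ^ 2 * h := hLg.trans (le_mul_of_one_le_right (by positivity) hh1)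
        have hgh : (1 : ℝ) ≤ g * h ^ 2 := one_le_mul_of_one_le_of_one_le (by linarith)
          (one_le_pow₀ hh1)
        have := hX (g * h) (X / L / h) (L * X / g) (by nlinarith) (by positivity) (by positivity)
          (by field_simp) ?_ ?_ ?_ ?_
        · rw [a3]
          rw [Real.mul_rpow hg0.le hh0.le] at this
          linarith
        · rw [a1]
          apply one_div_le_one_div_of_le (by positivity)
          have := mul_le_mul_of_nonneg_right b1 (by positivity : (0 : ℝ) ≤ g * h ^ 2)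
          calc L * g * h ^ 2 = L * (g * h ^ 2) := by ring
            _ ≤ (g : ℝ) ^ 2 * h * (g * h ^ 2) := this
            _ = ((g : ℝ) * h) ^ 3 := by ring
        · rw [a1, div_le_one (by positivity), mul_assoc]
          exact one_le_mul_of_one_le_of_one_le hL hgh
        · rw [a2, div_le_div_iff₀ (by positivity) (by positivity)]
          have := one_le_mul_of_one_le_of_one_le hL hgh
          calc 1 * ((g : ℝ) ^ 2 * h) ≤ L * (g * h ^ 2) * (g ^ 2 * h) :=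
                mul_le_mul_of_nonneg_right this (by positivity)
            _ = L * (g * h) ^ 3 := by ring
        · rw [a2, div_le_one (by positivity)]
          exact b1
      refine (sum_le_sum e3).trans ?_
      rw [← mul_sum]
      have a5 := Tail.sum_all ⌊X / L⌋₊
      have a6 : 0 ≤ C * X * (g : ℝ) ^ (-1.1 : ℝ) := by positivity
      nlinarith
    have e4 := sum_le_sum e2
    rw [← mul_sum] at e4
    have e5 := mul_le_mul_of_nonneg_left (Tail.sum_tail τ hτ1 G)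
      (by positivity : 0 ≤ 11 * C * X)
    linarith

theorem ui (h1 : LCStmt) (h2 : TailStmt) : UIStmt := by
  intro c α hc hb K ε hK hε
  obtain ⟨C, hC, hT⟩ := h2 c α hc hb
  have hK0 : 0 < K := by linarith
  have hlim : Tendsto (fun τ : ℕ => (3 * K + 6) * (C * K) * (τ : ℝ) ^ (-0.1 : ℝ)) atTop
      (𝓝 ((3 * K + 6) * (C * K) * 0)) :=
    ((tendsto_rpow_neg_atTop (by norm_num : (0 : ℝ) < 0.1)).comp
      tendsto_natCast_atTop_atTop).const_mul _
  rw [mul_zero] at hlim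
  obtain ⟨τ, hτ1, hτ2⟩ := ((eventually_ge_atTop 1).and
    (hlim.eventually (eventually_le_nhds (half_pos hε)))).exists
  have hτ3 : (1 : ℝ) ≤ τ := by exact_mod_cast hτ1
  have hX : Tendsto (fun N : ℕ => K * (N : ℝ)) atTop atTop :=
    tendsto_natCast_atTop_atTop.const_mul_atTop hK0
  refine ⟨ε / 2 / ((3 * K + 6) * (τ + 1)), by positivity, ?_⟩
  filter_upwards [hX.eventually (hT 1 τ le_rfl (one_le_pow₀ hτ3)), eventually_ge_atTop 1]
    with N hN hN1 E hE hEc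
  obtain ⟨t, ht1, ht2⟩ := hN
  have hN2 : (1 : ℝ) ≤ N := by exact_mod_cast hN1
  have hN0 : (0 : ℝ) < N := by linarith
  have hX1 : 1 ≤ K * N := one_le_mul_of_one_le_of_one_le hK hN2
  have hX0 : 0 < K * N := by linarith
  have hfl : (⌊K * N⌋₊ : ℝ) ≤ K * N := Nat.floor_le hX0.le
  have e1 : (#{p ∈ E ×ˢ Icc 1 ⌊K * N⌋₊ | Arc 0 (1 / N) (α * ((p.1 * p.2 : ℕ) : ℝ))} : ℝ) =
      ∑ u ∈ E, (#{w ∈ Ioc 0 (0 + ⌊K * N⌋₊) | Arc 0 (1 / N) (α * u * ((w : ℕ) : ℝ))} : ℝ) := by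
    simp only [card_filter, Nat.cast_sum, sum_product, zero_add]
    refine sum_congr rfl fun u _ => sum_congr rfl fun w _ => ?_
    rw [Nat.cast_mul, mul_assoc]
  have e2 : ∀ u ∈ E, (#{w ∈ Ioc 0 (0 + ⌊K * N⌋₊) | Arc 0 (1 / N) (α * u * ((w : ℕ) : ℝ))} : ℝ) ≤
      (3 * K + 6) * t u := by
    intro u _
    obtain ⟨a1, a2⟩ := ht1 u
    have a3 : 1 / (K * N) ≤ 1 := (div_le_one hX0).2 hX1
    have a4 : (1 : ℝ) / N ≤ 1 := (div_le_one hN0).2 hN2
    have a5 := h1 (α * u) (1 * (K * N)) (1 / (K * N)) (t u) 0 (1 / N) 0 ⌊K * N⌋₊ (by positivity)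
      (by positivity) (a3.trans a1) (by positivity) (by linarith) a2
    have a6 := (abs_le.1 a5).2
    have a7 : (⌊K * N⌋₊ : ℝ) * (1 / N - 0) ≤ K := by
      rw [sub_zero, mul_one_div, div_le_iff₀ hN0]
      exact hfl
    have a8 : 3 * t u * (⌊K * N⌋₊ : ℝ) / (1 * (K * N)) ≤ 3 * t u := by
      rw [div_le_iff₀ (by positivity), one_mul]
      exact mul_le_mul_of_nonneg_left hfl (by linarith)
    have a9 : 2 * t u * (1 / N - 0) / (1 / (K * N)) = 2 * K * t u := by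
      field_simp
      ring
    rw [a9] at a6
    nlinarith
  rw [e1]
  refine (sum_le_sum e2).trans ?_
  rw [← mul_sum]
  have e3 := ht2 E (by rwa [div_one])
  have e4 : ((τ : ℝ) + 1) * #E ≤ (τ + 1) * (ε / 2 / ((3 * K + 6) * (τ + 1)) * N) :=
    mul_le_mul_of_nonneg_left hEc (by positivity)
  have e5 : (3 * K + 6) * (((τ : ℝ) + 1) * (ε / 2 / ((3 * K + 6) * (τ + 1)) * N)) = ε / 2 * N := by
    field_simp
  have e6 := mul_le_mul_of_nonneg_right hτ2 hN0.le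
  have e7 := mul_le_mul_of_nonneg_left (e3.trans (add_le_add_left e4 _))
    (by positivity : 0 ≤ 3 * K + 6)
  rw [mul_add, e5] at e7
  nlinarith

end Pool.Agent.Lib.MP_30b5ba_nt.P
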